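import Mathlib

/-! Truncated singular series: local functions at squarefree moduli, indexed by the sets of their primes. -/

set_option autoImplicit false

namespace Pool.Agent.K7.H69.GD

open Finset

/-- the product of a set of primes -/
def P (S : Finset ℕ) : ℕ := ∏ p ∈ S, p

/-- the local function of the modulus `P S` -/
noncomputable def Hs (S : Finset ℕ) (m : ℕ) : ℝ :=
  ∏ p ∈ S, (if p ∣ m then (-1 : ℝ) else 1 / ((p : ℝ) - 1))

/-- its correlations -/
noncomputable def U (S : Finset ℕ) (d : ℕ) : ℝ :=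
  ∏ p ∈ S, (if p ∣ d then 1 / ((p : ℝ) - 1) else -1 / ((p : ℝ) - 1) ^ 2)

/-- `1 / φ` -/
noncomputable def c (S : Finset ℕ) : ℝ := ∏ p ∈ S, (1 / ((p : ℝ) - 1))

/-- `∏ (-p)` -/
noncomputable def w (S : Finset ℕ) : ℝ := ∏ p ∈ S, (-(p : ℝ))

/-- distance -/
def dist (a b : ℕ) : ℕ := ((a : ℤ) - b).natAbs

lemma dist_comm (a b : ℕ) : dist a b = dist b a := by
  unfold dist
  rw [← Int.natAbs_neg]
  congr 1
  ring

lemma dist_self (a : ℕ) : dist a a = 0 := by
  unfold dist
  simp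

lemma dvd_dist {p a b : ℕ} : p ∣ dist a b ↔ a ≡ b [MOD p] := by
  unfold dist
  rw [← Int.natCast_dvd, Nat.modEq_iff_dvd, ← dvd_neg]
  congr! 1
  ring

lemma P_pos {S : Finset ℕ} (hS : ∀ p ∈ S, p.Prime) : 0 < P S := prod_pos fun p hp => (hS p hp).pos

lemma dvd_iff {S : Finset ℕ} (hS : ∀ p ∈ S, p.Prime) (m : ℕ) : P S ∣ m ↔ ∀ p ∈ S, p ∣ m := by
  constructor
  · intro h p hp
    exact (dvd_prod_of_mem (fun p : ℕ => p) hp).trans h
  · intro h
    exact prod_primes_dvd m (fun p hp => (hS p hp).prime) h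

lemma abs_w (S : Finset ℕ) : |w S| = (P S : ℝ) := by
  unfold w P
  rw [abs_prod, Nat.cast_prod]
  refine prod_congr rfl fun p _ => ?_
  rw [abs_neg, Nat.abs_cast]

lemma c_nonneg {S : Finset ℕ} (hS : ∀ p ∈ S, p.Prime) : 0 ≤ c S := by
  refine prod_nonneg fun p hp => ?_
  have : (2 : ℝ) ≤ p := by exact_mod_cast (hS p hp).two_le
  have : (0 : ℝ) < (p : ℝ) - 1 := by linarith
  positivity

lemma c_pos {S : Finset ℕ} (hS : ∀ p ∈ S, p.Prime) : 0 < c S := by
  refine prod_pos fun p hp => ?_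
  have : (2 : ℝ) ≤ p := by exact_mod_cast (hS p hp).two_le
  have : (0 : ℝ) < (p : ℝ) - 1 := by linarith
  positivity

lemma prod_w {T : Finset ℕ} (hT : ∀ p ∈ T, p.Prime) (m : ℕ) :
    ∏ p ∈ T, (if p ∣ m then (-(p : ℝ)) else 0) = w T * (if P T ∣ m then 1 else 0) := by
  by_cases h : P T ∣ m
  · rw [if_pos h, mul_one]
    unfold w
    refine prod_congr rfl fun p hp => ?_
    rw [if_pos ((dvd_iff hT m).1 h p hp)]
  · rw [if_neg h, mul_zero]
    rw [dvd_iff hT] at h
    push Not at h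
    obtain ⟨p, hp, hpm⟩ := h
    exact prod_eq_zero hp (if_neg hpm)

lemma Hs_eq {S : Finset ℕ} (hS : ∀ p ∈ S, p.Prime) (m : ℕ) :
    Hs S m = c S * ∑ T ∈ S.powerset, w T * (if P T ∣ m then 1 else 0) := by
  have h1 : Hs S m = ∏ p ∈ S, ((1 / ((p : ℝ) - 1)) * (1 + (if p ∣ m then (-(p : ℝ)) else 0))) := by
    unfold Hs
    refine prod_congr rfl fun p hp => ?_
    have h2 : (2 : ℝ) ≤ p := by exact_mod_cast (hS p hp).two_le
    have h3 : (p : ℝ) - 1 ≠ 0 := by
      intro h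
      linarith
    split_ifs
    · field_simp
      ring
    · ring
  rw [h1, prod_mul_distrib, prod_one_add]
  unfold c
  congr 1
  refine sum_congr rfl fun T hT => ?_
  exact prod_w (fun p hp => hS p (mem_powerset.1 hT hp)) m

/-- counting integers of a residue class in an interval -/
lemma card_class (y D r m : ℕ) (hm : 0 < m) :
    |(((Ioc y (y + D)).filter (fun n => n ≡ r [MOD m])).card : ℝ) - D / m| ≤ 1 := by
  have h := Nat.Ioc_filter_modEq_card y (y + D) hm r
  have hle : ⌊((y : ℚ) - r) / m⌋ ≤ ⌊(((y + D : ℕ) : ℚ) - r) / m⌋ := by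
    apply Int.floor_le_floor
    apply div_le_div_of_nonneg_right _ (by positivity)
    push_cast
    linarith [(by positivity : (0 : ℚ) ≤ D)]
  rw [max_eq_left (by linarith)] at h
  have h1 : ((((Ioc y (y + D)).filter (fun n => n ≡ r [MOD m])).card : ℤ) : ℚ) =
      (⌊(((y + D : ℕ) : ℚ) - r) / m⌋ : ℚ) - ⌊((y : ℚ) - r) / m⌋ := by
    rw [h]
    push_cast
    ring
  have a1 := Int.floor_le ((((y + D : ℕ) : ℚ) - r) / m)
  have a2 := Int.lt_floor_add_one ((((y + D : ℕ) : ℚ) - r) / m)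
  have b1 := Int.floor_le (((y : ℚ) - r) / m)
  have b2 := Int.lt_floor_add_one (((y : ℚ) - r) / m)
  have e : (((y + D : ℕ) : ℚ) - r) / m = ((y : ℚ) - r) / m + D / m := by
    push_cast
    ring
  rw [e] at a1 a2 h1
  have hq : |((((Ioc y (y + D)).filter (fun n => n ≡ r [MOD m])).card : ℤ) : ℚ) - D / m| ≤ 1 := by
    rw [h1, abs_le]
    constructor <;> linarith
  have := (Rat.cast_le (K := ℝ)).2 hq
  push_cast at this
  exact this

/-- the pairs of conditions form one class -/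
lemma exists_class {T T' : Finset ℕ} (hT : ∀ p ∈ T, p.Prime) (hT' : ∀ p ∈ T', p.Prime) (a a' : ℕ)
    (h : ∀ p ∈ T ∩ T', p ∣ dist a a') :
    ∃ r : ℕ, ∀ n : ℕ, (P T ∣ n + a ∧ P T' ∣ n + a') ↔ n ≡ r [MOD P (T ∪ T')] := by
  classical
  have hU : ∀ p ∈ T ∪ T', p.Prime := by
    intro p hp
    rcases mem_union.1 hp with hp | hp
    · exact hT p hp
    · exact hT' p hp
  set f : ℕ → ℕ := fun p => if p ∈ T then p - a % p else p - a' % p with hf
  have key : ∀ p b n : ℕ, p.Prime → (n ≡ p - b % p [MOD p] ↔ p ∣ n + b) := by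
    intro p b n hp
    have hlt := Nat.mod_lt b hp.pos
    have h0 : p - b % p + b ≡ 0 [MOD p] := by
      have e : p - b % p + b = p * (1 + b / p) := by
        have := Nat.mod_add_div b p
        rw [mul_add, mul_one]
        omega
      rw [e]
      exact (Nat.modEq_zero_iff_dvd.2 (dvd_mul_right _ _))
    constructor
    · intro h1
      have := (h1.add_right b).trans h0
      exact (Nat.modEq_zero_iff_dvd.1 this)
    · intro h1
      have h2 : n + b ≡ p - b % p + b [MOD p] := (Nat.modEq_zero_iff_dvd.2 h1).trans h0.symm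
      exact Nat.ModEq.add_right_cancel' b h2
  obtain ⟨r, hr⟩ := Nat.chineseRemainderOfFinset f (fun p => p) (T ∪ T')
    (fun p hp => (hU p hp).ne_zero) (by
      intro p hp q hq hpq
      exact (Nat.coprime_primes (hU p (mem_coe.1 hp)) (hU q (mem_coe.1 hq))).2 hpq)
  refine ⟨r, fun n => ?_⟩
  have h1 : n ≡ r [MOD P (T ∪ T')] ↔ ∀ p ∈ T ∪ T', n ≡ r [MOD p] := by
    rw [← dvd_dist, dvd_iff hU]
    refine forall₂_congr fun p _ => ?_
    rw [dvd_dist]
  rw [h1, dvd_iff hT, dvd_iff hT']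
  constructor
  · rintro ⟨h2, h3⟩ p hp
    refine Nat.ModEq.trans ?_ (hr p hp).symm
    simp only [hf]
    by_cases hpT : p ∈ T
    · rw [if_pos hpT]
      exact (key p a n (hU p hp)).2 (h2 p hpT)
    · rw [if_neg hpT]
      exact (key p a' n (hU p hp)).2 (h3 p ((mem_union.1 hp).resolve_left hpT))
  · intro h2
    have h3 : ∀ p ∈ T, p ∣ n + a := by
      intro p hp
      have hpU := mem_union_left T' hp
      have h4 := (h2 p hpU).trans (hr p hpU)
      simp only [hf] at h4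
      rw [if_pos hp] at h4
      exact (key p a n (hU p hpU)).1 h4
    refine ⟨h3, fun p hp => ?_⟩
    have hpU := mem_union_right T hp
    by_cases hpT : p ∈ T
    · have h4 := h3 p hpT
      have h5 := dvd_dist.1 (h p (mem_inter.2 ⟨hpT, hp⟩))
      exact (Nat.modEq_zero_iff_dvd.1 ((h5.symm.add_left n).trans (Nat.modEq_zero_iff_dvd.2 h4)))
    · have h4 := (h2 p hpU).trans (hr p hpU)
      simp only [hf] at h4
      rw [if_neg hpT] at h4
      exact (key p a' n (hU p hpU)).1 h4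

/-- the main term of the count -/
noncomputable def mn (T T' : Finset ℕ) (d : ℕ) : ℝ :=
  if ∀ p ∈ T ∩ T', p ∣ d then 1 / (P (T ∪ T') : ℝ) else 0

lemma card_pair {T T' : Finset ℕ} (hT : ∀ p ∈ T, p.Prime) (hT' : ∀ p ∈ T', p.Prime) (a a' y D : ℕ) :
    |(((Ioc y (y + D)).filter (fun n => P T ∣ n + a ∧ P T' ∣ n + a')).card : ℝ) -
      D * mn T T' (dist a a')| ≤ 1 := by
  classical
  unfold mn
  by_cases h : ∀ p ∈ T ∩ T', p ∣ dist a a'
  · rw [if_pos h]
    obtain ⟨r, hr⟩ := exists_class hT hT' a a' h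
    have hU : ∀ p ∈ T ∪ T', p.Prime := by
      intro p hp
      rcases mem_union.1 hp with hp | hp
      · exact hT p hp
      · exact hT' p hp
    have h1 := card_class y D r (P (T ∪ T')) (P_pos hU)
    have h2 : (Ioc y (y + D)).filter (fun n => P T ∣ n + a ∧ P T' ∣ n + a') =
        (Ioc y (y + D)).filter (fun n => n ≡ r [MOD P (T ∪ T')]) := filter_congr fun n _ => hr n
    rw [h2, mul_one_div]
    exact h1
  · rw [if_neg h, mul_zero, sub_zero]
    push Not at h
    obtain ⟨p, hp, hpd⟩ := h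
    have h0 : (Ioc y (y + D)).filter (fun n => P T ∣ n + a ∧ P T' ∣ n + a') = ∅ := by
      rw [filter_eq_empty_iff]
      rintro n - ⟨h1, h2⟩
      apply hpd
      rw [dvd_dist]
      have h3 := (dvd_iff hT _).1 h1 p (mem_inter.1 hp).1
      have h4 := (dvd_iff hT' _).1 h2 p (mem_inter.1 hp).2
      have h5 : n + a ≡ n + a' [MOD p] :=
        (Nat.modEq_zero_iff_dvd.2 h3).trans (Nat.modEq_zero_iff_dvd.2 h4).symm
      exact Nat.ModEq.add_left_cancel' n h5
    rw [h0]
    simp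

/-- the main term of the correlation sum -/
noncomputable def F (S S' : Finset ℕ) (d : ℕ) : ℝ :=
  ∑ T ∈ S.powerset, ∑ T' ∈ S'.powerset, w T * w T' * mn T T' d

lemma mn_comm (T T' : Finset ℕ) (d : ℕ) : mn T T' d = mn T' T d := by
  unfold mn
  rw [inter_comm, union_comm]

lemma F_comm (S S' : Finset ℕ) (d : ℕ) : F S S' d = F S' S d := by
  unfold F
  rw [sum_comm]
  refine sum_congr rfl fun T _ => sum_congr rfl fun T' _ => ?_
  rw [mn_comm]
  ring

/-- the term in product form -/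
lemma term_eq {T T' : Finset ℕ} (hT : ∀ p ∈ T, p.Prime) (hT' : ∀ p ∈ T', p.Prime) (d : ℕ) :
    w T * w T' * mn T T' d = (∏ _p ∈ T', (-1 : ℝ)) *
      ∏ p ∈ T, (-(if p ∈ T' then (if p ∣ d then (p : ℝ) else 0) else 1)) := by
  classical
  have hw : ∀ S : Finset ℕ, w S = (∏ _p ∈ S, (-1 : ℝ)) * (P S : ℝ) := by
    intro S
    unfold w P
    rw [Nat.cast_prod, ← prod_mul_distrib]
    refine prod_congr rfl fun p _ => ?_
    ring
  have h1 : ∏ p ∈ T, (-(if p ∈ T' then (if p ∣ d then (p : ℝ) else 0) else 1)) =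
      (∏ _p ∈ T, (-1 : ℝ)) * ∏ p ∈ T ∩ T', (if p ∣ d then (p : ℝ) else 0) := by
    have e1 : ∏ p ∈ T, (-(if p ∈ T' then (if p ∣ d then (p : ℝ) else 0) else 1)) =
        (∏ _p ∈ T, (-1 : ℝ)) * ∏ p ∈ T, (if p ∈ T' then (if p ∣ d then (p : ℝ) else 0) else 1) := by
      rw [← prod_mul_distrib]
      refine prod_congr rfl fun p _ => ?_
      ring
    rw [e1, prod_ite, prod_const_one, mul_one, filter_mem_eq_inter]
  have hP : (P T : ℝ) * P T' = (P (T ∪ T') : ℝ) * P (T ∩ T') := by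
    unfold P
    rw [← Nat.cast_mul, ← Nat.cast_mul, prod_union_inter]
  have hU : ∀ p ∈ T ∪ T', p.Prime := by
    intro p hp
    rcases mem_union.1 hp with hp | hp
    · exact hT p hp
    · exact hT' p hp
  have hU0 : (P (T ∪ T') : ℝ) ≠ 0 := by exact_mod_cast (P_pos hU).ne'
  rw [h1, hw T, hw T']
  unfold mn
  by_cases h : ∀ p ∈ T ∩ T', p ∣ d
  · rw [if_pos h]
    have e2 : ∏ p ∈ T ∩ T', (if p ∣ d then (p : ℝ) else 0) = (P (T ∩ T') : ℝ) := by
      unfold P
      rw [Nat.cast_prod]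
      refine prod_congr rfl fun p hp => ?_
      rw [if_pos (h p hp)]
    rw [e2]
    have e3 : (P T : ℝ) * P T' * (1 / (P (T ∪ T') : ℝ)) = P (T ∩ T') := by
      rw [hP]
      field_simp
    calc _ = (∏ _p ∈ T, (-1 : ℝ)) * (∏ _p ∈ T', (-1 : ℝ)) * ((P T : ℝ) * P T' * (1 / (P (T ∪ T') : ℝ))) := by ring
      _ = _ := by rw [e3]; ring
  · rw [if_neg h]
    push Not at h
    obtain ⟨p, hp, hpd⟩ := h
    rw [prod_eq_zero hp (if_neg hpd)]
    ring

lemma F_eq {S S' : Finset ℕ} (hS : ∀ p ∈ S, p.Prime) (hS' : ∀ p ∈ S', p.Prime) (d : ℕ) :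
    F S S' d = ∑ T' ∈ S'.powerset, (∏ _p ∈ T', (-1 : ℝ)) *
      ∏ p ∈ S, (1 + -(if p ∈ T' then (if p ∣ d then (p : ℝ) else 0) else 1)) := by
  unfold F
  rw [sum_comm]
  refine sum_congr rfl fun T' hT' => ?_
  rw [prod_one_add, mul_sum]
  refine sum_congr rfl fun T hT => ?_
  exact term_eq (fun p hp => hS p (mem_powerset.1 hT hp)) (fun p hp => hS' p (mem_powerset.1 hT' hp)) d

lemma F_sub {S S' : Finset ℕ} (hS : ∀ p ∈ S, p.Prime) (hS' : ∀ p ∈ S', p.Prime) (d : ℕ)
    (h : F S S' d ≠ 0) : S ⊆ S' := by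
  by_contra hc
  apply h
  rw [F_eq hS hS']
  refine sum_eq_zero fun T' hT' => ?_
  obtain ⟨p, hp, hpS'⟩ := not_subset.1 hc
  have : p ∉ T' := fun h1 => hpS' (mem_powerset.1 hT' h1)
  rw [prod_eq_zero hp (by rw [if_neg this]; ring), mul_zero]

lemma F_self {S : Finset ℕ} (hS : ∀ p ∈ S, p.Prime) (d : ℕ) :
    c S * c S * F S S d = U S d := by
  classical
  rw [F_eq hS hS, sum_eq_single S]
  · unfold c U
    rw [← prod_mul_distrib, ← prod_mul_distrib, ← prod_mul_distrib]
    refine prod_congr rfl fun p hp => ?_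
    have h2 : (2 : ℝ) ≤ p := by exact_mod_cast (hS p hp).two_le
    have h3 : (p : ℝ) - 1 ≠ 0 := by
      intro h
      linarith
    rw [if_pos hp]
    split_ifs
    · field_simp
      ring
    · field_simp
      ring
  · intro T' hT' hne
    have hlt : ∃ p ∈ S, p ∉ T' := by
      by_contra hc
      push Not at hc
      exact hne (Subset.antisymm (mem_powerset.1 hT') hc)
    obtain ⟨p, hp, hpT'⟩ := hlt
    rw [prod_eq_zero hp (by rw [if_neg hpT']; ring), mul_zero]
  · intro h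
    exact absurd (mem_powerset_self S) h

lemma F_ne {S S' : Finset ℕ} (hS : ∀ p ∈ S, p.Prime) (hS' : ∀ p ∈ S', p.Prime) (d : ℕ) (h : S ≠ S') :
    F S S' d = 0 := by
  by_contra hc
  apply h
  refine Subset.antisymm (F_sub hS hS' d hc) (F_sub hS' hS d ?_)
  rwa [F_comm]

/-- correlations of the local functions over an interval -/
theorem corr {S S' : Finset ℕ} (hS : ∀ p ∈ S, p.Prime) (hS' : ∀ p ∈ S', p.Prime) (a a' y D : ℕ) :
    |∑ n ∈ Ioc y (y + D), Hs S (n + a) * Hs S' (n + a') - D * (if S = S' then U S (dist a a') else 0)| ≤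
      (c S * ∏ p ∈ S, (1 + (p : ℝ))) * (c S' * ∏ p ∈ S', (1 + (p : ℝ))) := by
  classical
  have h1 : ∑ n ∈ Ioc y (y + D), Hs S (n + a) * Hs S' (n + a') =
      c S * c S' * ∑ T ∈ S.powerset, ∑ T' ∈ S'.powerset, w T * w T' *
        (((Ioc y (y + D)).filter (fun n => P T ∣ n + a ∧ P T' ∣ n + a')).card : ℝ) := by
    have e1 : ∀ n ∈ Ioc y (y + D), Hs S (n + a) * Hs S' (n + a') =
        ∑ T ∈ S.powerset, ∑ T' ∈ S'.powerset, c S * c S' * (w T * w T' *
          (if P T ∣ n + a ∧ P T' ∣ n + a' then 1 else 0)) := by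
      intro n _
      rw [Hs_eq hS, Hs_eq hS', mul_mul_mul_comm, sum_mul_sum, mul_sum]
      refine sum_congr rfl fun T _ => ?_
      rw [mul_sum]
      refine sum_congr rfl fun T' _ => ?_
      by_cases q1 : P T ∣ n + a <;> by_cases q2 : P T' ∣ n + a' <;> simp [q1, q2]
    rw [sum_congr rfl e1, sum_comm, mul_sum]
    refine sum_congr rfl fun T _ => ?_
    rw [sum_comm, mul_sum]
    refine sum_congr rfl fun T' _ => ?_
    rw [card_filter, Nat.cast_sum, ← mul_sum, ← mul_sum]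
    congr 2
    refine sum_congr rfl fun n _ => ?_
    push_cast
    rfl
  have h2 : (D : ℝ) * (if S = S' then U S (dist a a') else 0) =
      c S * c S' * ∑ T ∈ S.powerset, ∑ T' ∈ S'.powerset, w T * w T' * (D * mn T T' (dist a a')) := by
    have e2 : ∑ T ∈ S.powerset, ∑ T' ∈ S'.powerset, w T * w T' * (D * mn T T' (dist a a')) =
        D * F S S' (dist a a') := by
      unfold F
      rw [mul_sum]
      refine sum_congr rfl fun T _ => ?_
      rw [mul_sum]
      refine sum_congr rfl fun T' _ => ?_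
      ring
    rw [e2]
    by_cases h : S = S'
    · subst h
      rw [if_pos rfl, ← F_self hS]
      ring
    · rw [if_neg h, F_ne hS hS' _ h]
      ring
  rw [h1, h2, ← mul_sub, ← sum_sub_distrib]
  have hc : 0 ≤ c S * c S' := mul_nonneg (c_nonneg hS) (c_nonneg hS')
  rw [abs_mul, abs_of_nonneg hc]
  have h3 : |∑ T ∈ S.powerset, (∑ T' ∈ S'.powerset, w T * w T' *
        (((Ioc y (y + D)).filter (fun n => P T ∣ n + a ∧ P T' ∣ n + a')).card : ℝ) -
        ∑ T' ∈ S'.powerset, w T * w T' * (D * mn T T' (dist a a')))| ≤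
      ∑ T ∈ S.powerset, ∑ T' ∈ S'.powerset, (P T : ℝ) * P T' := by
    refine (abs_sum_le_sum_abs _ _).trans (sum_le_sum fun T hT => ?_)
    rw [← sum_sub_distrib]
    refine (abs_sum_le_sum_abs _ _).trans (sum_le_sum fun T' hT' => ?_)
    rw [← mul_sub, abs_mul, abs_mul, abs_w, abs_w]
    have := card_pair (fun p hp => hS p (mem_powerset.1 hT hp))
      (fun p hp => hS' p (mem_powerset.1 hT' hp)) a a' y D
    calc _ ≤ (P T : ℝ) * P T' * 1 := mul_le_mul_of_nonneg_left this (by positivity)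
      _ = _ := mul_one _
  have h4 : ∀ R : Finset ℕ, ∏ p ∈ R, (1 + (p : ℝ)) = ∑ T ∈ R.powerset, (P T : ℝ) := by
    intro R
    rw [prod_one_add]
    refine sum_congr rfl fun T _ => ?_
    unfold P
    rw [Nat.cast_prod]
  calc _ ≤ c S * c S' * ∑ T ∈ S.powerset, ∑ T' ∈ S'.powerset, (P T : ℝ) * P T' :=
        mul_le_mul_of_nonneg_left h3 hc
    _ = _ := by
        rw [h4, h4, ← sum_mul_sum]
        ring

end Pool.Agent.K7.H69.GD
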