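import Pool.Agent.K7.H69.GD.A

/-! Correlations of the von Mangoldt function with the local functions. -/

set_option autoImplicit false

namespace Pool.Agent.K7.H69.GD

open Finset ArithmeticFunction

/-- the sum of the von Mangoldt function in a residue class -/
noncomputable def ps (Y k a : ℕ) : ℝ := ∑ n ∈ (Icc 1 Y).filter (fun n => n ≡ a [MOD k]), vonMangoldt n

lemma lam_nonneg (n : ℕ) : (0 : ℝ) ≤ vonMangoldt n := vonMangoldt_nonneg

/-- the multiples of a prime -/
lemma lam_mult {p X : ℕ} (hp : p.Prime) (hX : 1 ≤ X) :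
    ∑ m ∈ (Icc 1 X).filter (fun m => p ∣ m), (vonMangoldt m : ℝ) ≤ Real.log X := by
  have hsub : ∑ m ∈ (Icc 1 X).filter (fun m => p ∣ m), (vonMangoldt m : ℝ) ≤
      ∑ m ∈ (p ^ Nat.log p X).divisors, (vonMangoldt m : ℝ) := by
    rw [← sum_filter_add_sum_filter_not ((Icc 1 X).filter (fun m => p ∣ m)) (fun m => (vonMangoldt m : ℝ) = 0)]
    have h0 : ∑ x ∈ ((Icc 1 X).filter (fun m => p ∣ m)).filter (fun m => (vonMangoldt m : ℝ) = 0),
        (vonMangoldt x : ℝ) = 0 := sum_eq_zero fun x hx => (mem_filter.1 hx).2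
    rw [h0, zero_add]
    refine sum_le_sum_of_subset_of_nonneg ?_ (fun i _ _ => lam_nonneg i)
    intro m hm
    rw [mem_filter, mem_filter, mem_Icc] at hm
    obtain ⟨⟨⟨h1, h2⟩, h3⟩, h4⟩ := hm
    rw [← ne_eq, vonMangoldt_ne_zero_iff] at h4
    rw [Nat.mem_divisors]
    refine ⟨?_, pow_ne_zero _ hp.ne_zero⟩
    obtain ⟨q, k, hq, hk, rfl⟩ := (isPrimePow_nat_iff m).1 h4
    have h5 : p = q := (Nat.prime_dvd_prime_iff_eq hp hq).1 (hp.dvd_of_dvd_pow h3)
    subst h5
    exact pow_dvd_pow _ (Nat.le_log_of_pow_le hp.one_lt h2)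
  refine hsub.trans ?_
  rw [vonMangoldt_sum]
  refine Real.log_le_log ?_ ?_
  · exact_mod_cast pow_pos hp.pos _
  · exact_mod_cast Nat.pow_log_le_self p (by omega)

lemma P_totient {T : Finset ℕ} (hT : ∀ p ∈ T, p.Prime) : 1 / (Nat.totient (P T) : ℝ) = c T := by
  classical
  have h : ∀ R : Finset ℕ, (∀ p ∈ R, p.Prime) → (Nat.totient (P R) : ℝ) = ∏ p ∈ R, ((p : ℝ) - 1) := by
    intro R
    induction R using Finset.induction_on with
    | empty =>
      intro _
      simp [P]
    | insert a R ha ih =>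
      intro hR
      have hap := hR a (mem_insert_self a R)
      have hR' : ∀ p ∈ R, p.Prime := fun p hp => hR p (mem_insert_of_mem hp)
      have hco : Nat.Coprime a (P R) := by
        refine Nat.Coprime.prod_right fun p hp => ?_
        rw [Nat.coprime_primes hap (hR' p hp)]
        rintro rfl
        exact ha hp
      have e : P (insert a R) = a * P R := by
        unfold P
        rw [prod_insert ha]
      rw [e, Nat.totient_mul hco, Nat.cast_mul, ih hR', prod_insert ha, Nat.totient_prime hap,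
        Nat.cast_sub hap.one_lt.le, Nat.cast_one]
  rw [h T hT]
  unfold c
  rw [prod_div_distrib, prod_const_one]

/-- the von Mangoldt function on the translates of the multiples of `P T` -/
lemma lam_sum {T : Finset ℕ} (hT : ∀ p ∈ T, p.Prime) (a a' y D X : ℕ) (hX1 : 1 ≤ X) (hX : y + D + a ≤ X) {M : ℝ}
    (hM0 : 0 ≤ M) (hM : ∀ b : ℕ, b.Coprime (P T) → ∀ z : ℕ, z ≤ X → |ps z (P T) b - z / (Nat.totient (P T) : ℝ)| ≤ M) :
    |∑ n ∈ Ioc y (y + D), (vonMangoldt (n + a) : ℝ) * (if P T ∣ n + a' then 1 else 0) -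
      D * (if ∀ p ∈ T, ¬ p ∣ dist a a' then c T else 0)| ≤ 2 * M + Real.log X := by
  classical
  have hlog : 0 ≤ Real.log X := Real.log_natCast_nonneg X
  have hP := P_pos hT
  by_cases h : ∀ p ∈ T, ¬ p ∣ dist a a'
  · rw [if_pos h]
    set b : ℕ := a + (P T - a' % P T) with hb
    have hlt := Nat.mod_lt a' hP
    have h0 : P T - a' % P T + a' ≡ 0 [MOD P T] := by
      have e : P T - a' % P T + a' = P T * (1 + a' / P T) := by
        have := Nat.mod_add_div a' (P T)
        rw [mul_add, mul_one]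
        omega
      rw [e]
      exact (Nat.modEq_zero_iff_dvd.2 (dvd_mul_right _ _))
    have key : ∀ n : ℕ, (P T ∣ n + a' ↔ n + a ≡ b [MOD P T]) := by
      intro n
      constructor
      · intro h1
        have h2 : n + a' ≡ P T - a' % P T + a' [MOD P T] := (Nat.modEq_zero_iff_dvd.2 h1).trans h0.symm
        have h3 := Nat.ModEq.add_right_cancel' a' h2
        rw [hb, add_comm a]
        exact h3.add_right a
      · intro h1
        rw [hb, add_comm a] at h1
        have h3 := Nat.ModEq.add_right_cancel' a h1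
        exact Nat.modEq_zero_iff_dvd.1 ((h3.add_right a').trans h0)
    have hcop : b.Coprime (P T) := by
      refine Nat.Coprime.prod_right fun p hp => ?_
      rw [Nat.coprime_comm, (hT p hp).coprime_iff_not_dvd]
      intro hpb
      apply h p hp
      rw [dvd_dist]
      have hpP : p ∣ P T := dvd_prod_of_mem (fun p : ℕ => p) hp
      have h4 : b + a' ≡ a [MOD p] := by
        have h5 : P T - a' % P T + a' ≡ 0 [MOD p] := h0.of_dvd hpP
        have h6 := h5.add_left a
        rw [add_zero, ← add_assoc] at h6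
        exact h6
      have h5 : b + a' ≡ a' [MOD p] := by
        have := (Nat.modEq_zero_iff_dvd.2 hpb).add_right a'
        rwa [zero_add] at this
      exact h4.symm.trans h5
    have e1 : ∑ n ∈ Ioc y (y + D), (vonMangoldt (n + a) : ℝ) * (if P T ∣ n + a' then 1 else 0) =
        ps (y + D + a) (P T) b - ps (y + a) (P T) b := by
      have e2 : ∑ n ∈ Ioc y (y + D), (vonMangoldt (n + a) : ℝ) * (if P T ∣ n + a' then 1 else 0) =
          ∑ m ∈ (Ioc (y + a) (y + D + a)).filter (fun m => m ≡ b [MOD P T]), (vonMangoldt m : ℝ) := by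
        rw [sum_filter, ← Finset.map_add_right_Ioc, sum_map]
        refine sum_congr rfl fun n _ => ?_
        simp only [addRightEmbedding_apply]
        by_cases q : P T ∣ n + a'
        · rw [if_pos q, if_pos ((key n).1 q), mul_one]
        · rw [if_neg q, if_neg (fun h => q ((key n).2 h)), mul_zero]
      have e3 : ps (y + D + a) (P T) b = ps (y + a) (P T) b +
          ∑ m ∈ (Ioc (y + a) (y + D + a)).filter (fun m => m ≡ b [MOD P T]), (vonMangoldt m : ℝ) := by
        unfold ps
        rw [← sum_union]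
        · congr 1
          ext m
          simp only [mem_union, mem_filter, mem_Icc, mem_Ioc]
          constructor
          · rintro ⟨⟨h1, h2⟩, h3⟩
            rcases Nat.lt_or_ge (y + a) m with h4 | h4
            · exact Or.inr ⟨⟨h4, h2⟩, h3⟩
            · exact Or.inl ⟨⟨h1, h4⟩, h3⟩
          · rintro (⟨⟨h1, h2⟩, h3⟩ | ⟨⟨h1, h2⟩, h3⟩)
            · exact ⟨⟨h1, by omega⟩, h3⟩
            · exact ⟨⟨by omega, h2⟩, h3⟩
        · rw [disjoint_left]
          intro m h1 h2
          rw [mem_filter, mem_Icc] at h1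
          rw [mem_filter, mem_Ioc] at h2
          omega
      rw [e2, e3]
      ring
    rw [e1, ← P_totient hT]
    have h1 := hM b hcop (y + D + a) hX
    have h2 := hM b hcop (y + a) (by omega)
    have e4 : ps (y + D + a) (P T) b - ps (y + a) (P T) b - D * (1 / (Nat.totient (P T) : ℝ)) =
        (ps (y + D + a) (P T) b - ((y + D + a : ℕ) : ℝ) / (Nat.totient (P T) : ℝ)) -
        (ps (y + a) (P T) b - ((y + a : ℕ) : ℝ) / (Nat.totient (P T) : ℝ)) := by
      push_cast
      ring
    rw [e4]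
    have := abs_sub (ps (y + D + a) (P T) b - ((y + D + a : ℕ) : ℝ) / (Nat.totient (P T) : ℝ))
      (ps (y + a) (P T) b - ((y + a : ℕ) : ℝ) / (Nat.totient (P T) : ℝ))
    linarith
  · rw [if_neg h, mul_zero, sub_zero]
    push Not at h
    obtain ⟨p, hp, hpd⟩ := h
    have hpp := hT p hp
    have h1 : ∑ n ∈ Ioc y (y + D), (vonMangoldt (n + a) : ℝ) * (if P T ∣ n + a' then 1 else 0) ≤
        ∑ m ∈ (Icc 1 X).filter (fun m => p ∣ m), (vonMangoldt m : ℝ) := by
      have e2 : ∑ n ∈ Ioc y (y + D), (vonMangoldt (n + a) : ℝ) * (if P T ∣ n + a' then 1 else 0) ≤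
          ∑ m ∈ (Ioc (y + a) (y + D + a)).filter (fun m => p ∣ m), (vonMangoldt m : ℝ) := by
        rw [sum_filter, ← Finset.map_add_right_Ioc, sum_map]
        refine sum_le_sum fun n _ => ?_
        simp only [addRightEmbedding_apply]
        by_cases q : P T ∣ n + a'
        · have q1 : p ∣ n + a' := (dvd_iff hT _).1 q p hp
          have q2 : p ∣ n + a := by
            have h5 := (dvd_dist.1 hpd).add_left n
            exact (Nat.modEq_zero_iff_dvd.1 (h5.trans (Nat.modEq_zero_iff_dvd.2 q1)))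
          rw [if_pos q, if_pos q2, mul_one]
        · rw [if_neg q, mul_zero]
          split_ifs
          · exact lam_nonneg _
          · exact le_rfl
      refine e2.trans (sum_le_sum_of_subset_of_nonneg ?_ (fun i _ _ => lam_nonneg i))
      intro m hm
      rw [mem_filter, mem_Ioc] at hm
      rw [mem_filter, mem_Icc]
      exact ⟨⟨by omega, by omega⟩, hm.2⟩
    have h2 := lam_mult hpp hX1
    have h3 : 0 ≤ ∑ n ∈ Ioc y (y + D), (vonMangoldt (n + a) : ℝ) * (if P T ∣ n + a' then 1 else 0) := by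
      refine sum_nonneg fun n _ => mul_nonneg (lam_nonneg _) ?_
      split_ifs
      · exact zero_le_one
      · exact le_rfl
    rw [abs_of_nonneg h3]
    linarith

lemma main_eq {S : Finset ℕ} (hS : ∀ p ∈ S, p.Prime) (d : ℕ) :
    c S * ∑ T ∈ S.powerset, w T * (if ∀ p ∈ T, ¬ p ∣ d then c T else 0) = U S d := by
  classical
  have h1 : ∀ T ∈ S.powerset, w T * (if ∀ p ∈ T, ¬ p ∣ d then c T else 0) =
      ∏ p ∈ T, (if p ∣ d then 0 else -((p : ℝ) * (1 / ((p : ℝ) - 1)))) := by
    intro T _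
    by_cases h : ∀ p ∈ T, ¬ p ∣ d
    · rw [if_pos h]
      unfold w c
      rw [← prod_mul_distrib]
      refine prod_congr rfl fun p hp => ?_
      rw [if_neg (h p hp)]
      ring
    · rw [if_neg h]
      push Not at h
      obtain ⟨p, hp, hpd⟩ := h
      rw [prod_eq_zero (f := fun q : ℕ => if q ∣ d then (0 : ℝ) else -((q : ℝ) * (1 / ((q : ℝ) - 1)))) hp
        (if_pos hpd), mul_zero]
  rw [sum_congr rfl h1, ← prod_one_add]
  unfold c U
  rw [← prod_mul_distrib]
  refine prod_congr rfl fun p hp => ?_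
  have h2 : (2 : ℝ) ≤ p := by exact_mod_cast (hS p hp).two_le
  have h3 : (p : ℝ) - 1 ≠ 0 := by
    intro h
    linarith
  split_ifs
  · ring
  · field_simp
    ring

/-- correlation of the von Mangoldt function and a local function over an interval -/
theorem corrL {S : Finset ℕ} (hS : ∀ p ∈ S, p.Prime) (a a' y D X : ℕ) (hX1 : 1 ≤ X) (hX : y + D + a ≤ X)
    {M : ℕ → ℝ} (hM0 : ∀ q, 0 ≤ M q)
    (hM : ∀ q, 1 ≤ q → ∀ b : ℕ, b.Coprime q → ∀ z : ℕ, z ≤ X → |ps z q b - z / (Nat.totient q : ℝ)| ≤ M q) :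
    |∑ n ∈ Ioc y (y + D), (vonMangoldt (n + a) : ℝ) * Hs S (n + a') - D * U S (dist a a')| ≤
      c S * ∑ T ∈ S.powerset, (P T : ℝ) * (2 * M (P T) + Real.log X) := by
  classical
  have h1 : ∑ n ∈ Ioc y (y + D), (vonMangoldt (n + a) : ℝ) * Hs S (n + a') =
      c S * ∑ T ∈ S.powerset, w T * ∑ n ∈ Ioc y (y + D), (vonMangoldt (n + a) : ℝ) *
        (if P T ∣ n + a' then 1 else 0) := by
    have e1 : ∀ n ∈ Ioc y (y + D), (vonMangoldt (n + a) : ℝ) * Hs S (n + a') =
        ∑ T ∈ S.powerset, c S * (w T * ((vonMangoldt (n + a) : ℝ) * (if P T ∣ n + a' then 1 else 0))) := by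
      intro n _
      rw [Hs_eq hS, mul_sum, mul_sum]
      refine sum_congr rfl fun T _ => ?_
      ring
    rw [sum_congr rfl e1, sum_comm, mul_sum]
    refine sum_congr rfl fun T _ => ?_
    rw [← mul_sum, ← mul_sum]
  have h2 : (D : ℝ) * U S (dist a a') = c S * ∑ T ∈ S.powerset, w T *
      (D * (if ∀ p ∈ T, ¬ p ∣ dist a a' then c T else 0)) := by
    rw [← main_eq hS, mul_left_comm]
    congr 1
    rw [mul_sum]
    refine sum_congr rfl fun T _ => ?_
    ring
  rw [h1, h2, ← mul_sub, ← sum_sub_distrib, abs_mul, abs_of_nonneg (c_nonneg hS)]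
  refine mul_le_mul_of_nonneg_left ?_ (c_nonneg hS)
  refine (abs_sum_le_sum_abs _ _).trans (sum_le_sum fun T hT => ?_)
  have hTp : ∀ p ∈ T, p.Prime := fun p hp => hS p (mem_powerset.1 hT hp)
  rw [← mul_sub, abs_mul, abs_w]
  refine mul_le_mul_of_nonneg_left ?_ (by positivity)
  exact lam_sum hTp a a' y D X hX1 hX (hM0 _) (fun b hb z hz => hM _ (P_pos hTp) b hb z hz)

end Pool.Agent.K7.H69.GD
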