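import Pool.Agent.K7.H69.GD.A

/-! Sums of `1 / φ(q)` over the squarefree `q`. -/

set_option autoImplicit false

namespace Pool.Agent.K7.H69.GD

open Finset

lemma fac_sum {S : Finset ℕ} (hS : ∀ p ∈ S, p.Prime) (N : Finset ℕ)
    (hN : ∀ m ∈ N, m ≠ 0 ∧ m.primeFactors ⊆ S) :
    ∑ m ∈ N, (1 : ℝ) / m ≤ ∏ p ∈ S, (1 - (1 : ℝ) / p)⁻¹ := by
  classical
  let f : ℕ →* ℝ :=
    { toFun := fun n => (n : ℝ)⁻¹
      map_one' := by simp
      map_mul' := by
        intro a b
        push_cast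
        rw [mul_inv] }
  have hf : ∀ n, f n = (n : ℝ)⁻¹ := fun _ => rfl
  obtain ⟨-, h2⟩ := EulerProduct.summable_and_hasSum_factoredNumbers_prod_filter_prime_geometric (f := f)
    (fun {p} hp => by
      rw [hf, norm_inv, Real.norm_natCast]
      exact inv_lt_one_of_one_lt₀ (by exact_mod_cast hp.one_lt)) S
  have h3 := sum_le_hasSum (N.subtype (· ∈ Nat.factoredNumbers S))
    (fun m _ => by rw [hf]; positivity) h2
  have h4 : ∑ m ∈ N.subtype (· ∈ Nat.factoredNumbers S), f m = ∑ m ∈ N, f m := by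
    refine Finset.sum_subtype_of_mem (f := fun m => f m) ?_
    intro m hm
    rw [Nat.mem_factoredNumbers_iff_primeFactors_subset]
    exact hN m hm
  rw [h4] at h3
  have h5 : S.filter Nat.Prime = S := filter_true_of_mem hS
  rw [h5] at h3
  refine le_trans (le_of_eq ?_) (h3.trans (le_of_eq ?_))
  · refine sum_congr rfl fun m _ => ?_
    rw [hf, one_div]
  · refine prod_congr rfl fun p _ => ?_
    rw [hf, one_div]

/-- the squarefree integers up to `Q` -/
def Sq (Q : ℕ) : Finset ℕ := (Icc 1 Q).filter Squarefree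

lemma mem_Sq {Q q : ℕ} : q ∈ Sq Q ↔ (1 ≤ q ∧ q ≤ Q) ∧ Squarefree q := by
  unfold Sq
  rw [mem_filter, mem_Icc]

lemma P_pf {q : ℕ} (h : Squarefree q) : P q.primeFactors = q := Nat.prod_primeFactors_of_squarefree h

lemma pf_P {S : Finset ℕ} (hS : ∀ p ∈ S, p.Prime) : (P S).primeFactors = S := Nat.primeFactors_prod hS

lemma pf_prime (q : ℕ) : ∀ p ∈ q.primeFactors, p.Prime := fun _ hp => Nat.prime_of_mem_primeFactors hp

theorem vlow (Q : ℕ) : Real.log Q ≤ ∑ q ∈ Sq Q, c q.primeFactors := by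
  classical
  have h1 : Real.log Q ≤ ∑ n ∈ Icc 1 Q, (1 : ℝ) / n := by
    rcases Nat.eq_zero_or_pos Q with rfl | hQ
    · simp
    · have h2 := log_add_one_le_harmonic Q
      have h3 : ((harmonic Q : ℚ) : ℝ) = ∑ n ∈ Icc 1 Q, (1 : ℝ) / n := by
        rw [harmonic_eq_sum_Icc]
        push_cast
        refine sum_congr rfl fun n _ => ?_
        rw [one_div]
      rw [h3] at h2
      refine le_trans (Real.log_le_log (by exact_mod_cast hQ) ?_) h2
      push_cast
      linarith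
  refine h1.trans ?_
  have hmap : ∀ n ∈ Icc 1 Q, P n.primeFactors ∈ Sq Q := by
    intro n hn
    rw [mem_Icc] at hn
    rw [mem_Sq]
    refine ⟨⟨P_pos (pf_prime n), ?_⟩, ?_⟩
    · exact (Nat.le_of_dvd (by omega) (Nat.prod_primeFactors_dvd n)).trans hn.2
    · unfold P
      refine Finset.squarefree_prod_of_pairwise_isCoprime ?_ ?_
      · intro p hp q hq hpq
        have := (Nat.coprime_primes (pf_prime n p (mem_coe.1 hp)) (pf_prime n q (mem_coe.1 hq))).2 hpq
        exact Nat.coprime_iff_isRelPrime.1 this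
      · intro p hp
        exact (pf_prime n p hp).prime.squarefree
  rw [← sum_fiberwise_of_maps_to hmap]
  refine sum_le_sum fun q hq => ?_
  rw [mem_Sq] at hq
  obtain ⟨⟨hq1, hqQ⟩, hsq⟩ := hq
  have hq0 : (0 : ℝ) < q := by exact_mod_cast hq1
  set N := (Icc 1 Q).filter (fun n => P n.primeFactors = q) with hN
  have hmem : ∀ n ∈ N, 1 ≤ n ∧ n.primeFactors = q.primeFactors ∧ q ∣ n := by
    intro n hn
    rw [hN, mem_filter, mem_Icc] at hn
    refine ⟨hn.1.1, ?_, ?_⟩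
    · rw [← hn.2, pf_P (pf_prime n)]
    · rw [← hn.2]
      exact Nat.prod_primeFactors_dvd n
  have h2 : ∑ n ∈ N, (1 : ℝ) / n = 1 / q * ∑ m ∈ N.image (fun n => n / q), (1 : ℝ) / m := by
    rw [sum_image, mul_sum]
    · refine sum_congr rfl fun n hn => ?_
      obtain ⟨-, -, h3⟩ := hmem n hn
      obtain ⟨k, rfl⟩ := h3
      rw [Nat.mul_div_cancel_left _ hq1]
      push_cast
      rw [div_mul_div_comm, one_mul]
    · intro n hn m hm h
      simp only at h
      obtain ⟨-, -, h3⟩ := hmem n hn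
      obtain ⟨-, -, h4⟩ := hmem m hm
      rw [← Nat.div_mul_cancel h3, ← Nat.div_mul_cancel h4, h]
  rw [h2]
  have h3 := fac_sum (pf_prime q) (N.image (fun n => n / q)) (by
    intro m hm
    rw [mem_image] at hm
    obtain ⟨n, hn, rfl⟩ := hm
    obtain ⟨h4, h5, h6⟩ := hmem n hn
    have h7 : n / q ≠ 0 := by
      have := Nat.div_pos (Nat.le_of_dvd (by omega) h6) hq1
      omega
    refine ⟨h7, ?_⟩
    rw [← h5]
    exact Nat.primeFactors_mono (Nat.div_dvd_of_dvd h6) (by omega))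
  refine (mul_le_mul_of_nonneg_left h3 (by positivity)).trans (le_of_eq ?_)
  have h4 : (q : ℝ) = ∏ p ∈ q.primeFactors, (p : ℝ) := by
    conv_lhs => rw [← P_pf hsq]
    unfold P
    rw [Nat.cast_prod]
  have h5 : (1 : ℝ) / q = ∏ p ∈ q.primeFactors, (1 / (p : ℝ)) := by
    rw [prod_div_distrib, prod_const_one, ← h4]
  rw [h5, ← prod_mul_distrib]
  unfold c
  refine prod_congr rfl fun p hp => ?_
  have h6 : (2 : ℝ) ≤ p := by exact_mod_cast (pf_prime q p hp).two_le
  have h7 : (p : ℝ) ≠ 0 := by linarith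
  have h8 : (p : ℝ) - 1 ≠ 0 := by
    intro h
    linarith
  have h9 : (1 - 1 / (p : ℝ)) = ((p : ℝ) - 1) / p := by
    field_simp
  rw [h9, inv_div]
  field_simp

theorem prod_lower (S : Finset ℕ) (hS : ∀ p ∈ S, 2 ≤ p) :
    1 / ((S.card : ℝ) + 1) ≤ ∏ p ∈ S, (1 - (p : ℝ)⁻¹) := by
  induction S using Finset.induction_on_max with
  | empty => simp
  | insert a S ha ih =>
    have hnot : a ∉ S := fun h => lt_irrefl _ (ha a h)
    have hcard : S.card + 2 ≤ a := by
      have hsub : S ⊆ Ico 2 a := by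
        intro p hp
        rw [mem_Ico]
        exact ⟨hS p (mem_insert_of_mem hp), ha p hp⟩
      have := card_le_card hsub
      rw [Nat.card_Ico] at this
      have := hS a (mem_insert_self a S)
      omega
    rw [prod_insert hnot, card_insert_of_notMem hnot]
    have h1 := ih (fun p hp => hS p (mem_insert_of_mem hp))
    have hc : ((S.card : ℝ) + 2) ≤ a := by exact_mod_cast hcard
    have hc0 : (0 : ℝ) ≤ S.card := by positivity
    have ha0 : (0 : ℝ) < a := by linarith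
    have h2 : 1 - 1 / ((S.card : ℝ) + 2) ≤ 1 - (a : ℝ)⁻¹ := by
      have : (a : ℝ)⁻¹ ≤ 1 / ((S.card : ℝ) + 2) := by
        rw [one_div]; gcongr
      linarith
    have h3 : 0 ≤ 1 - 1 / ((S.card : ℝ) + 2) := by
      rw [sub_nonneg, div_le_one (by linarith)]; linarith
    calc 1 / (((S.card + 1 : ℕ) : ℝ) + 1) = (1 - 1 / ((S.card : ℝ) + 2)) * (1 / ((S.card : ℝ) + 1)) := by
          push_cast
          field_simp
          ring
      _ ≤ (1 - (a : ℝ)⁻¹) * ∏ p ∈ S, (1 - (p : ℝ)⁻¹) :=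
          mul_le_mul h2 h1 (by positivity) (h3.trans h2)

lemma c_mul_P_eq {S : Finset ℕ} (hS : ∀ p ∈ S, p.Prime) : c S * P S = (∏ p ∈ S, (1 - (p : ℝ)⁻¹))⁻¹ := by
  unfold c P
  rw [Nat.cast_prod, ← prod_mul_distrib, ← prod_inv_distrib]
  refine prod_congr rfl fun p hp => ?_
  have h6 : (2 : ℝ) ≤ p := by exact_mod_cast (hS p hp).two_le
  have h7 : (p : ℝ) ≠ 0 := by linarith
  have h8 : (p : ℝ) - 1 ≠ 0 := by
    intro h
    linarith
  have h9 : (1 - (p : ℝ)⁻¹) = ((p : ℝ) - 1) / p := by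
    field_simp
  rw [h9, inv_div]
  field_simp

/-- `q / φ(q)` is at most `2 (1 + log X)` for `q ≤ X` -/
lemma c_mul_P_le {S : Finset ℕ} (hS : ∀ p ∈ S, p.Prime) {X : ℕ} (h : P S ≤ X) :
    c S * P S ≤ 2 * (1 + Real.log X) := by
  have h2 := prod_lower S (fun p hp => (hS p hp).two_le)
  have hP := P_pos hS
  have h3 : 2 ^ S.card ≤ X := by
    calc 2 ^ S.card ≤ ∏ p ∈ S, p := pow_card_le_prod _ _ _ (fun p hp => (hS p hp).two_le)
      _ ≤ X := h
  have h4 : (S.card : ℝ) * Real.log 2 ≤ Real.log X := by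
    have h5 : ((2 : ℝ) ^ S.card) ≤ X := by exact_mod_cast h3
    have h6 := Real.log_le_log (by positivity) h5
    rwa [Real.log_pow] at h6
  have h7 := Real.log_two_gt_d9
  have hlog : 0 ≤ Real.log X := Real.log_natCast_nonneg X
  have hcard0 : (0 : ℝ) ≤ S.card := by positivity
  have h8 : (S.card : ℝ) + 1 ≤ 2 * (1 + Real.log X) := by nlinarith
  refine le_trans ?_ h8
  rw [c_mul_P_eq hS]
  have h9 : (0 : ℝ) < 1 / ((S.card : ℝ) + 1) := by positivity
  have h10 := inv_anti₀ h9 h2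
  rwa [one_div, inv_inv] at h10

/-- sums over the sets of primes of a squarefree number -/
lemma sum_powerset_le {q : ℕ} (hq : 1 ≤ q) (f : ℕ → ℝ) (hf : ∀ n, 0 ≤ f n) :
    ∑ T ∈ q.primeFactors.powerset, f (P T) ≤ ∑ e ∈ q.divisors, f e := by
  classical
  have hinj : Set.InjOn P (q.primeFactors.powerset : Set (Finset ℕ)) := by
    intro T hT T' hT' h
    have h1 : ∀ p ∈ T, p.Prime := fun p hp => pf_prime q p (mem_powerset.1 (mem_coe.1 hT) hp)
    have h2 : ∀ p ∈ T', p.Prime := fun p hp => pf_prime q p (mem_powerset.1 (mem_coe.1 hT') hp)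
    rw [← pf_P h1, ← pf_P h2, h]
  rw [← sum_image (f := f) hinj]
  refine sum_le_sum_of_subset_of_nonneg ?_ (fun i _ _ => hf i)
  intro e he
  rw [mem_image] at he
  obtain ⟨T, hT, rfl⟩ := he
  rw [Nat.mem_divisors]
  refine ⟨?_, by omega⟩
  exact (prod_dvd_prod_of_subset _ _ _ (mem_powerset.1 hT)).trans (Nat.prod_primeFactors_dvd q)

lemma harm_le (K : ℕ) : ∑ k ∈ Icc 1 K, (1 : ℝ) / k ≤ 1 + Real.log K := by
  have h2 := harmonic_le_one_add_log K
  have h3 : ((harmonic K : ℚ) : ℝ) = ∑ n ∈ Icc 1 K, (1 : ℝ) / n := by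
    rw [harmonic_eq_sum_Icc]
    push_cast
    refine sum_congr rfl fun n _ => ?_
    rw [one_div]
  rwa [h3] at h2

/-- a double sum over the divisors -/
lemma div_sum (Q X : ℕ) (hQ : Q ≤ X) (f : ℕ → ℝ) (hf : ∀ n, 0 ≤ f n) :
    ∑ q ∈ Icc 1 Q, 1 / (q : ℝ) * ∑ e ∈ q.divisors, (e : ℝ) * f e ≤ (1 + Real.log X) * ∑ e ∈ Icc 1 Q, f e := by
  have h1 : ∀ q ∈ Icc 1 Q, 1 / (q : ℝ) * ∑ e ∈ q.divisors, (e : ℝ) * f e =
      ∑ e ∈ Icc 1 Q, if e ∣ q then (e : ℝ) / q * f e else 0 := by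
    intro q hq
    rw [mem_Icc] at hq
    rw [← sum_filter, mul_sum]
    have e1 : q.divisors = (Icc 1 Q).filter (fun e => e ∣ q) := by
      ext e
      rw [Nat.mem_divisors, mem_filter, mem_Icc]
      constructor
      · rintro ⟨h2, h3⟩
        exact ⟨⟨Nat.pos_of_dvd_of_pos h2 (by omega), (Nat.le_of_dvd (by omega) h2).trans hq.2⟩, h2⟩
      · rintro ⟨-, h2⟩
        exact ⟨h2, by omega⟩
    rw [e1]
    refine sum_congr rfl fun e _ => ?_
    ring
  rw [sum_congr rfl h1, sum_comm, mul_sum]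
  refine sum_le_sum fun e he => ?_
  rw [mem_Icc] at he
  have he0 : (0 : ℝ) < e := by exact_mod_cast he.1
  have h2 : ∑ q ∈ Icc 1 Q, (if e ∣ q then (e : ℝ) / q * f e else 0) = (∑ k ∈ Icc 1 (Q / e), (1 : ℝ) / k) * f e := by
    rw [← sum_filter, sum_mul]
    symm
    refine sum_bij (fun k _ => e * k) ?_ ?_ ?_ ?_
    · intro k hk
      rw [mem_Icc] at hk
      rw [mem_filter, mem_Icc]
      refine ⟨⟨Nat.mul_pos he.1 hk.1, ?_⟩, dvd_mul_right _ _⟩
      rw [mul_comm]
      exact (Nat.le_div_iff_mul_le he.1).1 hk.2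
    · intro k _ l _ h
      exact Nat.eq_of_mul_eq_mul_left he.1 h
    · intro q hq
      rw [mem_filter, mem_Icc] at hq
      obtain ⟨⟨h3, h4⟩, k, rfl⟩ := hq
      refine ⟨k, ?_, rfl⟩
      rw [mem_Icc]
      refine ⟨Nat.pos_of_mul_pos_left h3, ?_⟩
      rw [Nat.le_div_iff_mul_le he.1, mul_comm]
      exact h4
    · intro k hk
      rw [mem_Icc] at hk
      have hk0 : (0 : ℝ) < k := by exact_mod_cast hk.1
      push_cast
      field_simp
  rw [h2]
  refine mul_le_mul_of_nonneg_right ?_ (hf e)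
  refine (harm_le _).trans ?_
  rcases Nat.eq_zero_or_pos (Q / e) with h3 | h3
  · rw [h3, Nat.cast_zero, Real.log_zero]
    have := Real.log_natCast_nonneg X
    linarith
  · have h4 : ((Q / e : ℕ) : ℝ) ≤ X := by exact_mod_cast (Nat.div_le_self Q e).trans hQ
    have := Real.log_le_log (by exact_mod_cast h3) h4
    linarith

end Pool.Agent.K7.H69.GD
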