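import Pool.Agent.K7.H69.GD.B
import Pool.Agent.K7.H69.GD.V

/-! The second moment over a block: lower bound for the correlations of the von Mangoldt function. -/

set_option autoImplicit false

namespace Pool.Agent.K7.H69.GD

open Finset ArithmeticFunction

/-- the model of the primes -/
noncomputable def g (Q m : ℕ) : ℝ := ∑ q ∈ Sq Q, Hs q.primeFactors m

/-- the truncated singular series -/
noncomputable def SQ (Q d : ℕ) : ℝ := ∑ q ∈ Sq Q, U q.primeFactors d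

/-- the error term of the correlation with the primes -/
noncomputable def E1 (Q X : ℕ) (M : ℕ → ℝ) : ℝ :=
  ∑ q ∈ Sq Q, c q.primeFactors * ∑ T ∈ q.primeFactors.powerset, (P T : ℝ) * (2 * M (P T) + Real.log X)

/-- the error term of the correlation of the model with itself -/
noncomputable def E2 (Q : ℕ) : ℝ := (∑ q ∈ Sq Q, c q.primeFactors * ∏ p ∈ q.primeFactors, (1 + (p : ℝ))) ^ 2

lemma corr1 (Q a a' y D X : ℕ) (hX1 : 1 ≤ X) (hX : y + D + a ≤ X) {M : ℕ → ℝ} (hM0 : ∀ q, 0 ≤ M q)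
    (hM : ∀ q, 1 ≤ q → ∀ b : ℕ, b.Coprime q → ∀ z : ℕ, z ≤ X → |ps z q b - z / (Nat.totient q : ℝ)| ≤ M q) :
    |∑ n ∈ Ioc y (y + D), (vonMangoldt (n + a) : ℝ) * g Q (n + a') - D * SQ Q (dist a a')| ≤ E1 Q X M := by
  have h1 : ∑ n ∈ Ioc y (y + D), (vonMangoldt (n + a) : ℝ) * g Q (n + a') =
      ∑ q ∈ Sq Q, ∑ n ∈ Ioc y (y + D), (vonMangoldt (n + a) : ℝ) * Hs q.primeFactors (n + a') := by
    rw [sum_comm]
    refine sum_congr rfl fun n _ => ?_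
    unfold g
    rw [mul_sum]
  have h2 : (D : ℝ) * SQ Q (dist a a') = ∑ q ∈ Sq Q, D * U q.primeFactors (dist a a') := by
    unfold SQ
    rw [mul_sum]
  rw [h1, h2, ← sum_sub_distrib]
  refine (abs_sum_le_sum_abs _ _).trans (sum_le_sum fun q _ => ?_)
  exact corrL (pf_prime q) a a' y D X hX1 hX hM0 hM

lemma corr2 (Q a a' y D : ℕ) :
    |∑ n ∈ Ioc y (y + D), g Q (n + a) * g Q (n + a') - D * SQ Q (dist a a')| ≤ E2 Q := by
  classical
  have h1 : ∑ n ∈ Ioc y (y + D), g Q (n + a) * g Q (n + a') =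
      ∑ q ∈ Sq Q, ∑ q' ∈ Sq Q, ∑ n ∈ Ioc y (y + D), Hs q.primeFactors (n + a) * Hs q'.primeFactors (n + a') := by
    have e1 : ∀ n ∈ Ioc y (y + D), g Q (n + a) * g Q (n + a') =
        ∑ q ∈ Sq Q, ∑ q' ∈ Sq Q, Hs q.primeFactors (n + a) * Hs q'.primeFactors (n + a') := by
      intro n _
      unfold g
      rw [sum_mul_sum]
    rw [sum_congr rfl e1, sum_comm]
    refine sum_congr rfl fun q _ => ?_
    rw [sum_comm]
  have h2 : (D : ℝ) * SQ Q (dist a a') = ∑ q ∈ Sq Q, ∑ q' ∈ Sq Q,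
      D * (if q.primeFactors = q'.primeFactors then U q.primeFactors (dist a a') else 0) := by
    unfold SQ
    rw [mul_sum]
    refine sum_congr rfl fun q hq => ?_
    rw [sum_eq_single q]
    · rw [if_pos rfl]
    · intro q' hq' hne
      rw [if_neg, mul_zero]
      intro h
      apply hne
      rw [← P_pf (mem_Sq.1 hq).2, ← P_pf (mem_Sq.1 hq').2, h]
    · intro h
      exact absurd hq h
  rw [h1, h2, ← sum_sub_distrib]
  unfold E2
  rw [sq, sum_mul_sum]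
  refine (abs_sum_le_sum_abs _ _).trans (sum_le_sum fun q _ => ?_)
  rw [← sum_sub_distrib]
  refine (abs_sum_le_sum_abs _ _).trans (sum_le_sum fun q' _ => ?_)
  exact corr (pf_prime q) (pf_prime q') a a' y D

lemma E1_nonneg (Q X : ℕ) {M : ℕ → ℝ} (hM0 : ∀ q, 0 ≤ M q) : 0 ≤ E1 Q X M := by
  unfold E1
  refine sum_nonneg fun q _ => mul_nonneg (c_nonneg (pf_prime q)) (sum_nonneg fun T _ => ?_)
  have := Real.log_natCast_nonneg X
  have := hM0 (P T)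
  positivity

lemma E2_nonneg (Q : ℕ) : 0 ≤ E2 Q := sq_nonneg _

lemma E1_le (Q X : ℕ) (hQ : Q ≤ X) {M : ℕ → ℝ} (hM0 : ∀ q, 0 ≤ M q) :
    E1 Q X M ≤ 2 * (1 + Real.log X) ^ 2 * (2 * ∑ q ∈ Icc 1 Q, M q + Q * Real.log X) := by
  have hlog : 0 ≤ Real.log X := Real.log_natCast_nonneg X
  have h1 : E1 Q X M ≤ ∑ q ∈ Icc 1 Q, 2 * (1 + Real.log X) * (1 / (q : ℝ) *
      ∑ e ∈ q.divisors, (e : ℝ) * (2 * M e + Real.log X)) := by
    unfold E1
    have h2 : ∑ q ∈ Sq Q, c q.primeFactors * ∑ T ∈ q.primeFactors.powerset, (P T : ℝ) * (2 * M (P T) + Real.log X) ≤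
        ∑ q ∈ Sq Q, 2 * (1 + Real.log X) * (1 / (q : ℝ) * ∑ e ∈ q.divisors, (e : ℝ) * (2 * M e + Real.log X)) := by
      refine sum_le_sum fun q hq => ?_
      rw [mem_Sq] at hq
      have hq0 : (0 : ℝ) < q := by exact_mod_cast hq.1.1
      have h3 := c_mul_P_le (pf_prime q) (X := X) (by rw [P_pf hq.2]; exact hq.1.2.trans hQ)
      rw [P_pf hq.2] at h3
      have h4 : c q.primeFactors ≤ 2 * (1 + Real.log X) * (1 / (q : ℝ)) := by
        rw [mul_one_div, le_div_iff₀ hq0]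
        exact h3
      have h5 := sum_powerset_le hq.1.1 (fun e : ℕ => (e : ℝ) * (2 * M e + Real.log X))
        (fun e => by have := hM0 e; positivity)
      have h6 : 0 ≤ ∑ T ∈ q.primeFactors.powerset, (P T : ℝ) * (2 * M (P T) + Real.log X) :=
        sum_nonneg fun T _ => by have := hM0 (P T); positivity
      calc _ ≤ 2 * (1 + Real.log X) * (1 / (q : ℝ)) *
            ∑ e ∈ q.divisors, (e : ℝ) * (2 * M e + Real.log X) :=
            mul_le_mul h4 h5 h6 (by positivity)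
        _ = _ := by ring
    refine h2.trans (sum_le_sum_of_subset_of_nonneg (filter_subset _ _) fun q _ _ => ?_)
    refine mul_nonneg (by positivity) (mul_nonneg (by positivity) (sum_nonneg fun e _ => ?_))
    have := hM0 e
    positivity
  rw [← mul_sum] at h1
  have h2 := div_sum Q X hQ (fun e => 2 * M e + Real.log X) (fun e => by have := hM0 e; positivity)
  have h3 : ∑ e ∈ Icc 1 Q, (2 * M e + Real.log X) = 2 * ∑ q ∈ Icc 1 Q, M q + Q * Real.log X := by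
    rw [sum_add_distrib, ← mul_sum, sum_const, Nat.card_Icc, nsmul_eq_mul]
    norm_num
  rw [h3] at h2
  calc _ ≤ _ := h1
    _ ≤ 2 * (1 + Real.log X) * ((1 + Real.log X) * (2 * ∑ q ∈ Icc 1 Q, M q + Q * Real.log X)) :=
        mul_le_mul_of_nonneg_left h2 (by positivity)
    _ = _ := by ring

lemma E2_le (Q X : ℕ) (hQ : Q ≤ X) : E2 Q ≤ 16 * (1 + Real.log X) ^ 4 * (Q : ℝ) ^ 2 := by
  have hlog : 0 ≤ Real.log X := Real.log_natCast_nonneg X
  have h1 : ∑ q ∈ Sq Q, c q.primeFactors * ∏ p ∈ q.primeFactors, (1 + (p : ℝ)) ≤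
      ∑ _q ∈ Icc 1 Q, 4 * (1 + Real.log X) ^ 2 := by
    have h2 : ∑ q ∈ Sq Q, c q.primeFactors * ∏ p ∈ q.primeFactors, (1 + (p : ℝ)) ≤
        ∑ _q ∈ Sq Q, 4 * (1 + Real.log X) ^ 2 := by
      refine sum_le_sum fun q hq => ?_
      rw [mem_Sq] at hq
      have h3 := c_mul_P_le (pf_prime q) (X := X) (by rw [P_pf hq.2]; exact hq.1.2.trans hQ)
      have h4 : c q.primeFactors * ∏ p ∈ q.primeFactors, (1 + (p : ℝ)) ≤
          (c q.primeFactors * P q.primeFactors) ^ 2 := by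
        unfold c P
        rw [Nat.cast_prod, ← prod_mul_distrib, ← prod_mul_distrib, ← prod_pow]
        refine prod_le_prod (fun p hp => ?_) (fun p hp => ?_)
        · have h6 : (2 : ℝ) ≤ p := by exact_mod_cast (pf_prime q p hp).two_le
          have : (0 : ℝ) < (p : ℝ) - 1 := by linarith
          positivity
        · have h6 : (2 : ℝ) ≤ p := by exact_mod_cast (pf_prime q p hp).two_le
          have h7 : (0 : ℝ) < (p : ℝ) - 1 := by linarith
          rw [one_div, inv_mul_eq_div, inv_mul_eq_div, div_pow, div_le_div_iff₀ h7 (by positivity)]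
          nlinarith
      refine h4.trans ?_
      have h5 : 0 ≤ c q.primeFactors * P q.primeFactors :=
        mul_nonneg (c_nonneg (pf_prime q)) (Nat.cast_nonneg _)
      calc _ ≤ (2 * (1 + Real.log X)) ^ 2 := pow_le_pow_left₀ h5 h3 2
        _ = _ := by ring
    exact h2.trans (sum_le_sum_of_subset_of_nonneg (filter_subset _ _) fun q _ _ => by positivity)
  rw [sum_const, Nat.card_Icc, nsmul_eq_mul] at h1
  have h0 : 0 ≤ ∑ q ∈ Sq Q, c q.primeFactors * ∏ p ∈ q.primeFactors, (1 + (p : ℝ)) :=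
    sum_nonneg fun q _ => mul_nonneg (c_nonneg (pf_prime q)) (prod_nonneg fun p _ => by positivity)
  unfold E2
  calc _ ≤ (((Q + 1 - 1 : ℕ) : ℝ) * (4 * (1 + Real.log X) ^ 2)) ^ 2 := pow_le_pow_left₀ h0 h1 2
    _ = _ := by
      rw [Nat.add_sub_cancel]
      ring

/-- the second moment over a block -/
theorem block (Q y D X : ℕ) (A : Finset ℕ) (hX1 : 1 ≤ X) (hX : ∀ a ∈ A, y + D + a ≤ X) {M : ℕ → ℝ} (hM0 : ∀ q, 0 ≤ M q)
    (hM : ∀ q, 1 ≤ q → ∀ b : ℕ, b.Coprime q → ∀ z : ℕ, z ≤ X → |ps z q b - z / (Nat.totient q : ℝ)| ≤ M q) :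
    D * ∑ a ∈ A, ∑ a' ∈ A, SQ Q (dist a a') - (A.card : ℝ) ^ 2 * (2 * E1 Q X M + E2 Q) ≤
      ∑ a ∈ A, ∑ a' ∈ A, ∑ n ∈ Ioc y (y + D), (vonMangoldt (n + a) : ℝ) * vonMangoldt (n + a') := by
  have h0 : 0 ≤ ∑ n ∈ Ioc y (y + D), (∑ a ∈ A, (vonMangoldt (n + a) : ℝ) - ∑ a ∈ A, g Q (n + a)) ^ 2 :=
    sum_nonneg fun n _ => sq_nonneg _
  have h1 : ∑ n ∈ Ioc y (y + D), (∑ a ∈ A, (vonMangoldt (n + a) : ℝ) - ∑ a ∈ A, g Q (n + a)) ^ 2 =
      ∑ a ∈ A, ∑ a' ∈ A, (∑ n ∈ Ioc y (y + D), (vonMangoldt (n + a) : ℝ) * vonMangoldt (n + a') -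
        2 * ∑ n ∈ Ioc y (y + D), (vonMangoldt (n + a) : ℝ) * g Q (n + a') +
        ∑ n ∈ Ioc y (y + D), g Q (n + a) * g Q (n + a')) := by
    have e1 : ∀ n ∈ Ioc y (y + D), (∑ a ∈ A, (vonMangoldt (n + a) : ℝ) - ∑ a ∈ A, g Q (n + a)) ^ 2 =
        ∑ a ∈ A, ∑ a' ∈ A, ((vonMangoldt (n + a) : ℝ) * vonMangoldt (n + a') -
          2 * ((vonMangoldt (n + a) : ℝ) * g Q (n + a')) + g Q (n + a) * g Q (n + a')) := by
      intro n _
      have e2 : (∑ a ∈ A, (vonMangoldt (n + a) : ℝ) - ∑ a ∈ A, g Q (n + a)) ^ 2 =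
          (∑ a ∈ A, (vonMangoldt (n + a) : ℝ)) * (∑ a ∈ A, (vonMangoldt (n + a) : ℝ)) -
          2 * ((∑ a ∈ A, (vonMangoldt (n + a) : ℝ)) * ∑ a ∈ A, g Q (n + a)) +
          (∑ a ∈ A, g Q (n + a)) * ∑ a ∈ A, g Q (n + a) := by ring
      rw [e2, sum_mul_sum, sum_mul_sum, sum_mul_sum, mul_sum, ← sum_sub_distrib, ← sum_add_distrib]
      refine sum_congr rfl fun a _ => ?_
      rw [mul_sum, ← sum_sub_distrib, ← sum_add_distrib]
    rw [sum_congr rfl e1, sum_comm]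
    refine sum_congr rfl fun a _ => ?_
    rw [sum_comm]
    refine sum_congr rfl fun a' _ => ?_
    rw [sum_add_distrib, sum_sub_distrib, ← mul_sum]
  rw [h1] at h0
  have h2 : ∑ a ∈ A, ∑ a' ∈ A, (∑ n ∈ Ioc y (y + D), (vonMangoldt (n + a) : ℝ) * vonMangoldt (n + a') -
        2 * ∑ n ∈ Ioc y (y + D), (vonMangoldt (n + a) : ℝ) * g Q (n + a') +
        ∑ n ∈ Ioc y (y + D), g Q (n + a) * g Q (n + a')) ≤
      ∑ a ∈ A, ∑ a' ∈ A, (∑ n ∈ Ioc y (y + D), (vonMangoldt (n + a) : ℝ) * vonMangoldt (n + a') -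
        D * SQ Q (dist a a') + (2 * E1 Q X M + E2 Q)) := by
    refine sum_le_sum fun a ha => sum_le_sum fun a' _ => ?_
    have h3 := abs_le.1 (corr1 Q a a' y D X hX1 (hX a ha) hM0 hM)
    have h4 := abs_le.1 (corr2 Q a a' y D)
    linarith [h3.1, h4.2]
  have h3 : ∑ a ∈ A, ∑ a' ∈ A, (∑ n ∈ Ioc y (y + D), (vonMangoldt (n + a) : ℝ) * vonMangoldt (n + a') -
        D * SQ Q (dist a a') + (2 * E1 Q X M + E2 Q)) =
      ∑ a ∈ A, ∑ a' ∈ A, ∑ n ∈ Ioc y (y + D), (vonMangoldt (n + a) : ℝ) * vonMangoldt (n + a') -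
      D * ∑ a ∈ A, ∑ a' ∈ A, SQ Q (dist a a') + (A.card : ℝ) ^ 2 * (2 * E1 Q X M + E2 Q) := by
    simp only [sum_add_distrib, sum_sub_distrib, sum_const, nsmul_eq_mul, mul_sum]
    ring
  linarith

/-- positivity of the truncated singular series -/
theorem SQ_pos_def (S : Finset ℕ) (hS : ∀ p ∈ S, p.Prime) (A : Finset ℕ) :
    0 ≤ ∑ a ∈ A, ∑ a' ∈ A, U S (dist a a') := by
  by_contra hc
  push Not at hc
  set s := ∑ a ∈ A, ∑ a' ∈ A, U S (dist a a') with hs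
  set K := (c S * ∏ p ∈ S, (1 + (p : ℝ))) * (c S * ∏ p ∈ S, (1 + (p : ℝ))) with hK
  obtain ⟨D, hD⟩ := exists_nat_gt ((A.card : ℝ) ^ 2 * K / (-s))
  have h0 : 0 ≤ ∑ n ∈ Ioc 0 (0 + D), (∑ a ∈ A, Hs S (n + a)) ^ 2 := sum_nonneg fun n _ => sq_nonneg _
  have h1 : ∑ n ∈ Ioc 0 (0 + D), (∑ a ∈ A, Hs S (n + a)) ^ 2 =
      ∑ a ∈ A, ∑ a' ∈ A, ∑ n ∈ Ioc 0 (0 + D), Hs S (n + a) * Hs S (n + a') := by
    have e1 : ∀ n ∈ Ioc 0 (0 + D), (∑ a ∈ A, Hs S (n + a)) ^ 2 =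
        ∑ a ∈ A, ∑ a' ∈ A, Hs S (n + a) * Hs S (n + a') := by
      intro n _
      rw [sq, sum_mul_sum]
    rw [sum_congr rfl e1, sum_comm]
    refine sum_congr rfl fun a _ => ?_
    rw [sum_comm]
  have h2 : ∑ a ∈ A, ∑ a' ∈ A, ∑ n ∈ Ioc 0 (0 + D), Hs S (n + a) * Hs S (n + a') ≤
      ∑ a ∈ A, ∑ a' ∈ A, (D * U S (dist a a') + K) := by
    refine sum_le_sum fun a _ => sum_le_sum fun a' _ => ?_
    have h3 := abs_le.1 (corr hS hS a a' 0 D)
    rw [if_pos rfl] at h3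
    linarith [h3.2]
  have h3 : ∑ a ∈ A, ∑ a' ∈ A, (D * U S (dist a a') + K) = D * s + (A.card : ℝ) ^ 2 * K := by
    rw [hs]
    simp only [sum_add_distrib, sum_const, nsmul_eq_mul, mul_sum]
    ring
  rw [h1] at h0
  have h4 : (A.card : ℝ) ^ 2 * K < D * (-s) := (div_lt_iff₀ (by linarith)).1 hD
  linarith

end Pool.Agent.K7.H69.GD
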