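import Pool.Agent.K7.H69.GD.C

/-! From the von Mangoldt function to prime pairs; summation over the blocks. -/

set_option autoImplicit false

namespace Pool.Agent.K7.H69.GD

open Finset ArithmeticFunction

/-- the number of primes `p ≤ X` with `p - d` prime -/
def pi2 (X d : ℕ) : ℕ := ((Icc 1 X).filter (fun p : ℕ => p.Prime ∧ (p - d).Prime)).card

/-- the prime pairs `n + a`, `n + a'` with `n` in a block -/
def Np (a a' y D : ℕ) : ℕ := ((Ioc y (y + D)).filter (fun n => (n + a).Prime ∧ (n + a').Prime)).card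

lemma not_prime_sum {X : ℕ} (hX : 1 ≤ X) :
    ∑ n ∈ (Icc 1 X).filter (fun n => ¬ n.Prime), (vonMangoldt n : ℝ) ≤ 2 * Real.sqrt X * Real.log X := by
  have h1 := Chebyshev.psi_sub_theta_eq_sum_not_prime (X : ℝ)
  have h2 := Chebyshev.abs_psi_sub_theta_le_sqrt_mul_log (x := (X : ℝ)) (by exact_mod_cast hX)
  rw [h1, Nat.floor_natCast] at h2
  have h3 := (le_abs_self _).trans h2
  refine le_trans (le_of_eq ?_) h3
  refine sum_congr ?_ fun _ _ => rfl
  ext n
  simp only [mem_filter, mem_Icc, mem_Ioc, Nat.succ_le_iff]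

lemma not_prime_shift {X y D a : ℕ} (hX1 : 1 ≤ X) (hX : y + D + a ≤ X) :
    ∑ n ∈ Ioc y (y + D), (if (n + a).Prime then 0 else (vonMangoldt (n + a) : ℝ)) ≤
      2 * Real.sqrt X * Real.log X := by
  refine le_trans ?_ (not_prime_sum hX1)
  have h1 : ∑ n ∈ Ioc y (y + D), (if (n + a).Prime then 0 else (vonMangoldt (n + a) : ℝ)) =
      ∑ m ∈ (Ioc (y + a) (y + D + a)).filter (fun m => ¬ m.Prime), (vonMangoldt m : ℝ) := by
    rw [sum_filter, ← Finset.map_add_right_Ioc, sum_map]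
    refine sum_congr rfl fun n _ => ?_
    simp only [addRightEmbedding_apply]
    by_cases h : (n + a).Prime
    · rw [if_pos h, if_neg (not_not.2 h)]
    · rw [if_neg h, if_pos h]
  rw [h1]
  refine sum_le_sum_of_subset_of_nonneg ?_ (fun i _ _ => lam_nonneg i)
  intro m hm
  rw [mem_filter, mem_Ioc] at hm
  rw [mem_filter, mem_Icc]
  exact ⟨⟨by omega, by omega⟩, hm.2⟩

lemma lam_le_log {m X : ℕ} (h1 : 1 ≤ m) (h : m ≤ X) : (vonMangoldt m : ℝ) ≤ Real.log X :=
  vonMangoldt_le_log.trans (Real.log_le_log (by exact_mod_cast h1) (by exact_mod_cast h))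

lemma pair_le {X y D L a a' : ℕ} (hX1 : 1 ≤ X) (ha : a ≤ L) (ha' : a' ≤ L) (hX : y + D + L ≤ X) :
    ∑ n ∈ Ioc y (y + D), (vonMangoldt (n + a) : ℝ) * vonMangoldt (n + a') ≤
      Real.log ((y + D + L : ℕ) : ℝ) ^ 2 * Np a a' y D + 4 * Real.sqrt X * Real.log X ^ 2 := by
  have hlog : 0 ≤ Real.log X := Real.log_natCast_nonneg X
  set l := Real.log ((y + D + L : ℕ) : ℝ) with hl
  have hl0 : 0 ≤ l := Real.log_natCast_nonneg _
  have h1 : ∀ n ∈ Ioc y (y + D), (vonMangoldt (n + a) : ℝ) * vonMangoldt (n + a') ≤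
      l ^ 2 * (if (n + a).Prime ∧ (n + a').Prime then 1 else 0) +
      Real.log X * ((if (n + a).Prime then 0 else (vonMangoldt (n + a) : ℝ)) +
        (if (n + a').Prime then 0 else (vonMangoldt (n + a') : ℝ))) := by
    intro n hn
    rw [mem_Ioc] at hn
    have b1 : (vonMangoldt (n + a) : ℝ) ≤ l := lam_le_log (by omega) (by omega)
    have b2 : (vonMangoldt (n + a') : ℝ) ≤ l := lam_le_log (by omega) (by omega)
    have c1 : (vonMangoldt (n + a) : ℝ) ≤ Real.log X := lam_le_log (by omega) (by omega)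
    have c2 : (vonMangoldt (n + a') : ℝ) ≤ Real.log X := lam_le_log (by omega) (by omega)
    have d1 := lam_nonneg (n + a)
    have d2 := lam_nonneg (n + a')
    by_cases p1 : (n + a).Prime
    · by_cases p2 : (n + a').Prime
      · rw [if_pos ⟨p1, p2⟩, if_pos p1, if_pos p2]
        have := mul_le_mul b1 b2 d2 hl0
        nlinarith
      · rw [if_neg (fun h => p2 h.2), if_pos p1, if_neg p2]
        have := mul_le_mul_of_nonneg_right c1 d2
        nlinarith
    · rw [if_neg (fun h => p1 h.1), if_neg p1]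
      have e1 := mul_le_mul_of_nonneg_left c2 d1
      have e2 : 0 ≤ Real.log X * (if (n + a').Prime then 0 else (vonMangoldt (n + a') : ℝ)) := by
        refine mul_nonneg hlog ?_
        split_ifs
        · exact le_rfl
        · exact d2
      nlinarith
  refine (sum_le_sum h1).trans ?_
  rw [sum_add_distrib, ← mul_sum, ← mul_sum, sum_add_distrib]
  have h2 := not_prime_shift (X := X) (y := y) (D := D) (a := a) hX1 (by omega)
  have h3 := not_prime_shift (X := X) (y := y) (D := D) (a := a') hX1 (by omega)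
  have h4 : ∑ n ∈ Ioc y (y + D), (if (n + a).Prime ∧ (n + a').Prime then (1 : ℝ) else 0) = Np a a' y D := by
    unfold Np
    rw [card_filter]
    push_cast
    rfl
  rw [h4]
  have h5 := mul_le_mul_of_nonneg_left (add_le_add h2 h3) hlog
  nlinarith

lemma diag_le {X y D a : ℕ} (hX : y + D + a ≤ X) {M : ℝ}
    (hM : ∀ z : ℕ, z ≤ X → |ps z 1 0 - z| ≤ M) :
    ∑ n ∈ Ioc y (y + D), (vonMangoldt (n + a) : ℝ) * vonMangoldt (n + a) ≤ Real.log X * (D + 2 * M) := by
  have hlog : 0 ≤ Real.log X := Real.log_natCast_nonneg X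
  have h1 : ∑ n ∈ Ioc y (y + D), (vonMangoldt (n + a) : ℝ) * vonMangoldt (n + a) ≤
      Real.log X * ∑ n ∈ Ioc y (y + D), (vonMangoldt (n + a) : ℝ) := by
    rw [mul_sum]
    refine sum_le_sum fun n hn => ?_
    rw [mem_Ioc] at hn
    exact mul_le_mul_of_nonneg_right (lam_le_log (by omega) (by omega)) (lam_nonneg _)
  refine h1.trans (mul_le_mul_of_nonneg_left ?_ hlog)
  have h2 : ∀ z : ℕ, ps z 1 0 = ∑ m ∈ Icc 1 z, (vonMangoldt m : ℝ) := by
    intro z
    unfold ps
    refine sum_congr ?_ fun _ _ => rfl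
    rw [filter_true_of_mem]
    intro m _
    exact Nat.modEq_one
  have h3 : ∑ n ∈ Ioc y (y + D), (vonMangoldt (n + a) : ℝ) = ps (y + D + a) 1 0 - ps (y + a) 1 0 := by
    rw [h2, h2]
    have e1 : ∑ n ∈ Ioc y (y + D), (vonMangoldt (n + a) : ℝ) =
        ∑ m ∈ Ioc (y + a) (y + D + a), (vonMangoldt m : ℝ) := by
      rw [← Finset.map_add_right_Ioc, sum_map]
      rfl
    have e2 : ∑ m ∈ Icc 1 (y + D + a), (vonMangoldt m : ℝ) = ∑ m ∈ Icc 1 (y + a), (vonMangoldt m : ℝ) +
        ∑ m ∈ Ioc (y + a) (y + D + a), (vonMangoldt m : ℝ) := by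
      rw [← sum_union]
      · congr 1
        ext m
        simp only [mem_union, mem_Icc, mem_Ioc]
        omega
      · rw [disjoint_left]
        intro m k1 k2
        rw [mem_Icc] at k1
        rw [mem_Ioc] at k2
        omega
    rw [e1, e2]
    ring
  rw [h3]
  have a1 := (abs_le.1 (hM (y + D + a) hX)).2
  have a2 := (abs_le.1 (hM (y + a) (by omega))).1
  push_cast at a1 a2
  linarith

/-- the inequality for one block -/
theorem one_block (Q y D X L : ℕ) (A : Finset ℕ) (hX1 : 1 ≤ X) (hA : ∀ a ∈ A, a ≤ L) (hX : y + D + L ≤ X)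
    {M : ℕ → ℝ} (hM0 : ∀ q, 0 ≤ M q)
    (hM : ∀ q, 1 ≤ q → ∀ b : ℕ, b.Coprime q → ∀ z : ℕ, z ≤ X → |ps z q b - z / (Nat.totient q : ℝ)| ≤ M q) :
    D * (∑ x ∈ A.offDiag, SQ Q (dist x.1 x.2) - A.card * (Real.log X - Real.log Q)) -
      (2 * A.card * Real.log X * M 1 + (A.card : ℝ) ^ 2 * (2 * E1 Q X M + E2 Q + 4 * Real.sqrt X * Real.log X ^ 2)) ≤
      Real.log ((y + D + L : ℕ) : ℝ) ^ 2 * ∑ x ∈ A.offDiag, (Np x.1 x.2 y D : ℝ) := by
  classical
  have hlog : 0 ≤ Real.log X := Real.log_natCast_nonneg X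
  have split : ∀ f : ℕ → ℕ → ℝ, ∑ a ∈ A, ∑ a' ∈ A, f a a' = ∑ a ∈ A, f a a + ∑ x ∈ A.offDiag, f x.1 x.2 := by
    intro f
    rw [← sum_product' A A f, ← diag_union_offDiag, sum_union (disjoint_diag_offDiag A), sum_diag]
  have h1 := block Q y D X A hX1 (fun a ha => by have := hA a ha; omega) hM0 hM
  rw [split, split] at h1
  have h2 : ∑ a ∈ A, ∑ n ∈ Ioc y (y + D), (vonMangoldt (n + a) : ℝ) * vonMangoldt (n + a) ≤
      A.card * (Real.log X * (D + 2 * M 1)) := by
    refine (sum_le_card_nsmul _ _ _ fun a ha => ?_).trans (le_of_eq (nsmul_eq_mul _ _))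
    refine diag_le (by have := hA a ha; omega) fun z hz => ?_
    have := hM 1 le_rfl 0 (Nat.coprime_one_right 0) z hz
    rwa [Nat.totient_one, Nat.cast_one, div_one] at this
  have h3 : ∑ x ∈ A.offDiag, ∑ n ∈ Ioc y (y + D), (vonMangoldt (n + x.1) : ℝ) * vonMangoldt (n + x.2) ≤
      Real.log ((y + D + L : ℕ) : ℝ) ^ 2 * ∑ x ∈ A.offDiag, (Np x.1 x.2 y D : ℝ) +
        (A.card : ℝ) ^ 2 * (4 * Real.sqrt X * Real.log X ^ 2) := by
    have e1 : ∑ x ∈ A.offDiag, ∑ n ∈ Ioc y (y + D), (vonMangoldt (n + x.1) : ℝ) * vonMangoldt (n + x.2) ≤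
        ∑ x ∈ A.offDiag, (Real.log ((y + D + L : ℕ) : ℝ) ^ 2 * Np x.1 x.2 y D + 4 * Real.sqrt X * Real.log X ^ 2) := by
      refine sum_le_sum fun x hx => ?_
      rw [mem_offDiag] at hx
      exact pair_le hX1 (hA _ hx.1) (hA _ hx.2.1) hX
    refine e1.trans ?_
    rw [sum_add_distrib, ← mul_sum, sum_const, nsmul_eq_mul]
    have e2 : ((A.offDiag.card : ℕ) : ℝ) ≤ (A.card : ℝ) ^ 2 := by
      rw [offDiag_card, ← sq]
      exact_mod_cast Nat.sub_le _ _
    have e3 : (0 : ℝ) ≤ 4 * Real.sqrt X * Real.log X ^ 2 := by positivity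
    have := mul_le_mul_of_nonneg_right e2 e3
    linarith
  have h4 : ∑ a ∈ A, SQ Q (dist a a) = A.card * SQ Q 0 := by
    rw [sum_congr rfl fun a _ => by rw [dist_self], sum_const, nsmul_eq_mul]
  have h5 : Real.log Q ≤ SQ Q 0 := by
    refine (vlow Q).trans (le_of_eq ?_)
    unfold SQ
    refine sum_congr rfl fun q _ => ?_
    unfold c U
    refine prod_congr rfl fun p _ => ?_
    rw [if_pos (dvd_zero p)]
  rw [h4] at h1
  have h6 : (D : ℝ) * (A.card * Real.log Q) ≤ D * (A.card * SQ Q 0) := by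
    refine mul_le_mul_of_nonneg_left (mul_le_mul_of_nonneg_left h5 (by positivity)) (by positivity)
  linarith

/-- all blocks -/
theorem all_blocks (Q D X L m : ℕ) (A : Finset ℕ) (hX1 : 1 ≤ X) (hD : 2 ≤ D) (hA : ∀ a ∈ A, a ≤ L)
    (hX : m * D + L ≤ X)
    {M : ℕ → ℝ} (hM0 : ∀ q, 0 ≤ M q)
    (hM : ∀ q, 1 ≤ q → ∀ b : ℕ, b.Coprime q → ∀ z : ℕ, z ≤ X → |ps z q b - z / (Nat.totient q : ℝ)| ≤ M q) :
    (D * (∑ x ∈ A.offDiag, SQ Q (dist x.1 x.2) - A.card * (Real.log X - Real.log Q)) -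
      (2 * A.card * Real.log X * M 1 + (A.card : ℝ) ^ 2 * (2 * E1 Q X M + E2 Q + 4 * Real.sqrt X * Real.log X ^ 2))) *
      (∑ i ∈ range m, 1 / Real.log (((i + 1) * D + L : ℕ) : ℝ) ^ 2) ≤
      ∑ x ∈ A.offDiag, (pi2 X (dist x.1 x.2) : ℝ) := by
  classical
  rw [mul_sum]
  have h1 : ∀ i ∈ range m, (D * (∑ x ∈ A.offDiag, SQ Q (dist x.1 x.2) - A.card * (Real.log X - Real.log Q)) -
      (2 * A.card * Real.log X * M 1 + (A.card : ℝ) ^ 2 * (2 * E1 Q X M + E2 Q + 4 * Real.sqrt X * Real.log X ^ 2))) *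
      (1 / Real.log (((i + 1) * D + L : ℕ) : ℝ) ^ 2) ≤ ∑ x ∈ A.offDiag, (Np x.1 x.2 (i * D) D : ℝ) := by
    intro i hi
    rw [mem_range] at hi
    have e : (i + 1) * D + L = i * D + D + L := by ring
    have hle : i * D + D + L ≤ X := by
      have : (i + 1) * D ≤ m * D := Nat.mul_le_mul_right D (by omega)
      rw [← e]
      omega
    have h2 := one_block Q (i * D) D X L A hX1 hA hle hM0 hM
    rw [e]
    have h3 : 0 < Real.log ((i * D + D + L : ℕ) : ℝ) :=
      Real.log_pos (by exact_mod_cast (by omega : 1 < i * D + D + L))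
    rw [mul_one_div, div_le_iff₀ (by positivity)]
    linarith
  refine (sum_le_sum h1).trans ?_
  rw [sum_comm]
  refine sum_le_sum fun x hx => ?_
  rw [mem_offDiag] at hx
  have key : ∀ a a' : ℕ, a ≤ L → a' ≤ L → a' ≤ a → ∑ i ∈ range m, (Np a a' (i * D) D : ℝ) ≤ pi2 X (dist a a') := by
    intro a a' ha ha' haa
    have h2 : ∑ i ∈ range m, Np a a' (i * D) D =
        ((Ioc 0 (m * D)).filter (fun n => (n + a).Prime ∧ (n + a').Prime)).card := by
      clear hX h1
      induction m with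
      | zero => simp
      | succ k ih =>
        rw [sum_range_succ, ih]
        unfold Np
        rw [← card_union_of_disjoint]
        · congr 1
          ext n
          simp only [mem_union, mem_filter, mem_Ioc]
          have : (k + 1) * D = k * D + D := by ring
          rw [this]
          constructor
          · rintro (⟨⟨h3, h4⟩, h5⟩ | ⟨⟨h3, h4⟩, h5⟩)
            · exact ⟨⟨h3, by omega⟩, h5⟩
            · exact ⟨⟨by omega, h4⟩, h5⟩
          · rintro ⟨⟨h3, h4⟩, h5⟩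
            rcases Nat.lt_or_ge (k * D) n with h6 | h6
            · exact Or.inr ⟨⟨h6, h4⟩, h5⟩
            · exact Or.inl ⟨⟨h3, h6⟩, h5⟩
        · rw [disjoint_left]
          intro n h3 h4
          rw [mem_filter, mem_Ioc] at h3 h4
          omega
    have h3 : ((Ioc 0 (m * D)).filter (fun n => (n + a).Prime ∧ (n + a').Prime)).card ≤ pi2 X (dist a a') := by
      unfold pi2
      refine card_le_card_of_injOn (fun n => n + a) ?_ ?_
      · intro n hn
        rw [mem_coe, mem_filter, mem_Ioc] at hn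
        simp only [coe_filter, Set.mem_setOf_eq, mem_Icc]
        have hd : dist a a' = a - a' := by
          unfold dist
          omega
        refine ⟨⟨by omega, by omega⟩, hn.2.1, ?_⟩
        have : n + a - dist a a' = n + a' := by
          rw [hd]
          omega
        rw [this]
        exact hn.2.2
      · intro n _ k _ h
        simp only at h
        omega
    rw [← h2] at h3
    exact_mod_cast h3
  rcases le_total x.2 x.1 with h | h
  · exact key x.1 x.2 (hA _ hx.1) (hA _ hx.2.1) h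
  · have h2 := key x.2 x.1 (hA _ hx.2.1) (hA _ hx.1) h
    rw [dist_comm x.1 x.2]
    refine le_trans (le_of_eq ?_) h2
    refine sum_congr rfl fun i _ => ?_
    unfold Np
    congr 2
    refine filter_congr fun n _ => ?_
    rw [and_comm]

end Pool.Agent.K7.H69.GD
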