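import Pool.Agent.K7.H69.GD.V
import Pool.Agent.K7.H69.GD.C
import Pool.Agent.H387R2.U2

/-! The singular series of a pair and its truncations; a sum over the blocks. -/

set_option autoImplicit false

namespace Pool.Agent.K7.H69.GD

open Finset Pool.Agent.H387R2 Filter Topology

/-- the local factor minus one -/
noncomputable def u (d p : ℕ) : ℝ := if p ∣ d then 1 / ((p : ℝ) - 1) else -1 / ((p : ℝ) - 1) ^ 2

lemma nuT_pair' {d p : ℕ} : Uni.nuT {0, d} p = if p ∣ d then 1 else 2 := by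
  unfold Uni.nuT
  rw [image_insert, image_singleton, Nat.zero_mod]
  split_ifs with h
  · rw [Nat.mod_eq_zero_of_dvd h]; simp
  · have : 0 ≠ d % p := fun h' => h (Nat.dvd_of_mod_eq_zero h'.symm)
    rw [Finset.card_pair this]

lemma loc_eq {d p : ℕ} (hd : 1 ≤ d) (hp : p.Prime) : Uni.locT {0, d} p = 1 + u d p := by
  unfold Uni.locT u
  have hcard : ({0, d} : Finset ℕ).card = 2 := Finset.card_pair (by omega)
  have h2 : (2 : ℝ) ≤ p := by exact_mod_cast hp.two_le
  have h3 : (p : ℝ) ≠ 0 := by linarith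
  have h4 : (p : ℝ) - 1 ≠ 0 := by
    intro h
    linarith
  have h5 : (1 - 1 / (p : ℝ)) = ((p : ℝ) - 1) / p := by field_simp
  rw [hcard, nuT_pair', h5]
  split_ifs
  · push_cast
    rw [h5]
    field_simp
    ring
  · push_cast
    field_simp
    ring

lemma prod_has {d : ℕ} (hd : 1 ≤ d) : HasProd (fun p : Nat.Primes => 1 + u d p) (Uni.CT {0, d}) :=
  (Uni.CT_hasProd {0, d}).congr_fun fun p => (loc_eq hd p.2).symm

lemma CT_odd {d : ℕ} (hd : ¬ Even d) : Uni.CT {0, d} = 0 := by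
  have hd1 : 1 ≤ d := by
    rcases Nat.eq_zero_or_pos d with rfl | h
    · exact absurd (by decide) hd
    · exact h
  have h1 : ∃ p : Nat.Primes, 1 + u d p = 0 := by
    refine ⟨⟨2, Nat.prime_two⟩, ?_⟩
    unfold u
    rw [if_neg (fun h => hd (even_iff_two_dvd.2 h))]
    norm_num
  exact (prod_has hd1).unique (hasProd_zero_of_exists_eq_zero h1)

/-- `∑ 4 p^(-3/2)` -/
noncomputable def kap : ℝ := ∑' n : ℕ, 4 * (1 / (n : ℝ) ^ (3 / 2 : ℝ))

lemma kap_sum (s : Finset ℕ) : ∑ n ∈ s, 4 * (1 / (n : ℝ) ^ (3 / 2 : ℝ)) ≤ kap := by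
  refine Summable.sum_le_tsum s (fun n _ => by positivity) ?_
  exact (Real.summable_one_div_nat_rpow.2 (by norm_num)).mul_left 4

lemma fac_le {d p : ℕ} (hp : p.Prime) :
    1 + Real.sqrt p * |u d p| ≤ (1 + 4 * (1 / (p : ℝ) ^ (3 / 2 : ℝ))) * (if p ∣ d then 3 else 1) := by
  have h2 : (2 : ℝ) ≤ p := by exact_mod_cast hp.two_le
  have h3 : (0 : ℝ) < p := by linarith
  have h4 : (0 : ℝ) < (p : ℝ) - 1 := by linarith
  have h5 : 0 ≤ 4 * (1 / (p : ℝ) ^ (3 / 2 : ℝ)) := by positivity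
  have hs : 0 ≤ Real.sqrt p := Real.sqrt_nonneg _
  have hs2 : Real.sqrt p * Real.sqrt p = p := Real.mul_self_sqrt h3.le
  unfold u
  split_ifs with h
  · rw [abs_of_pos (by positivity)]
    have h6 : Real.sqrt p * (1 / ((p : ℝ) - 1)) ≤ 2 := by
      rw [mul_one_div, div_le_iff₀ h4]
      nlinarith
    nlinarith
  · rw [mul_one]
    have h7 : |(-1 : ℝ) / ((p : ℝ) - 1) ^ 2| = 1 / ((p : ℝ) - 1) ^ 2 := by
      rw [abs_div, abs_neg, abs_one, abs_of_pos (by positivity)]
    rw [h7]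
    have h8 : (p : ℝ) ^ (3 / 2 : ℝ) = p * Real.sqrt p := by
      rw [Real.sqrt_eq_rpow, show (3 / 2 : ℝ) = 1 + 1 / 2 by norm_num, Real.rpow_add h3, Real.rpow_one]
    have hsp : 0 < Real.sqrt p := Real.sqrt_pos.2 h3
    have h9 : Real.sqrt p * (1 / ((p : ℝ) - 1) ^ 2) ≤ 4 * (1 / (p : ℝ) ^ (3 / 2 : ℝ)) := by
      rw [h8, mul_one_div, mul_one_div, div_le_div_iff₀ (by positivity) (by positivity)]
      have e : Real.sqrt p * (p * Real.sqrt p) = (p : ℝ) * p := by
        calc _ = (p : ℝ) * (Real.sqrt p * Real.sqrt p) := by ring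
          _ = _ := by rw [hs2]
      rw [e]
      nlinarith
    linarith

lemma prod_fac_le {d : ℕ} (hd : 1 ≤ d) (s : Finset ℕ) (hs : ∀ p ∈ s, p.Prime) :
    ∏ p ∈ s, (1 + Real.sqrt p * |u d p|) ≤ Real.exp kap * (d : ℝ) ^ 2 := by
  classical
  have h1 : ∏ p ∈ s, (1 + Real.sqrt p * |u d p|) ≤
      ∏ p ∈ s, ((1 + 4 * (1 / (p : ℝ) ^ (3 / 2 : ℝ))) * (if p ∣ d then 3 else 1)) :=
    prod_le_prod (fun p _ => by positivity) fun p hp => fac_le (hs p hp)
  refine h1.trans ?_
  rw [prod_mul_distrib]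
  have h2 : ∏ p ∈ s, (1 + 4 * (1 / (p : ℝ) ^ (3 / 2 : ℝ))) ≤ Real.exp kap := by
    calc _ ≤ ∏ p ∈ s, Real.exp (4 * (1 / (p : ℝ) ^ (3 / 2 : ℝ))) :=
          prod_le_prod (fun p _ => by positivity) fun p _ => by
            rw [add_comm]
            exact Real.add_one_le_exp _
      _ = Real.exp (∑ p ∈ s, 4 * (1 / (p : ℝ) ^ (3 / 2 : ℝ))) := (Real.exp_sum _ _).symm
      _ ≤ _ := Real.exp_le_exp.2 (kap_sum s)
  have h3 : ∏ p ∈ s, (if p ∣ d then (3 : ℝ) else 1) ≤ (d : ℝ) ^ 2 := by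
    rw [prod_ite, prod_const_one, mul_one, prod_const]
    have h4 : (s.filter (fun p => p ∣ d)).card ≤ d.primeFactors.card := by
      refine card_le_card fun p hp => ?_
      rw [mem_filter] at hp
      rw [Nat.mem_primeFactors]
      exact ⟨hs p hp.1, hp.2, by omega⟩
    have h5 : 2 ^ d.primeFactors.card ≤ d := by
      calc 2 ^ d.primeFactors.card ≤ ∏ p ∈ d.primeFactors, p :=
            pow_card_le_prod _ _ _ (fun p hp => (Nat.prime_of_mem_primeFactors hp).two_le)
        _ ≤ d := Nat.le_of_dvd hd (Nat.prod_primeFactors_dvd d)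
    calc (3 : ℝ) ^ (s.filter (fun p => p ∣ d)).card ≤ 3 ^ d.primeFactors.card :=
          pow_le_pow_right₀ (by norm_num) h4
      _ ≤ 4 ^ d.primeFactors.card := pow_le_pow_left₀ (by norm_num) (by norm_num) _
      _ = (2 ^ d.primeFactors.card) ^ 2 := by
          rw [← pow_mul, mul_comm, pow_mul]
          norm_num
      _ ≤ _ := pow_le_pow_left₀ (by positivity) (by exact_mod_cast h5) 2
  exact mul_le_mul h2 h3 (prod_nonneg fun p _ => by split_ifs <;> norm_num) (Real.exp_pos _).le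

lemma trunc {d Q : ℕ} (hd : 1 ≤ d) (hQ : 1 ≤ Q) (s : Finset ℕ) (hs : ∀ p ∈ s, p.Prime)
    (hsQ : ∀ p : ℕ, p.Prime → p ≤ Q → p ∈ s) :
    |∏ p ∈ s, (1 + u d p) - SQ Q d| ≤ Real.exp kap * (d : ℝ) ^ 2 / Real.sqrt Q := by
  classical
  have hQ0 : (0 : ℝ) < Q := by exact_mod_cast hQ
  have hsq : 0 < Real.sqrt Q := Real.sqrt_pos.2 hQ0
  have h1 : SQ Q d = ∑ T ∈ s.powerset.filter (fun T => P T ≤ Q), U T d := by
    unfold SQ
    refine sum_bij (fun q _ => q.primeFactors) ?_ ?_ ?_ ?_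
    · intro q hq
      rw [mem_Sq] at hq
      rw [mem_filter, mem_powerset]
      refine ⟨fun p hp => hsQ p (pf_prime q p hp) ?_, ?_⟩
      · exact (Nat.le_of_mem_primeFactors hp).trans hq.1.2
      · rw [P_pf hq.2]
        exact hq.1.2
    · intro q hq q' hq' h
      rw [← P_pf (mem_Sq.1 hq).2, ← P_pf (mem_Sq.1 hq').2, h]
    · intro T hT
      rw [mem_filter, mem_powerset] at hT
      have hTp : ∀ p ∈ T, p.Prime := fun p hp => hs p (hT.1 hp)
      refine ⟨P T, ?_, pf_P hTp⟩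
      rw [mem_Sq]
      refine ⟨⟨P_pos hTp, hT.2⟩, ?_⟩
      unfold P
      refine Finset.squarefree_prod_of_pairwise_isCoprime ?_ ?_
      · intro p hp q hq hpq
        have := (Nat.coprime_primes (hTp p (mem_coe.1 hp)) (hTp q (mem_coe.1 hq))).2 hpq
        exact Nat.coprime_iff_isRelPrime.1 this
      · intro p hp
        exact (hTp p hp).prime.squarefree
    · intro q _
      rfl
  have h2 : ∏ p ∈ s, (1 + u d p) = ∑ T ∈ s.powerset, U T d := by
    rw [prod_one_add]
    rfl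
  rw [h1, h2, ← sum_filter_add_sum_filter_not s.powerset (fun T => P T ≤ Q), add_sub_cancel_left]
  rw [le_div_iff₀ hsq]
  have h3 : |∑ T ∈ s.powerset.filter (fun T => ¬ P T ≤ Q), U T d| * Real.sqrt Q ≤
      ∑ T ∈ s.powerset, Real.sqrt (P T) * |U T d| := by
    calc _ ≤ (∑ T ∈ s.powerset.filter (fun T => ¬ P T ≤ Q), |U T d|) * Real.sqrt Q :=
          mul_le_mul_of_nonneg_right (abs_sum_le_sum_abs _ _) hsq.le
      _ = ∑ T ∈ s.powerset.filter (fun T => ¬ P T ≤ Q), Real.sqrt Q * |U T d| := by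
          rw [sum_mul]
          exact sum_congr rfl fun T _ => mul_comm _ _
      _ ≤ ∑ T ∈ s.powerset.filter (fun T => ¬ P T ≤ Q), Real.sqrt (P T) * |U T d| := by
          refine sum_le_sum fun T hT => mul_le_mul_of_nonneg_right ?_ (abs_nonneg _)
          rw [mem_filter] at hT
          exact Real.sqrt_le_sqrt (by exact_mod_cast (not_le.1 hT.2).le)
      _ ≤ _ := sum_le_sum_of_subset_of_nonneg (filter_subset _ _) fun T _ _ => by positivity
  refine h3.trans (le_trans (le_of_eq ?_) (prod_fac_le hd s hs))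
  rw [prod_one_add]
  refine sum_congr rfl fun T hT => ?_
  rw [prod_mul_distrib]
  unfold U P
  rw [abs_prod, Nat.cast_prod]
  congr 1
  rw [Real.sqrt_eq_rpow, ← Real.finsetProd_rpow _ _ (fun p _ => Nat.cast_nonneg p)]
  refine prod_congr rfl fun p _ => ?_
  rw [Real.sqrt_eq_rpow]

/-- the truncated singular series is near the singular series -/
theorem CT_trunc {d Q : ℕ} (hd : 1 ≤ d) (hQ : 1 ≤ Q) :
    |Uni.CT {0, d} - SQ Q d| ≤ Real.exp kap * (d : ℝ) ^ 2 / Real.sqrt Q := by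
  classical
  have h := prod_has hd
  have h1 : Tendsto (fun s : Finset Nat.Primes => |∏ p ∈ s, (1 + u d p) - SQ Q d|) atTop
      (𝓝 (|Uni.CT {0, d} - SQ Q d|)) := (h.sub_const _).abs
  refine le_of_tendsto h1 ?_
  rw [eventually_atTop]
  let s0 : Finset Nat.Primes := (((Icc 1 Q).filter Nat.Prime).attach).image
    (fun p => ⟨p.1, (mem_filter.1 p.2).2⟩)
  refine ⟨s0, fun s hs => ?_⟩
  have e : ∏ p ∈ s, (1 + u d p) = ∏ p ∈ s.image (fun p : Nat.Primes => (p : ℕ)), (1 + u d p) := by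
    rw [prod_image]
    intro p _ q _ hpq
    exact Subtype.ext hpq
  rw [e]
  refine trunc hd hQ _ ?_ ?_
  · intro p hp
    rw [mem_image] at hp
    obtain ⟨q, -, rfl⟩ := hp
    exact q.2
  · intro p hp hpQ
    rw [mem_image]
    refine ⟨⟨p, hp⟩, hs ?_, rfl⟩
    rw [mem_image]
    exact ⟨⟨p, mem_filter.2 ⟨mem_Icc.2 ⟨hp.one_lt.le, hpQ⟩, hp⟩⟩, mem_attach _ _, rfl⟩

lemma SQ_zero_le (R : ℕ) : SQ R 0 ≤ 2 * (1 + Real.log R) ^ 2 := by
  have hlog : 0 ≤ Real.log R := Real.log_natCast_nonneg R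
  have h1 : SQ R 0 ≤ ∑ q ∈ Icc 1 R, 2 * (1 + Real.log R) * (1 / (q : ℝ)) := by
    unfold SQ
    have h2 : ∑ q ∈ Sq R, U q.primeFactors 0 ≤ ∑ q ∈ Sq R, 2 * (1 + Real.log R) * (1 / (q : ℝ)) := by
      refine sum_le_sum fun q hq => ?_
      rw [mem_Sq] at hq
      have hq0 : (0 : ℝ) < q := by exact_mod_cast hq.1.1
      have h3 := c_mul_P_le (pf_prime q) (X := R) (by rw [P_pf hq.2]; exact hq.1.2)
      rw [P_pf hq.2] at h3
      have h5 : U q.primeFactors 0 = c q.primeFactors := by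
        unfold c U
        refine prod_congr rfl fun p _ => ?_
        rw [if_pos (dvd_zero p)]
      rw [h5, mul_one_div, le_div_iff₀ hq0]
      exact h3
    exact h2.trans (sum_le_sum_of_subset_of_nonneg (filter_subset _ _) fun q _ _ => by positivity)
  refine h1.trans ?_
  rw [← mul_sum]
  have := mul_le_mul_of_nonneg_left (harm_le R) (by positivity : (0 : ℝ) ≤ 2 * (1 + Real.log R))
  calc _ ≤ _ := this
    _ = _ := by ring

/-- lower bound for the sum of the singular series over the differences -/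
theorem T_lower (A : Finset ℕ) (L R : ℕ) (hA : ∀ a ∈ A, a ≤ L) (hR : 1 ≤ R) :
    (A.card : ℝ) ^ 2 - A.card * (2 * (1 + Real.log R) ^ 2) - (A.card : ℝ) ^ 2 * (Real.exp kap * (L : ℝ) ^ 2 / Real.sqrt R) ≤
      ∑ x ∈ A.offDiag, Uni.CT {0, dist x.1 x.2} := by
  classical
  have hlog : 0 ≤ Real.log R := Real.log_natCast_nonneg R
  have split : ∀ f : ℕ → ℕ → ℝ, ∑ a ∈ A, ∑ a' ∈ A, f a a' = ∑ a ∈ A, f a a + ∑ x ∈ A.offDiag, f x.1 x.2 := by
    intro f
    rw [← sum_product' A A f, ← diag_union_offDiag, sum_union (disjoint_diag_offDiag A), sum_diag]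
  have h1 : (A.card : ℝ) ^ 2 ≤ ∑ a ∈ A, ∑ a' ∈ A, SQ R (dist a a') := by
    have e1 : ∑ a ∈ A, ∑ a' ∈ A, SQ R (dist a a') = ∑ q ∈ Sq R, ∑ a ∈ A, ∑ a' ∈ A, U q.primeFactors (dist a a') := by
      unfold SQ
      rw [sum_comm]
      conv_rhs => rw [sum_comm]
      rw [sum_comm]
      refine sum_congr rfl fun a _ => ?_
      rw [sum_comm]
    rw [e1]
    have h2 : 1 ∈ Sq R := by
      rw [mem_Sq]
      exact ⟨⟨le_rfl, hR⟩, squarefree_one⟩
    have h3 := single_le_sum (f := fun q => ∑ a ∈ A, ∑ a' ∈ A, U q.primeFactors (dist a a'))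
      (fun q _ => SQ_pos_def q.primeFactors (pf_prime q) A) h2
    refine le_trans (le_of_eq ?_) h3
    simp only [Nat.primeFactors_one, U, prod_empty, sum_const, nsmul_eq_mul, mul_one]
    ring
  rw [split] at h1
  have h4 : ∑ a ∈ A, SQ R (dist a a) ≤ A.card * (2 * (1 + Real.log R) ^ 2) := by
    rw [sum_congr rfl fun a _ => by rw [dist_self], sum_const, nsmul_eq_mul]
    exact mul_le_mul_of_nonneg_left (SQ_zero_le R) (by positivity)
  have h5 : ∑ x ∈ A.offDiag, SQ R (dist x.1 x.2) ≤ ∑ x ∈ A.offDiag, Uni.CT {0, dist x.1 x.2} +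
      (A.card : ℝ) ^ 2 * (Real.exp kap * (L : ℝ) ^ 2 / Real.sqrt R) := by
    have e1 : ∑ x ∈ A.offDiag, SQ R (dist x.1 x.2) ≤ ∑ x ∈ A.offDiag, (Uni.CT {0, dist x.1 x.2} +
        Real.exp kap * (L : ℝ) ^ 2 / Real.sqrt R) := by
      refine sum_le_sum fun x hx => ?_
      rw [mem_offDiag] at hx
      have hd : 1 ≤ dist x.1 x.2 := by
        unfold dist
        omega
      have hdL : dist x.1 x.2 ≤ L := by
        have := hA _ hx.1
        have := hA _ hx.2.1
        unfold dist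
        omega
      have h6 := (abs_le.1 (CT_trunc (Q := R) hd hR)).1
      have h7 : Real.exp kap * (dist x.1 x.2 : ℝ) ^ 2 / Real.sqrt R ≤ Real.exp kap * (L : ℝ) ^ 2 / Real.sqrt R := by
        have : (dist x.1 x.2 : ℝ) ≤ L := by exact_mod_cast hdL
        gcongr
      linarith
    refine e1.trans ?_
    rw [sum_add_distrib, sum_const, nsmul_eq_mul]
    have e2 : ((A.offDiag.card : ℕ) : ℝ) ≤ (A.card : ℝ) ^ 2 := by
      rw [offDiag_card, ← sq]
      exact_mod_cast Nat.sub_le _ _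
    have e3 : (0 : ℝ) ≤ Real.exp kap * (L : ℝ) ^ 2 / Real.sqrt R := by positivity
    have := mul_le_mul_of_nonneg_right e2 e3
    linarith
  linarith

/-- comparison of the truncated series with the singular series over the differences -/
theorem T_upper (A : Finset ℕ) (L Q : ℕ) (hA : ∀ a ∈ A, a ≤ L) (hQ : 1 ≤ Q) :
    ∑ x ∈ A.offDiag, Uni.CT {0, dist x.1 x.2} - (A.card : ℝ) ^ 2 * (Real.exp kap * (L : ℝ) ^ 2 / Real.sqrt Q) ≤
      ∑ x ∈ A.offDiag, SQ Q (dist x.1 x.2) := by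
  classical
  have e1 : ∑ x ∈ A.offDiag, Uni.CT {0, dist x.1 x.2} ≤ ∑ x ∈ A.offDiag, (SQ Q (dist x.1 x.2) +
      Real.exp kap * (L : ℝ) ^ 2 / Real.sqrt Q) := by
    refine sum_le_sum fun x hx => ?_
    rw [mem_offDiag] at hx
    have hd : 1 ≤ dist x.1 x.2 := by
      unfold dist
      omega
    have hdL : dist x.1 x.2 ≤ L := by
      have := hA _ hx.1
      have := hA _ hx.2.1
      unfold dist
      omega
    have h6 := (abs_le.1 (CT_trunc (Q := Q) hd hQ)).2
    have h7 : Real.exp kap * (dist x.1 x.2 : ℝ) ^ 2 / Real.sqrt Q ≤ Real.exp kap * (L : ℝ) ^ 2 / Real.sqrt Q := by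
      have : (dist x.1 x.2 : ℝ) ≤ L := by exact_mod_cast hdL
      gcongr
    linarith
  rw [sum_add_distrib, sum_const, nsmul_eq_mul] at e1
  have e2 : ((A.offDiag.card : ℕ) : ℝ) ≤ (A.card : ℝ) ^ 2 := by
    rw [offDiag_card, ← sq]
    exact_mod_cast Nat.sub_le _ _
  have e3 : (0 : ℝ) ≤ Real.exp kap * (L : ℝ) ^ 2 / Real.sqrt Q := by positivity
  have := mul_le_mul_of_nonneg_right e2 e3
  linarith

lemma log_fact (m : ℕ) (hm : 1 ≤ m) :
    ∑ i ∈ range m, Real.log ((i : ℝ) + 1) ≤ m * Real.log m - m + 1 + Real.log m := by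
  induction m, hm using Nat.le_induction with
  | base => simp
  | succ k hk ih =>
    rw [sum_range_succ]
    have hk0 : (0 : ℝ) < k := by exact_mod_cast hk
    have h1 : 1 - (1 + 1 / (k : ℝ))⁻¹ ≤ Real.log (1 + 1 / (k : ℝ)) := Real.one_sub_inv_le_log_of_pos (by positivity)
    have h2 : Real.log (1 + 1 / (k : ℝ)) = Real.log ((k : ℝ) + 1) - Real.log k := by
      rw [← Real.log_div (by positivity) (by positivity)]
      congr 1
      field_simp
    have h3 : 1 - (1 + 1 / (k : ℝ))⁻¹ = 1 / ((k : ℝ) + 1) := by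
      field_simp
      ring
    rw [h2, h3, div_le_iff₀ (by positivity)] at h1
    push_cast
    nlinarith

/-- the sum of the weights of the blocks -/
theorem weights (X L m D : ℕ) (hm : 1 ≤ m) (hD : 2 ≤ D) (hX : m * D + L ≤ X) :
    (m : ℝ) / Real.log X ^ 2 * (1 + 2 / Real.log X * (1 - (1 + Real.log m) / m - m * L / X)) ≤
      ∑ i ∈ range m, 1 / Real.log (((i + 1) * D + L : ℕ) : ℝ) ^ 2 := by
  have hm0 : (0 : ℝ) < m := by exact_mod_cast hm
  have hX2 : 2 ≤ X := by nlinarith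
  have hX0 : (0 : ℝ) < X := by exact_mod_cast (by omega : 0 < X)
  have hl : 0 < Real.log X := Real.log_pos (by exact_mod_cast (by omega : 1 < X))
  set l := Real.log X with hl'
  have h1 : ∀ i ∈ range m, 1 / l ^ 2 * (1 + 2 / l * (Real.log m - Real.log ((i : ℝ) + 1) - m * L / X)) ≤
      1 / Real.log (((i + 1) * D + L : ℕ) : ℝ) ^ 2 := by
    intro i hi
    rw [mem_range] at hi
    have hi0 : (0 : ℝ) < (i : ℝ) + 1 := by positivity
    have hpos : 0 < Real.log (((i + 1) * D + L : ℕ) : ℝ) := by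
      apply Real.log_pos
      have : 1 < (i + 1) * D + L := by nlinarith
      exact_mod_cast this
    set ℓ := Real.log (((i + 1) * D + L : ℕ) : ℝ) with hℓ
    have h2 : (((i + 1) * D + L : ℕ) : ℝ) ≤ X * (((i : ℝ) + 1) / m) * (1 + m * L / X) := by
      have e1 : (m : ℝ) * D ≤ X := by
        have : m * D ≤ X := by omega
        exact_mod_cast this
      have e2 : (D : ℝ) ≤ X / m := by
        rw [le_div_iff₀ hm0]
        linarith
      have e3 : X * (((i : ℝ) + 1) / m) * (1 + m * L / X) = ((i : ℝ) + 1) * (X / m) + ((i : ℝ) + 1) * L := by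
        field_simp
      rw [e3]
      push_cast
      have e4 := mul_le_mul_of_nonneg_left e2 hi0.le
      have e5 : (L : ℝ) ≤ ((i : ℝ) + 1) * L := by
        have : (0 : ℝ) ≤ (i : ℝ) * L := by positivity
        linarith
      linarith
    have h3 : ℓ ≤ l + (Real.log ((i : ℝ) + 1) - Real.log m) + m * L / X := by
      have e1 := Real.log_le_log (by
        have : 0 < (i + 1) * D + L := by nlinarith
        exact_mod_cast this) h2
      rw [Real.log_mul (by positivity) (by positivity), Real.log_mul (by positivity) (by positivity),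
        Real.log_div (by positivity) (by positivity)] at e1
      have e2 : Real.log (1 + m * L / X) ≤ m * L / X := by
        have := Real.log_le_sub_one_of_pos (show (0 : ℝ) < 1 + m * L / X by positivity)
        linarith
      linarith
    set v := (Real.log m - Real.log ((i : ℝ) + 1) - m * L / X) / l with hv
    have h4 : ℓ ≤ l * (1 - v) := by
      have : l * (1 - v) = l - (Real.log m - Real.log ((i : ℝ) + 1) - m * L / X) := by
        rw [hv]
        field_simp
      rw [this]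
      linarith
    have h5 : 0 < 1 - v := by
      by_contra hc
      have := mul_nonpos_of_nonneg_of_nonpos hl.le (not_lt.1 hc)
      linarith
    have h6 : ℓ ^ 2 * (1 + 2 * v) ≤ l ^ 2 := by
      by_cases hv2 : 0 ≤ 1 + 2 * v
      · have e1 : ℓ ^ 2 ≤ (l * (1 - v)) ^ 2 := pow_le_pow_left₀ hpos.le h4 2
        have e2 := mul_le_mul_of_nonneg_right e1 hv2
        have e3 : (1 - v) ^ 2 * (1 + 2 * v) ≤ 1 := by nlinarith [sq_nonneg v]
        have e4 := mul_le_mul_of_nonneg_left e3 (sq_nonneg l)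
        calc _ ≤ _ := e2
          _ = l ^ 2 * ((1 - v) ^ 2 * (1 + 2 * v)) := by ring
          _ ≤ _ := by linarith
      · have := mul_nonpos_of_nonneg_of_nonpos (sq_nonneg ℓ) (not_le.1 hv2).le
        have := sq_nonneg l
        linarith
    rw [le_div_iff₀ (by positivity)]
    have h7 : 1 / l ^ 2 * (1 + 2 / l * (Real.log m - Real.log ((i : ℝ) + 1) - m * L / X)) * ℓ ^ 2 =
        ℓ ^ 2 * (1 + 2 * v) / l ^ 2 := by
      rw [hv]
      field_simp
    rw [h7, div_le_one (by positivity)]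
    exact h6
  refine le_trans ?_ (sum_le_sum h1)
  rw [← mul_sum, sum_add_distrib, ← mul_sum, sum_sub_distrib, sum_sub_distrib]
  simp only [sum_const, card_range, nsmul_eq_mul, mul_one]
  have h2 := log_fact m hm
  have h3 : m * (1 - (1 + Real.log m) / m - m * L / X) ≤
      m * Real.log m - ∑ i ∈ range m, Real.log ((i : ℝ) + 1) - m * (m * L / X) := by
    have : m * (1 - (1 + Real.log m) / m - m * L / X) = m - (1 + Real.log m) - m * (m * L / X) := by
      field_simp
    rw [this]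
    linarith
  have h4 : (m : ℝ) / l ^ 2 * (1 + 2 / l * (1 - (1 + Real.log m) / m - m * L / X)) =
      1 / l ^ 2 * (m + 2 / l * (m * (1 - (1 + Real.log m) / m - m * L / X))) := by
    ring
  rw [h4]
  gcongr

end Pool.Agent.K7.H69.GD
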