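import Pool.Agent.K7.H69.GD.D
import Pool.Agent.K7.H69.GD.E

/-! The parameters of the main inequality. -/

set_option autoImplicit false

namespace Pool.Agent.K7.H69.GD

open Finset Pool.Agent.H387R2 Filter Topology

/-- the Bombieri-Vinogradov theorem with the maximum over the classes and the heights -/
def BV : Prop := ∀ V : ℕ, ∃ B X0 : ℕ, ∀ X : ℕ, X0 ≤ X → ∀ Q : ℕ, (Q : ℝ) ^ 2 * Real.log X ^ B ≤ X →
    ∃ M : ℕ → ℝ, (∀ q, 0 ≤ M q) ∧
      (∀ q, 1 ≤ q → ∀ a : ℕ, a.Coprime q → ∀ y : ℕ, y ≤ X → |ps y q a - y / (Nat.totient q : ℝ)| ≤ M q) ∧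
      ∑ q ∈ Icc 1 Q, M q ≤ X / Real.log X ^ V

lemma ev1 (K : ℕ) (ρ c : ℝ) (hρ : 0 < ρ) : ∀ᶠ X : ℕ in atTop, c * Real.log X ^ K ≤ (X : ℝ) ^ ρ := by
  have h1 := (isLittleO_log_rpow_rpow_atTop (K : ℝ) hρ).bound (show (0 : ℝ) < 1 / (|c| + 1) by positivity)
  have h2 := tendsto_natCast_atTop_atTop (R := ℝ) |>.eventually h1
  filter_upwards [h2, eventually_ge_atTop 1] with X hX hX1
  have hl : 0 ≤ Real.log X := Real.log_natCast_nonneg X
  rw [Real.norm_of_nonneg (by positivity), Real.norm_of_nonneg (by positivity), Real.rpow_natCast] at hX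
  rw [div_mul_eq_mul_div, one_mul, le_div_iff₀ (by positivity)] at hX
  have h3 : c * Real.log X ^ K ≤ (|c| + 1) * Real.log X ^ K :=
    mul_le_mul_of_nonneg_right ((le_abs_self c).trans (by linarith)) (by positivity)
  linarith

lemma ev2 (c : ℝ) : ∀ᶠ X : ℕ in atTop, c ≤ Real.log X :=
  (Real.tendsto_log_atTop.comp (tendsto_natCast_atTop_atTop (R := ℝ))).eventually_ge_atTop c

/-- the sum of the singular series over the differences -/
noncomputable def TT (A : Finset ℕ) : ℝ := ∑ x ∈ A.offDiag, Uni.CT {0, dist x.1 x.2}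

/-- the number of prime pairs over the differences -/
noncomputable def PP (X : ℕ) (A : Finset ℕ) : ℝ := ∑ x ∈ A.offDiag, (pi2 X (dist x.1 x.2) : ℝ)

lemma PP_nonneg (X : ℕ) (A : Finset ℕ) : 0 ≤ PP X A := sum_nonneg fun _ _ => Nat.cast_nonneg _

/-- the parameters `L, m, D` -/
lemma par1 (X C : ℕ) (η l s : ℝ) (hη : 0 < η) (hη1 : η ≤ 1 / 4) (hX1 : (1 : ℝ) ≤ X) (hl1 : 100 ≤ l) (hl2 : 32 / η ≤ l)
    (hsX : s ≤ X) (h16 : 16 * l ^ 2 ≤ X)
    (c5 : 32 / η * l ^ (C + 2) ≤ s) (c6 : 60 / η * l ^ (C + 3) ≤ s) :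
    ∃ L m D : ℕ, (∀ a : ℕ, (a : ℝ) ≤ l ^ C → a ≤ L) ∧ (L : ℝ) ≤ l ^ C ∧ 1 ≤ m ∧ m * D + L ≤ X ∧
      (X : ℝ) - L - m ≤ m * D ∧ X / (8 * l ^ 2) ≤ (D : ℝ) ∧ 2 ≤ D ∧
      (1 + Real.log m) / m + m * L / X ≤ η / 4 ∧ (L : ℝ) + m ≤ X * (η / (6 * l)) := by
  have hl0 : 0 < l := by linarith
  have hX0' : (0 : ℝ) < X := by linarith
  obtain ⟨L, hL⟩ : ∃ L, L = ⌊l ^ C⌋₊ := ⟨_, rfl⟩
  have hLl : (L : ℝ) ≤ l ^ C := by
    rw [hL]
    exact Nat.floor_le (by positivity)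
  have hAL : ∀ a : ℕ, (a : ℝ) ≤ l ^ C → a ≤ L := fun a ha => by
    rw [hL]
    exact Nat.le_floor ha
  obtain ⟨k, hk⟩ : ∃ k, k = ⌈l⌉₊ := ⟨_, rfl⟩
  have hceil1 : l ≤ (k : ℝ) := by
    rw [hk]
    exact Nat.le_ceil l
  have hceil2 : (k : ℝ) ≤ 2 * l := by
    rw [hk]
    exact (Nat.ceil_lt_add_one hl0.le).le.trans (by linarith)
  have hceil0 : (0 : ℝ) < k := by linarith
  obtain ⟨m, hm⟩ : ∃ m, m = k ^ 2 := ⟨_, rfl⟩
  have hm1 : 1 ≤ m := by
    rw [hm]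
    exact Nat.one_le_pow _ _ (by exact_mod_cast hceil0)
  have hm0 : (0 : ℝ) < m := by exact_mod_cast hm1
  have hmc : (m : ℝ) = (k : ℝ) ^ 2 := by
    rw [hm]
    push_cast
    rfl
  have hm4 : (m : ℝ) ≤ 4 * l ^ 2 := by
    rw [hmc]
    nlinarith
  have hLm : (L : ℝ) + m ≤ 5 * l ^ (C + 2) := by
    have e1 : l ^ C ≤ l ^ (C + 2) := pow_le_pow_right₀ (by linarith) (by omega)
    have e2 : l ^ 2 ≤ l ^ (C + 2) := pow_le_pow_right₀ (by linarith) (by omega)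
    linarith
  have h5 : 5 * l ^ (C + 2) * (6 * l / η) ≤ X := by
    have e1 : 5 * l ^ (C + 2) * (6 * l / η) ≤ 60 / η * l ^ (C + 3) := by
      have e2 : 60 / η * l ^ (C + 3) = 60 * (l ^ (C + 2) * l / η) := by
        rw [show C + 3 = (C + 2) + 1 by ring, pow_succ]
        ring
      have e3 : 5 * l ^ (C + 2) * (6 * l / η) = 30 * (l ^ (C + 2) * l / η) := by ring
      rw [e2, e3]
      have : 0 ≤ l ^ (C + 2) * l / η := by positivity
      linarith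
    linarith
  have hδ2 : ((L : ℝ) + m) * (6 * l / η) ≤ X :=
    (mul_le_mul_of_nonneg_right hLm (by positivity)).trans h5
  have h6l : 12 ≤ 6 * l / η := by
    rw [le_div_iff₀ hη]
    nlinarith
  have hLm2 : (L : ℝ) + m ≤ X / 12 := by
    have e1 : ((L : ℝ) + m) * 12 ≤ ((L : ℝ) + m) * (6 * l / η) := by
      refine mul_le_mul_of_nonneg_left h6l (by positivity)
    linarith
  have hLX : L ≤ X := by
    have : (L : ℝ) ≤ X := by
      have := hm0.le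
      linarith
    exact_mod_cast this
  obtain ⟨D, hD⟩ : ∃ D, D = (X - L) / m := ⟨_, rfl⟩
  have hmD : m * D + L ≤ X := by
    have h : m * D ≤ X - L := by
      rw [hD]
      exact Nat.mul_div_le (X - L) m
    omega
  have hmD2 : (X : ℝ) - L - m ≤ m * D := by
    have e1 : X - L < m * D + m := by
      have h : X - L < m * (D + 1) := by
        rw [hD]
        exact Nat.lt_mul_div_succ (X - L) (show 0 < m by omega)
      rw [mul_add, mul_one] at h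
      exact h
    have e2 : ((X - L : ℕ) : ℝ) < m * D + m := by exact_mod_cast e1
    rw [Nat.cast_sub hLX] at e2
    linarith
  have hDX : X / (8 * l ^ 2) ≤ (D : ℝ) := by
    rw [div_le_iff₀ (by positivity)]
    have e1 : (X : ℝ) / 2 ≤ m * D := by linarith
    have e2 : (m : ℝ) * D ≤ 4 * l ^ 2 * D := mul_le_mul_of_nonneg_right hm4 (Nat.cast_nonneg D)
    linarith
  have hD2 : 2 ≤ D := by
    have e1 : (2 : ℝ) ≤ X / (8 * l ^ 2) := by
      rw [le_div_iff₀ (by positivity)]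
      linarith
    exact_mod_cast e1.trans hDX
  have hδ1 : (1 + Real.log m) / m + m * L / X ≤ η / 4 := by
    have e1 : (1 + Real.log m) / m ≤ 3 / l := by
      have e2 : Real.log m ≤ 2 * (k : ℝ) := by
        rw [hmc, Real.log_pow]
        push_cast
        have := Real.log_le_sub_one_of_pos hceil0
        linarith
      rw [div_le_div_iff₀ hm0 hl0]
      have e3 : 1 + Real.log m ≤ 3 * (k : ℝ) := by linarith
      calc (1 + Real.log m) * l ≤ 3 * (k : ℝ) * (k : ℝ) := mul_le_mul e3 hceil1 hl0.le (by positivity)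
        _ = _ := by
          rw [hmc]
          ring
    have e2 : 3 / l ≤ η / 8 := by
      rw [div_le_div_iff₀ hl0 (by norm_num)]
      rw [div_le_iff₀ hη] at hl2
      linarith
    have e3 : m * L / X ≤ η / 8 := by
      rw [div_le_iff₀ hX0']
      have e4 : (m : ℝ) * L ≤ 4 * l ^ 2 * l ^ C := mul_le_mul hm4 hLl (Nat.cast_nonneg _) (by positivity)
      have e5 : 32 / η * l ^ (C + 2) ≤ X := c5.trans hsX
      rw [div_mul_eq_mul_div, div_le_iff₀ hη] at e5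
      have e6 : l ^ (C + 2) = l ^ 2 * l ^ C := by
        rw [pow_add]
        ring
      rw [e6] at e5
      linarith
    linarith
  have e6 : (L : ℝ) + m ≤ X * (η / (6 * l)) := by
    have : ((L : ℝ) + m) * (6 * l / η) * (η / (6 * l)) = (L : ℝ) + m := by
      field_simp
    rw [← this]
    exact mul_le_mul_of_nonneg_right hδ2 (by positivity)
  exact ⟨L, m, D, hAL, hLl, hm1, hmD, hmD2, hDX, hD2, hδ1, e6⟩

/-- the level -/
lemma par2 (X B C B0 B1 : ℕ) (η : ℝ) (hB1 : B1 = B0 + B + 8) (hX1 : (1 : ℝ) ≤ X) (hl1 : 100 ≤ Real.log X)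
    (c2 : 2 * Real.log X ^ B1 ≤ Real.sqrt X) (c3 : 2 * Real.log X ^ B1 ≤ (X : ℝ) ^ η)
    (c4 : 8 * Real.exp kap ^ 2 * Real.log X ^ (4 * C + 2 * B + B1) ≤ Real.sqrt X) :
    ∃ Q : ℕ, 1 ≤ Q ∧ (Q : ℝ) ≤ Real.sqrt X ∧ (Q : ℝ) ^ 2 ≤ X / Real.log X ^ (2 * B1) ∧
      (Q : ℝ) ^ 2 * Real.log X ^ B0 ≤ X ∧
      (1 / 2 - η) * Real.log X ≤ Real.log Q ∧ 2 * Real.exp kap * Real.log X ^ (2 * C + B) ≤ Real.sqrt Q := by
  have hk := Real.exp_pos kap
  obtain ⟨l, hl⟩ : ∃ l, l = Real.log X := ⟨_, rfl⟩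
  obtain ⟨s, hs⟩ : ∃ s, s = Real.sqrt X := ⟨_, rfl⟩
  rw [← hl] at hl1 c2 c3 c4 ⊢
  rw [← hs] at c2 c4 ⊢
  have hl0 : 0 < l := by linarith
  have hX0' : (0 : ℝ) < X := by linarith
  have hs0 : 0 < s := by
    rw [hs]
    exact Real.sqrt_pos.2 hX0'
  have hss : s * s = X := by
    rw [hs]
    exact Real.mul_self_sqrt hX0'.le
  have hsr : (X : ℝ) ^ (1 / 2 : ℝ) = s := by
    rw [hs]
    exact (Real.sqrt_eq_rpow _).symm
  obtain ⟨Q, hQ⟩ : ∃ Q, Q = ⌊s / l ^ B1⌋₊ := ⟨_, rfl⟩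
  have hlB : 0 < l ^ B1 := by positivity
  have hQu : (Q : ℝ) ≤ s / l ^ B1 := by
    rw [hQ]
    exact Nat.floor_le (by positivity)
  have hQl : s / (2 * l ^ B1) ≤ Q := by
    have e1 : s / l ^ B1 < Q + 1 := by
      rw [hQ]
      exact Nat.lt_floor_add_one _
    have e2 : 1 ≤ s / (2 * l ^ B1) := by
      rw [one_le_div (by positivity)]
      exact c2
    have e3 : s / l ^ B1 = 2 * (s / (2 * l ^ B1)) := by
      field_simp
    linarith
  have hQpos : 0 < s / (2 * l ^ B1) := by positivity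
  have hQ1 : 1 ≤ Q := by
    have : (0 : ℝ) < Q := by linarith
    exact_mod_cast this
  have hQs : (Q : ℝ) ≤ s := by
    refine hQu.trans (div_le_self hs0.le ?_)
    exact one_le_pow₀ (by linarith)
  have hQsq : (Q : ℝ) ^ 2 ≤ X / l ^ (2 * B1) := by
    calc (Q : ℝ) ^ 2 ≤ (s / l ^ B1) ^ 2 := pow_le_pow_left₀ (Nat.cast_nonneg _) hQu 2
      _ = _ := by
        rw [div_pow, sq s, hss, ← pow_mul, mul_comm B1]
  have hQ3 : (Q : ℝ) ^ 2 * l ^ B0 ≤ X := by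
    have e1 : (Q : ℝ) ^ 2 * l ^ B0 ≤ X / l ^ (2 * B1) * l ^ B0 := mul_le_mul_of_nonneg_right hQsq (by positivity)
    refine e1.trans ?_
    rw [div_mul_eq_mul_div, div_le_iff₀ (by positivity)]
    refine mul_le_mul_of_nonneg_left ?_ hX0'.le
    exact pow_le_pow_right₀ (by linarith) (by omega)
  have hlogQ : (1 / 2 - η) * l ≤ Real.log Q := by
    have e1 : (X : ℝ) ^ (1 / 2 - η) ≤ Q := by
      refine le_trans ?_ hQl
      rw [Real.rpow_sub hX0', hsr]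
      exact div_le_div_of_nonneg_left hs0.le (by positivity) c3
    have e2 := Real.log_le_log (by positivity) e1
    rwa [Real.log_rpow hX0', ← hl] at e2
  have hsQ : 2 * Real.exp kap * l ^ (2 * C + B) ≤ Real.sqrt Q := by
    apply Real.le_sqrt_of_sq_le
    refine le_trans ?_ hQl
    rw [le_div_iff₀ (by positivity)]
    refine le_trans (le_of_eq ?_) c4
    have : l ^ (4 * C + 2 * B + B1) = (l ^ (2 * C + B)) ^ 2 * l ^ B1 := by
      rw [← pow_mul, ← pow_add]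
      congr 1
      ring
    rw [this]
    ring
  exact ⟨Q, hQ1, hQs, hQsq, hQ3, hlogQ, hsQ⟩

/-- the error terms -/
lemma par3 (l s x q m1 e1 e2 S D N : ℝ) (B B1 : ℕ) (hB1 : B + 8 ≤ B1) (hl1 : 100 ≤ l) (hs0 : 0 < s)
    (hss : s * s = x) (hx : 0 < x) (c1 : l ^ (B + 12) ≤ s)
    (hq0 : 0 ≤ q) (hqs : q ≤ s) (hqsq : q ^ 2 ≤ x / l ^ (2 * B1)) (hm0 : 0 ≤ m1) (hM1 : m1 ≤ x / l ^ (B + 6))
    (hS0 : 0 ≤ S) (hS : S ≤ x / l ^ (B + 6))
    (hE1 : e1 ≤ 2 * (1 + l) ^ 2 * (2 * S + q * l)) (hE2 : e2 ≤ 16 * (1 + l) ^ 4 * q ^ 2)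
    (hDX : x / (8 * l ^ 2) ≤ D) (hc1 : 1 ≤ N) :
    2 * N * l * m1 + N ^ 2 * (2 * e1 + e2 + 4 * s * l ^ 2) ≤ D * (N ^ 2 / (2 * l ^ B)) := by
  have hl0 : 0 < l := by linarith
  have hone : 1 + l ≤ 2 * l := by linarith
  obtain ⟨Z, hZ⟩ : ∃ Z, Z = x / l ^ (B + 4) := ⟨_, rfl⟩
  have hZ0 : 0 < Z := by
    rw [hZ]
    positivity
  have z1 : x / l ^ (B + 6) * l ^ 2 = Z := by
    rw [hZ, show B + 6 = (B + 4) + 2 by ring, pow_add]
    field_simp
  have z2 : s * l ^ 3 ≤ Z := by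
    rw [hZ, le_div_iff₀ (by positivity)]
    have e1 : l ^ 3 * l ^ (B + 4) ≤ s := by
      rw [← pow_add]
      exact (pow_le_pow_right₀ (by linarith) (by omega)).trans c1
    calc s * l ^ 3 * l ^ (B + 4) = s * (l ^ 3 * l ^ (B + 4)) := by ring
      _ ≤ s * s := mul_le_mul_of_nonneg_left e1 hs0.le
      _ = x := hss
  have z3 : q ^ 2 * l ^ 4 ≤ Z := by
    have e1 : q ^ 2 * l ^ 4 ≤ x / l ^ (2 * B1) * l ^ 4 := mul_le_mul_of_nonneg_right hqsq (by positivity)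
    refine e1.trans ?_
    rw [hZ, div_mul_eq_mul_div, div_le_div_iff₀ (by positivity) (by positivity), mul_assoc, ← pow_add]
    refine mul_le_mul_of_nonneg_left ?_ hx.le
    exact pow_le_pow_right₀ (by linarith) (by omega)
  have z4 : x / l ^ (B + 6) * l ≤ Z := by
    rw [← z1]
    refine mul_le_mul_of_nonneg_left ?_ (by positivity)
    nlinarith
  have z5 : s * l ^ 2 ≤ Z := by
    refine le_trans ?_ z2
    refine mul_le_mul_of_nonneg_left ?_ hs0.le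
    exact pow_le_pow_right₀ (by linarith) (by omega)
  have hE1' : e1 ≤ 24 * Z := by
    have f1 : 2 * (1 + l) ^ 2 * (2 * S + q * l) ≤ 2 * (2 * l) ^ 2 * (2 * (x / l ^ (B + 6)) + s * l) := by
      refine mul_le_mul ?_ ?_ ?_ (by positivity)
      · refine mul_le_mul_of_nonneg_left (pow_le_pow_left₀ (by linarith) hone 2) (by norm_num)
      · have := mul_le_mul_of_nonneg_right hqs hl0.le
        linarith
      · positivity
    have f2 : 2 * (2 * l) ^ 2 * (2 * (x / l ^ (B + 6)) + s * l) = 16 * (x / l ^ (B + 6) * l ^ 2) + 8 * (s * l ^ 3) := by ring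
    rw [f2, z1] at f1
    linarith
  have hE2' : e2 ≤ 256 * Z := by
    have f1 : 16 * (1 + l) ^ 4 * q ^ 2 ≤ 16 * (2 * l) ^ 4 * q ^ 2 := by
      refine mul_le_mul_of_nonneg_right ?_ (by positivity)
      refine mul_le_mul_of_nonneg_left (pow_le_pow_left₀ (by linarith) hone 4) (by norm_num)
    have f2 : 16 * (2 * l) ^ 4 * q ^ 2 = 256 * (q ^ 2 * l ^ 4) := by ring
    linarith
  have hErr : 2 * N * l * m1 + N ^ 2 * (2 * e1 + e2 + 4 * s * l ^ 2) ≤ N ^ 2 * (310 * Z) := by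
    have f1 : 2 * N * l * m1 ≤ N ^ 2 * (2 * Z) := by
      have e2 : l * m1 ≤ Z := by
        refine le_trans ?_ z4
        rw [mul_comm]
        exact mul_le_mul_of_nonneg_right hM1 hl0.le
      have e3 : 0 ≤ l * m1 := mul_nonneg hl0.le hm0
      have e4 : N ≤ N ^ 2 := by nlinarith
      calc 2 * N * l * m1 = N * (2 * (l * m1)) := by ring
        _ ≤ N ^ 2 * (2 * Z) := mul_le_mul e4 (by linarith) (by positivity) (by positivity)
    have f2 : N ^ 2 * (2 * e1 + e2 + 4 * s * l ^ 2) ≤ N ^ 2 * (308 * Z) := by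
      refine mul_le_mul_of_nonneg_left ?_ (by positivity)
      have : 4 * s * l ^ 2 = 4 * (s * l ^ 2) := by ring
      rw [this]
      linarith
    linarith
  have g1 : 310 * Z ≤ x / (8 * l ^ 2) * (1 / (2 * l ^ B)) := by
    have e2 : x / (8 * l ^ 2) * (1 / (2 * l ^ B)) = (l ^ 2 / 16) * Z := by
      rw [hZ, pow_add l B 4]
      field_simp
      norm_num
    rw [e2]
    refine mul_le_mul_of_nonneg_right ?_ hZ0.le
    nlinarith
  have g2 : x / (8 * l ^ 2) * (1 / (2 * l ^ B)) ≤ D * (1 / (2 * l ^ B)) :=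
    mul_le_mul_of_nonneg_right hDX (by positivity)
  calc _ ≤ N ^ 2 * (310 * Z) := hErr
    _ ≤ N ^ 2 * (D * (1 / (2 * l ^ B))) := mul_le_mul_of_nonneg_left (g1.trans g2) (by positivity)
    _ = _ := by ring

/-- the truncation of the series -/
lemma par4 (k L r l N : ℝ) (B C : ℕ) (hk : 0 < k) (hl : 0 < l) (hL0 : 0 ≤ L) (hLl : L ≤ l ^ C)
    (hsQ : 2 * k * l ^ (2 * C + B) ≤ r) :
    N ^ 2 * (k * L ^ 2 / r) ≤ N ^ 2 / (2 * l ^ B) := by
  have hsQ0 : 0 < r := lt_of_lt_of_le (by positivity) hsQ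
  have e1 : k * L ^ 2 / r ≤ 1 / (2 * l ^ B) := by
    rw [div_le_div_iff₀ hsQ0 (by positivity), one_mul]
    refine le_trans ?_ hsQ
    have e2 : L ^ 2 ≤ l ^ (2 * C) := by
      calc L ^ 2 ≤ (l ^ C) ^ 2 := pow_le_pow_left₀ hL0 hLl 2
        _ = _ := by rw [← pow_mul, mul_comm]
    calc k * L ^ 2 * (2 * l ^ B) ≤ k * l ^ (2 * C) * (2 * l ^ B) := by gcongr
      _ = _ := by
        rw [pow_add]
        ring
  calc _ ≤ N ^ 2 * (1 / (2 * l ^ B)) := mul_le_mul_of_nonneg_left e1 (by positivity)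
    _ = _ := by ring

/-- the weights -/
lemma par5 (X L m D l η Λ δ : ℝ) (hX : 1 ≤ X) (hl1 : 100 ≤ l) (hη : 0 < η) (hη1 : η ≤ 1 / 4) (hm : 1 ≤ m) (hD : 0 ≤ D)
    (hL : 0 ≤ L)
    (hδ0 : 0 ≤ δ) (hδ1 : δ ≤ η / 4) (hmD2 : X - L - m ≤ m * D) (e6 : L + m ≤ X * (η / (6 * l)))
    (hw : m / l ^ 2 * (1 + 2 / l * (1 - δ)) ≤ Λ) :
    X / l ^ 2 * (1 + (2 - η) / l) ≤ D * Λ := by
  have hl0 : 0 < l := by linarith
  have hX0 : 0 < X := by linarith
  have e1 := mul_le_mul_of_nonneg_left hw hD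
  refine le_trans ?_ e1
  have e3 : D * (m / l ^ 2 * (1 + 2 / l * (1 - δ))) = (m * D) * (1 + 2 / l * (1 - δ)) / l ^ 2 := by ring
  rw [e3, div_mul_eq_mul_div, div_le_div_iff_of_pos_right (by positivity)]
  have hδ : 0 ≤ 1 - δ := by linarith
  have e4 : 0 ≤ 1 + 2 / l * (1 - δ) := by positivity
  have e5 : (X - (L + m)) * (1 + 2 / l * (1 - δ)) ≤ (m * D) * (1 + 2 / l * (1 - δ)) := by
    refine mul_le_mul_of_nonneg_right ?_ e4
    linarith
  refine le_trans ?_ e5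
  have e7 : 1 + 2 / l * (1 - δ) ≤ 3 := by
    have a1 : 2 / l ≤ 2 := by
      rw [div_le_iff₀ hl0]
      linarith
    have a5 : 0 < 2 / l := by positivity
    have : 2 / l * (1 - δ) ≤ 2 * 1 := mul_le_mul a1 (by linarith) hδ (by norm_num)
    linarith
  have e8 : (L + m) * (1 + 2 / l * (1 - δ)) ≤ X * (η / (6 * l)) * 3 :=
    mul_le_mul e6 e7 e4 (by positivity)
  have e9 : X * (1 + (2 - η) / l) ≤ X * (1 + 2 / l * (1 - δ)) - X * (η / (6 * l)) * 3 := by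
    have a1 : X * (1 + 2 / l * (1 - δ)) - X * (η / (6 * l)) * 3 - X * (1 + (2 - η) / l) =
        X / l * (η / 2 - 2 * δ) := by
      field_simp
      ring
    have a2 : 0 ≤ X / l * (η / 2 - 2 * δ) := mul_nonneg (by positivity) (by linarith)
    linarith
  calc X * (1 + (2 - η) / l) ≤ _ := e9
    _ ≤ X * (1 + 2 / l * (1 - δ)) - (L + m) * (1 + 2 / l * (1 - δ)) := by linarith
    _ = _ := by ring

end Pool.Agent.K7.H69.GD
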