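import Pool.Agent.K7.H69.GD.F0

/-! The main inequality. -/

set_option autoImplicit false

namespace Pool.Agent.K7.H69.GD

open Finset Pool.Agent.H387R2 Filter Topology

lemma comb1 (t sq N lq l η b e D err W : ℝ) (hD : 0 ≤ D) (hN : 0 ≤ N)
    (hW : W = t - (1 / 2 + η) * N * l - N ^ 2 / b)
    (hT : t - e ≤ sq) (he : e ≤ N ^ 2 / (2 * b)) (hq : (1 / 2 - η) * l ≤ lq)
    (herr : err ≤ D * (N ^ 2 / (2 * b))) (hb : 0 < b) :
    D * W ≤ D * (sq - N * (l - lq)) - err := by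
  have e1 : W ≤ sq - N * (l - lq) - N ^ 2 / (2 * b) := by
    have e2 : N * (l - lq) ≤ N * ((1 / 2 + η) * l) := by
      refine mul_le_mul_of_nonneg_left ?_ hN
      linarith
    have e3 : N ^ 2 / b = N ^ 2 / (2 * b) + N ^ 2 / (2 * b) := by
      field_simp
      ring
    rw [hW, e3]
    linarith
  have e2 := mul_le_mul_of_nonneg_left e1 hD
  have e3 : D * (sq - N * (l - lq) - N ^ 2 / (2 * b)) = D * (sq - N * (l - lq)) - D * (N ^ 2 / (2 * b)) := by ring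
  linarith

theorem main_ineq (hBV : BV) (B C : ℕ) (η : ℝ) (hη : 0 < η) (hη1 : η ≤ 1 / 4) :
    ∀ᶠ X : ℕ in atTop, ∀ A : Finset ℕ, (∀ a ∈ A, (a : ℝ) ≤ Real.log X ^ C) →
      X / Real.log X ^ 2 * (1 + (2 - η) / Real.log X) *
        (TT A - (1 / 2 + η) * A.card * Real.log X - (A.card : ℝ) ^ 2 / Real.log X ^ B) ≤ PP X A := by
  obtain ⟨B0, X0, hbv⟩ := hBV (B + 6)
  obtain ⟨B1, hB1⟩ : ∃ B1, B1 = B0 + B + 8 := ⟨_, rfl⟩
  filter_upwards [eventually_ge_atTop X0, eventually_ge_atTop 3,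
    ev1 (B + 12) (1 / 2) 1 (by norm_num), ev1 B1 (1 / 2) 2 (by norm_num), ev1 B1 η 2 hη,
    ev1 (4 * C + 2 * B + B1) (1 / 2) (8 * Real.exp kap ^ 2) (by norm_num),
    ev1 (C + 2) (1 / 2) (32 / η) (by norm_num), ev1 (C + 3) (1 / 2) (60 / η) (by norm_num),
    ev2 100, ev2 (32 / η), ev1 2 1 16 (by norm_num)] with X hX0 hX3 c1 c2 c3 c4 c5 c6 hl1 hl2 c7 A hA
  have hX0' : (0 : ℝ) < X := by exact_mod_cast (by omega : 0 < X)
  have hX1 : (1 : ℝ) ≤ X := by exact_mod_cast (by omega : 1 ≤ X)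
  have hsr : (X : ℝ) ^ (1 / 2 : ℝ) = Real.sqrt X := (Real.sqrt_eq_rpow _).symm
  rw [hsr] at c1 c2 c4 c5 c6
  rw [one_mul] at c1
  rw [Real.rpow_one] at c7
  have hl0 : 0 < Real.log X := by linarith
  have hs0 : 0 < Real.sqrt X := Real.sqrt_pos.2 hX0'
  have hss : Real.sqrt X * Real.sqrt X = X := Real.mul_self_sqrt hX0'.le
  have hsX : Real.sqrt X ≤ X := by
    rw [Real.sqrt_le_left hX0'.le]
    nlinarith
  have hfac : 0 < X / Real.log X ^ 2 * (1 + (2 - η) / Real.log X) := by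
    have : 0 < 2 - η := by linarith
    positivity
  obtain ⟨W, hW⟩ : ∃ W, W = TT A - (1 / 2 + η) * A.card * Real.log X - (A.card : ℝ) ^ 2 / Real.log X ^ B := ⟨_, rfl⟩
  rw [← hW]
  rcases le_or_gt W 0 with hW0 | hW0
  · exact (mul_nonpos_of_nonneg_of_nonpos hfac.le hW0).trans (PP_nonneg X A)
  rcases A.eq_empty_or_nonempty with hAe | hAn
  · exfalso
    rw [hW, hAe] at hW0
    simp [TT] at hW0
  have hc1 : (1 : ℝ) ≤ A.card := by exact_mod_cast hAn.card_pos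
  obtain ⟨L, m, D, p1, p2, p3, p4, p5, p6, p7, p8, p9⟩ := par1 X C η (Real.log X) (Real.sqrt X) hη hη1 hX1 hl1 hl2
    hsX c7 c5 c6
  obtain ⟨Q, q1, q2, q3, q4, q5, q6⟩ := par2 X B C B0 B1 η hB1 hX1 hl1 c2 c3 c4
  obtain ⟨M, hM0, hM, hMs⟩ := hbv X hX0 Q q4
  have hAL : ∀ a ∈ A, a ≤ L := fun a ha => p1 a (hA a ha)
  have hQX : Q ≤ X := by
    have : (Q : ℝ) ≤ X := q2.trans hsX
    exact_mod_cast this
  have hM1 : M 1 ≤ X / Real.log X ^ (B + 6) := by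
    refine le_trans ?_ hMs
    exact single_le_sum (f := M) (fun q _ => hM0 q) (mem_Icc.2 ⟨le_rfl, q1⟩)
  have hmain := all_blocks Q D X L m A (by omega) p7 hAL p4 hM0 hM
  have hw := weights X L m D p3 p7 p4
  have hE1 := E1_le Q X hQX hM0
  have hE2 := E2_le Q X hQX
  have hT := T_upper A L Q hAL q1
  have herr := par3 (Real.log X) (Real.sqrt X) X Q (M 1) (E1 Q X M) (E2 Q) (∑ q ∈ Icc 1 Q, M q) D A.card B B1
    (by omega) hl1 hs0 hss hX0' c1 (Nat.cast_nonneg Q) q2 q3 (hM0 1) hM1 (sum_nonneg fun q _ => hM0 q) hMs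
    hE1 hE2 p6 hc1
  have hTerr := par4 (Real.exp kap) L (Real.sqrt Q) (Real.log X) A.card B C (Real.exp_pos _) hl0 (Nat.cast_nonneg L)
    p2 q6
  have hDW := comb1 (TT A) (∑ x ∈ A.offDiag, SQ Q (dist x.1 x.2)) A.card (Real.log Q) (Real.log X) η (Real.log X ^ B)
    _ D _ W (Nat.cast_nonneg D) (by linarith) hW hT hTerr q5 herr (by positivity)
  obtain ⟨Λ, hΛ⟩ : ∃ Λ, Λ = ∑ i ∈ range m, 1 / Real.log (((i + 1) * D + L : ℕ) : ℝ) ^ 2 := ⟨_, rfl⟩
  rw [← hΛ] at hmain hw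
  have hΛ0 : 0 ≤ Λ := by
    rw [hΛ]
    exact sum_nonneg fun i _ => by positivity
  have hfin : D * W * Λ ≤ PP X A := (mul_le_mul_of_nonneg_right hDW hΛ0).trans hmain
  refine le_trans ?_ hfin
  have hm1 : (1 : ℝ) ≤ m := by exact_mod_cast p3
  have hkey := par5 X L m D (Real.log X) η Λ ((1 + Real.log m) / m + m * L / X) hX1 hl1 hη hη1 hm1
    (Nat.cast_nonneg D) (Nat.cast_nonneg L) (by
      have := Real.log_natCast_nonneg m
      positivity) p8 p5 p9 (by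
      have e2 : 1 + 2 / Real.log X * (1 - (1 + Real.log m) / m - m * L / X) =
          1 + 2 / Real.log X * (1 - ((1 + Real.log m) / m + m * L / X)) := by ring
      rw [← e2]
      exact hw)
  calc X / Real.log X ^ 2 * (1 + (2 - η) / Real.log X) * W ≤ D * Λ * W := mul_le_mul_of_nonneg_right hkey hW0.le
    _ = D * W * Λ := by ring

end Pool.Agent.K7.H69.GD
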