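import Pool.Agent.K7.H69.GD.F1
import Pool.Agent.Y889.PN.BVMax

/-! Weighted number of the good pairs. -/

set_option autoImplicit false

namespace Pool.Agent.K7.H69.GD

open Finset Pool.Agent.H387R2 Filter Topology

theorem bv : BV := by
  intro V
  obtain ⟨B, X0, h⟩ := Pool.Agent.Y889.PN.bvmax V
  refine ⟨B, X0, fun X hX Q hQ => ?_⟩
  obtain ⟨M, h0, h1, _, h3⟩ := h X hX Q hQ
  exact ⟨M, h0, h1, h3⟩

lemma ev3 (K η : ℝ) (hK : 0 ≤ K) (hη : 0 < η) : ∀ᶠ y : ℝ in atTop, 2 * (1 + K * Real.log y) ^ 2 ≤ η * y := by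
  have h1 := (Real.isLittleO_pow_log_id_atTop (n := 2)).bound (show (0 : ℝ) < η / (2 * (K + 1) ^ 2) by positivity)
  filter_upwards [h1, eventually_ge_atTop (Real.exp 1)] with y hy hy1
  have hy0 : 0 < y := lt_of_lt_of_le (Real.exp_pos 1) hy1
  have hl : 1 ≤ Real.log y := by rwa [Real.le_log_iff_exp_le hy0]
  rw [Real.norm_of_nonneg (by positivity)] at hy
  simp only [id] at hy
  rw [Real.norm_of_nonneg hy0.le] at hy
  have h2 : (1 + K * Real.log y) ^ 2 ≤ ((K + 1) * Real.log y) ^ 2 := by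
    refine pow_le_pow_left₀ (by positivity) ?_ 2
    linarith
  calc 2 * (1 + K * Real.log y) ^ 2 ≤ 2 * ((K + 1) * Real.log y) ^ 2 := by linarith
    _ = 2 * (K + 1) ^ 2 * Real.log y ^ 2 := by ring
    _ ≤ 2 * (K + 1) ^ 2 * (η / (2 * (K + 1) ^ 2) * y) := mul_le_mul_of_nonneg_left hy (by positivity)
    _ = η * y := by
      field_simp

/-- lower bound for the sum of the singular series over the differences -/
lemma TT_low (B C : ℕ) (η : ℝ) (hη : 0 < η) : ∀ᶠ X : ℕ in atTop, ∀ A : Finset ℕ,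
    (∀ a ∈ A, (a : ℝ) ≤ Real.log X ^ C) →
      (A.card : ℝ) ^ 2 - η * A.card * Real.log X - (A.card : ℝ) ^ 2 / Real.log X ^ B ≤ TT A := by
  obtain ⟨K, hK⟩ : ∃ K : ℕ, K = 4 * C + 2 * B + 1 := ⟨_, rfl⟩
  have tL : Tendsto (fun N : ℕ => Real.log (N : ℝ)) atTop atTop :=
    Real.tendsto_log_atTop.comp (tendsto_natCast_atTop_atTop (R := ℝ))
  filter_upwards [tL.eventually (ev3 K η (Nat.cast_nonneg K) hη), ev2 (2 * Real.exp kap ^ 2), ev2 2] with X h1 h2 h3 A hA
  obtain ⟨l, hl⟩ : ∃ l, l = Real.log X := ⟨_, rfl⟩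
  rw [← hl] at h1 h2 h3 hA ⊢
  have hl0 : 0 < l := by linarith
  have hk := Real.exp_pos kap
  obtain ⟨L, hL⟩ : ∃ L, L = ⌊l ^ C⌋₊ := ⟨_, rfl⟩
  have hLl : (L : ℝ) ≤ l ^ C := by
    rw [hL]
    exact Nat.floor_le (by positivity)
  have hAL : ∀ a ∈ A, a ≤ L := fun a ha => by
    rw [hL]
    exact Nat.le_floor (hA a ha)
  obtain ⟨R, hR⟩ : ∃ R, R = ⌊l ^ K⌋₊ := ⟨_, rfl⟩
  have hRu : (R : ℝ) ≤ l ^ K := by
    rw [hR]
    exact Nat.floor_le (by positivity)
  have hRl : l ^ K / 2 ≤ R := by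
    have e1 : l ^ K < R + 1 := by
      rw [hR]
      exact Nat.lt_floor_add_one _
    have e2 : l ^ 1 ≤ l ^ K := pow_le_pow_right₀ (by linarith) (by omega)
    rw [pow_one] at e2
    linarith
  have hR0 : (0 : ℝ) < R := lt_of_lt_of_le (by positivity) hRl
  have hR1 : 1 ≤ R := by exact_mod_cast hR0
  have hT := T_lower A L R hAL hR1
  have hlogR : Real.log R ≤ K * Real.log l := by
    rw [← Real.log_pow]
    exact Real.log_le_log hR0 hRu
  have hlogR0 : 0 ≤ Real.log R := Real.log_natCast_nonneg R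
  have a1 : 2 * (1 + Real.log R) ^ 2 ≤ η * l := by
    refine le_trans ?_ h1
    have := pow_le_pow_left₀ (by linarith : 0 ≤ 1 + Real.log R) (by linarith : 1 + Real.log R ≤ 1 + K * Real.log l) 2
    linarith
  have hsR : Real.exp kap * l ^ (2 * C + B) ≤ Real.sqrt R := by
    apply Real.le_sqrt_of_sq_le
    refine le_trans ?_ hRl
    rw [le_div_iff₀ (by norm_num)]
    have e1 : l ^ K = (l ^ (2 * C + B)) ^ 2 * l := by
      rw [← pow_mul, hK, ← pow_succ]
      congr 1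
      ring
    rw [e1]
    calc (Real.exp kap * l ^ (2 * C + B)) ^ 2 * 2 = (l ^ (2 * C + B)) ^ 2 * (2 * Real.exp kap ^ 2) := by ring
      _ ≤ _ := mul_le_mul_of_nonneg_left h2 (by positivity)
  have hsR0 : 0 < Real.sqrt R := Real.sqrt_pos.2 hR0
  have a2 : Real.exp kap * (L : ℝ) ^ 2 / Real.sqrt R ≤ 1 / l ^ B := by
    rw [div_le_div_iff₀ hsR0 (by positivity), one_mul]
    refine le_trans ?_ hsR
    have e2 : (L : ℝ) ^ 2 ≤ l ^ (2 * C) := by
      calc (L : ℝ) ^ 2 ≤ (l ^ C) ^ 2 := pow_le_pow_left₀ (Nat.cast_nonneg _) hLl 2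
        _ = _ := by rw [← pow_mul, mul_comm]
    calc Real.exp kap * (L : ℝ) ^ 2 * l ^ B ≤ Real.exp kap * l ^ (2 * C) * l ^ B := by gcongr
      _ = _ := by
        rw [pow_add]
        ring
  have a3 : (A.card : ℝ) * (2 * (1 + Real.log R) ^ 2) ≤ η * A.card * l := by
    calc _ ≤ (A.card : ℝ) * (η * l) := mul_le_mul_of_nonneg_left a1 (Nat.cast_nonneg _)
      _ = _ := by ring
  have a4 : (A.card : ℝ) ^ 2 * (Real.exp kap * (L : ℝ) ^ 2 / Real.sqrt R) ≤ (A.card : ℝ) ^ 2 / l ^ B := by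
    calc _ ≤ (A.card : ℝ) ^ 2 * (1 / l ^ B) := mul_le_mul_of_nonneg_left a2 (by positivity)
      _ = _ := by ring
  unfold TT
  linarith

/-- the even differences for which the number of the prime pairs is at least `s` times the singular series -/
def Gd (X : ℕ) (s : ℝ) (d : ℕ) : Prop := Even d ∧ s * Uni.CT {0, d} ≤ pi2 X d

/-- the upper bound sieve, uniformly -/
def UB (B0 : ℝ) : Prop := ∀ C : ℕ, ∀ᶠ X : ℕ in atTop, ∀ d : ℕ, Even d → 1 ≤ d → (d : ℝ) ≤ Real.log X ^ C →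
  (pi2 X d : ℝ) ≤ B0 * (X / Real.log X ^ 2 * Uni.CT {0, d})

lemma alg1 (B0 G V w w1 W1 T P N l ε η b : ℝ) (hB0 : 0 < B0) (hη : 0 < η) (hη1 : η ≤ 1 / 4) (hl : 9 / η ≤ l)
    (hV : 0 < V) (hw : 1 ≤ w) (hw1 : w ≤ w1)
    (hW1 : W1 = T - (1 / 2 + η / 4) * N * l - N ^ 2 / b)
    (hmain : V * w1 * W1 ≤ P) (hP0 : 0 ≤ P)
    (hP : P ≤ B0 * (V * G) + (1 - ε) * w * V * T + N ^ 2)
    (hT : N ^ 2 - η / 4 * N * l - N ^ 2 / b ≤ T)
    (hbl : 1 / b ≤ ε / l) (hVb : 1 / V ≤ 1 / b) (hb : 0 < b)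
    (hε0 : 0 < ε) (hε1 : ε ≤ 1) (hN : (1 / 2 + η) * l ≤ ε * N) (hN1 : 1 ≤ N) :
    η / (3 * B0) * ε * N ^ 2 ≤ G := by
  have hl0 : 0 < l := lt_of_lt_of_le (by positivity) hl
  have hw0 : 0 < w := by linarith
  have h1 : V * w * W1 ≤ P := by
    rcases le_or_gt W1 0 with h | h
    · exact (mul_nonpos_of_nonneg_of_nonpos (by positivity) h).trans hP0
    · refine le_trans ?_ hmain
      have : V * w ≤ V * w1 := mul_le_mul_of_nonneg_left hw1 hV.le
      exact mul_le_mul_of_nonneg_right this h.le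
  have h2 : V * (w * (W1 - (1 - ε) * T)) ≤ V * (B0 * G + N ^ 2 * (1 / V)) := by
    have e1 : V * (B0 * G + N ^ 2 * (1 / V)) = B0 * (V * G) + N ^ 2 := by
      field_simp
    have e2 : V * (w * (W1 - (1 - ε) * T)) = V * w * W1 - (1 - ε) * w * V * T := by ring
    rw [e1, e2]
    linarith
  have h3 : w * (W1 - (1 - ε) * T) ≤ B0 * G + N ^ 2 * (1 / V) := le_of_mul_le_mul_left h2 hV
  have hb2 : N ^ 2 / b ≤ N ^ 2 * (ε / l) := by
    calc N ^ 2 / b = N ^ 2 * (1 / b) := by ring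
      _ ≤ _ := mul_le_mul_of_nonneg_left hbl (by positivity)
  have hV2 : N ^ 2 * (1 / V) ≤ N ^ 2 * (ε / l) := mul_le_mul_of_nonneg_left (hVb.trans hbl) (by positivity)
  have hl2 : ε / l ≤ ε * (η / 9) := by
    rw [div_le_iff₀ hl0]
    rw [div_le_iff₀ hη] at hl
    nlinarith
  have hE : N ^ 2 * (ε / l) ≤ ε * N ^ 2 * (η / 9) := by
    calc _ ≤ N ^ 2 * (ε * (η / 9)) := mul_le_mul_of_nonneg_left hl2 (by positivity)
      _ = _ := by ring
  have hEpos : 0 < ε * N ^ 2 := by positivity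
  have h4 : ε * N ^ 2 * (2 * η / 3) - 2 * (ε * N ^ 2 * (η / 9)) ≤ W1 - (1 - ε) * T := by
    have e1 : ε * (N ^ 2 - η / 4 * N * l - N ^ 2 / b) ≤ ε * T := mul_le_mul_of_nonneg_left hT hε0.le
    have e2 : ε * (N ^ 2 / b) ≤ N ^ 2 / b := mul_le_of_le_one_left (by positivity) hε1
    have e3 : ε * (η / 4 * N * l) ≤ η / 4 * N * l := mul_le_of_le_one_left (by positivity) hε1
    have e4 : (1 / 2 + η / 2) * (N * l) ≤ ε * N ^ 2 * (1 - 2 * η / 3) := by
      have f1 : N * ((1 / 2 + η) * l) ≤ N * (ε * N) := mul_le_mul_of_nonneg_left hN (by linarith)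
      have f2 : N * l ≤ ε * N ^ 2 / (1 / 2 + η) := by
        rw [le_div_iff₀ (by linarith)]
        linarith
      have f3 : (1 / 2 + η / 2) * (N * l) ≤ (1 / 2 + η / 2) * (ε * N ^ 2 / (1 / 2 + η)) :=
        mul_le_mul_of_nonneg_left f2 (by linarith)
      refine f3.trans ?_
      have f4 : (1 / 2 + η / 2) * (ε * N ^ 2 / (1 / 2 + η)) = ε * N ^ 2 * ((1 / 2 + η / 2) / (1 / 2 + η)) := by ring
      rw [f4]
      refine mul_le_mul_of_nonneg_left ?_ hEpos.le
      rw [div_le_iff₀ (by linarith)]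
      nlinarith
    have e5 : N ^ 2 / b ≤ ε * N ^ 2 * (η / 9) := hb2.trans hE
    rw [hW1]
    have e6 : ε * (N ^ 2 - η / 4 * N * l - N ^ 2 / b) = ε * N ^ 2 - ε * (η / 4 * N * l) - ε * (N ^ 2 / b) := by ring
    rw [e6] at e1
    linarith
  have h5 : ε * N ^ 2 * (4 * η / 9) ≤ W1 - (1 - ε) * T := by
    linarith
  have h6 : ε * N ^ 2 * (4 * η / 9) ≤ w * (W1 - (1 - ε) * T) := by
    have h0 : 0 ≤ W1 - (1 - ε) * T := le_trans (by positivity) h5
    have := mul_le_mul_of_nonneg_right hw h0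
    linarith
  have h7 : ε * N ^ 2 * (η / 3) ≤ B0 * G := by
    have : N ^ 2 * (1 / V) ≤ ε * N ^ 2 * (η / 9) := hV2.trans hE
    have e1 : ε * N ^ 2 * (4 * η / 9) = ε * N ^ 2 * (η / 3) + ε * N ^ 2 * (η / 9) := by ring
    linarith
  have h8 : η / (3 * B0) * ε * N ^ 2 = ε * N ^ 2 * (η / 3) / B0 := by
    field_simp
  rw [h8, div_le_iff₀ hB0]
  linarith

lemma pi2_odd {X d : ℕ} (hd : ¬ Even d) : pi2 X d ≤ 1 := by
  unfold pi2
  rw [card_le_one]
  intro a ha b hb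
  rw [mem_filter] at ha hb
  have key : ∀ p : ℕ, p.Prime → (p - d).Prime → p = d + 2 := by
    intro p hp hpd
    have h2 := hpd.two_le
    rcases hp.eq_two_or_odd' with rfl | ho
    · have : d = 0 := by omega
      rw [this] at hd
      exact absurd (by decide : Even 0) hd
    · rcases hpd.eq_two_or_odd' with h | ho2
      · omega
      · exfalso
        apply hd
        have : Even (p - (p - d)) := Nat.Odd.sub_odd ho ho2
        have e : p - (p - d) = d := by omega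
        rwa [e] at this
  rw [key a ha.2.1 ha.2.2, key b hb.2.1 hb.2.2]

theorem weight_nat (B0 η : ℝ) (hB0 : 0 < B0) (hUB : UB B0) (hη : 0 < η) (hη1 : η ≤ 1 / 4) (B C : ℕ) :
    ∀ᶠ X : ℕ in atTop, ∀ A : Finset ℕ, (∀ a ∈ A, (a : ℝ) ≤ Real.log X ^ C) → ∀ ε : ℝ, 1 / Real.log X ^ B ≤ ε →
      ε ≤ 1 → (1 / 2 + η) * Real.log X ≤ ε * A.card → ∀ g : ℕ → Prop, (∀ d, Gd X ((1 - ε) * (1 + (2 - η) / Real.log X) *
        (X / Real.log X ^ 2)) d → g d) → ∀ S : Finset (ℕ × ℕ), (∀ x ∈ A.offDiag, g (dist x.1 x.2) → x ∈ S) →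
          S ⊆ A.offDiag →
        η / (3 * B0) * ε * A.card ^ 2 ≤ ∑ x ∈ S, Uni.CT {0, dist x.1 x.2} := by
  filter_upwards [main_ineq bv (B + 1) C (η / 4) (by positivity) (by linarith), TT_low (B + 1) C (η / 4) (by positivity),
    hUB C, ev1 (B + 3) 1 1 (by norm_num), ev2 (9 / η), eventually_ge_atTop 3, ev2 1] with X h1 h2 h3 h4 h5 h6 h7
  intro A hA ε hε hε1 hN g hg S hS hSA
  classical
  rw [Real.rpow_one, one_mul] at h4
  have hm := h1 A hA
  have ht := h2 A hA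
  obtain ⟨l, hl⟩ : ∃ l, l = Real.log X := ⟨_, rfl⟩
  rw [← hl] at h3 h4 h5 h7 hm ht hA hε hN hg
  have hl0 : 0 < l := by linarith
  have hX0 : (0 : ℝ) < X := by exact_mod_cast (by omega : 0 < X)
  have hε0 : 0 < ε := lt_of_lt_of_le (by positivity) hε
  have hNpos : (0 : ℝ) < A.card := by
    have : 0 < ε * A.card := lt_of_lt_of_le (by positivity) hN
    exact pos_of_mul_pos_right this hε0.le
  have hN1 : (1 : ℝ) ≤ A.card := by
    have : 0 < A.card := by exact_mod_cast hNpos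
    exact_mod_cast this
  obtain ⟨w, hw⟩ : ∃ w, w = 1 + (2 - η) / l := ⟨_, rfl⟩
  obtain ⟨V, hV⟩ : ∃ V : ℝ, V = X / l ^ 2 := ⟨_, rfl⟩
  rw [← hw, ← hV] at hg
  rw [← hV] at hm
  have hw1 : 1 ≤ w := by
    rw [hw]
    have : 0 ≤ (2 - η) / l := div_nonneg (by linarith) hl0.le
    linarith
  have hV0 : 0 < V := by
    rw [hV]
    positivity
  -- the sum over the pairs
  have hP : PP X A ≤ B0 * (V * ∑ x ∈ S, Uni.CT {0, dist x.1 x.2}) + (1 - ε) * w * V * TT A + (A.card : ℝ) ^ 2 := by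
    have e1 : ∀ x ∈ A.offDiag, (pi2 X (dist x.1 x.2) : ℝ) ≤
        (if x ∈ S then B0 * (V * Uni.CT {0, dist x.1 x.2}) else 0) + (1 - ε) * w * V * Uni.CT {0, dist x.1 x.2} + 1 := by
      intro x hx
      have hCT := Uni.CT_nonneg {0, dist x.1 x.2}
      have hnn : 0 ≤ (1 - ε) * w * V * Uni.CT {0, dist x.1 x.2} := by
        have : 0 ≤ 1 - ε := by linarith
        positivity
      have hxx := mem_offDiag.1 hx
      by_cases he : Even (dist x.1 x.2)
      · by_cases hgd : Gd X ((1 - ε) * w * V) (dist x.1 x.2)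
        · rw [if_pos (hS x hx (hg _ hgd))]
          have hd1 : 1 ≤ dist x.1 x.2 := by
            unfold dist
            have := hxx.2.2
            omega
          have hd2 : ((dist x.1 x.2 : ℕ) : ℝ) ≤ l ^ C := by
            have a1 := hA _ hxx.1
            have a2 := hA _ hxx.2.1
            have : dist x.1 x.2 ≤ x.1 ∨ dist x.1 x.2 ≤ x.2 := by
              unfold dist
              omega
            rcases this with h | h
            · exact (Nat.cast_le.2 h).trans a1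
            · exact (Nat.cast_le.2 h).trans a2
          have := h3 _ he hd1 hd2
          rw [← hV] at this
          linarith
        · have : (pi2 X (dist x.1 x.2) : ℝ) < (1 - ε) * w * V * Uni.CT {0, dist x.1 x.2} := by
            by_contra hcon
            exact hgd ⟨he, not_lt.1 hcon⟩
          split_ifs
          · have : 0 ≤ B0 * (V * Uni.CT {0, dist x.1 x.2}) := by positivity
            linarith
          · linarith
      · have : (pi2 X (dist x.1 x.2) : ℝ) ≤ 1 := by exact_mod_cast pi2_odd he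
        split_ifs
        · have : 0 ≤ B0 * (V * Uni.CT {0, dist x.1 x.2}) := by positivity
          linarith
        · linarith
    have e2 := sum_le_sum e1
    rw [sum_add_distrib, sum_add_distrib, ← mul_sum] at e2
    have e3 : ∑ x ∈ A.offDiag, (if x ∈ S then B0 * (V * Uni.CT {0, dist x.1 x.2}) else 0) =
        B0 * (V * ∑ x ∈ S, Uni.CT {0, dist x.1 x.2}) := by
      rw [← sum_filter, mul_sum, mul_sum]
      refine sum_congr ?_ fun _ _ => rfl
      ext x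
      rw [mem_filter]
      exact ⟨fun h => h.2, fun h => ⟨hSA h, h⟩⟩
    have e4 : ∑ _x ∈ A.offDiag, (1 : ℝ) ≤ (A.card : ℝ) ^ 2 := by
      rw [sum_const, nsmul_eq_mul, mul_one, offDiag_card, sq]
      exact_mod_cast Nat.sub_le _ _
    rw [e3] at e2
    unfold PP TT
    linarith
  refine alg1 B0 _ V w (1 + (2 - η / 4) / l) _ (TT A) (PP X A) A.card l ε η (l ^ (B + 1)) hB0 hη hη1 h5 hV0 hw1 ?_ rfl
    hm (PP_nonneg X A) hP ht ?_ ?_ (by positivity) hε0 hε1 hN hN1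
  · rw [hw]
    have : (2 - η) / l ≤ (2 - η / 4) / l := div_le_div_of_nonneg_right (by linarith) hl0.le
    linarith
  · calc 1 / l ^ (B + 1) = 1 / l ^ B / l := by
          rw [pow_succ]
          field_simp
      _ ≤ _ := div_le_div_of_nonneg_right hε hl0.le
  · refine one_div_le_one_div_of_le (by positivity) ?_
    rw [hV, le_div_iff₀ (by positivity), ← pow_add]
    exact h4

end Pool.Agent.K7.H69.GD
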