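import Pool.Agent.K7.H69.GD.F2

/-! The singular series of a pair, the upper bound sieve, cliques. -/

set_option autoImplicit false

namespace Pool.Agent.K7.H69.GD

open Finset Pool.Agent.H387R2 Filter Topology

/-- the twin prime constant -/
noncomputable def C2 : ℝ := ∏' p : {p : ℕ // p.Prime ∧ 2 < p}, (1 - 1 / (((p.1 : ℕ) : ℝ) - 1) ^ 2)

/-- the singular series of a pair -/
noncomputable def SP (d : ℕ) : ℝ :=
  2 * C2 * ∏ p ∈ d.primeFactors.filter (fun p : ℕ => 2 < p), (((p : ℝ) - 1) / ((p : ℝ) - 2))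

lemma nuT_pair {d p : ℕ} (_hp : p.Prime) : Uni.nuT {0, d} p = if p ∣ d then 1 else 2 := by
  unfold Uni.nuT
  rw [image_insert, image_singleton, Nat.zero_mod]
  split_ifs with h
  · rw [Nat.mod_eq_zero_of_dvd h]; simp
  · have : 0 ≠ d % p := fun h' => h (Nat.dvd_of_mod_eq_zero h'.symm)
    rw [Finset.card_pair this]

lemma CT_pair {d : ℕ} (hd : 2 ≤ d) (he : Even d) : Uni.CT {0, d} = SP d := by
  classical
  set Pr : Set ℕ := {p | p.Prime} with hPr
  set Pr2 : Set ℕ := {p | p.Prime ∧ 2 < p} with hPr2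
  -- the finite factor
  set h : ℕ → ℝ := fun p => if p = 2 then 2 else if p.Prime ∧ 2 < p ∧ p ∣ d then ((p : ℝ) - 1) / ((p : ℝ) - 2) else 1 with hh
  set g : ℕ → ℝ := fun p => if p.Prime ∧ 2 < p then (1 - 1 / ((p : ℝ) - 1) ^ 2) else 1 with hg
  have hcard : ({0, d} : Finset ℕ).card = 2 := Finset.card_pair (by omega)
  have hloc : ∀ p : ℕ, p.Prime → Uni.locT {0, d} p = g p * h p := by
    intro p hp
    unfold Uni.locT
    rw [hcard, nuT_pair hp]
    by_cases h2 : p = 2
    · subst h2
      have : 2 ∣ d := he.two_dvd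
      simp only [hg, hh, this, if_true, lt_irrefl, and_false, if_false, one_mul]
      norm_num
    · have h3 : 2 < p := lt_of_le_of_ne hp.two_le (Ne.symm h2)
      have hp3 : (3:ℝ) ≤ p := by exact_mod_cast h3
      have a0 : (p:ℝ) ≠ 0 := by linarith
      have a1 : (p:ℝ) - 1 ≠ 0 := by linarith
      have a2 : (p:ℝ) - 2 ≠ 0 := by linarith
      have a3 : (1 - 1 / (p:ℝ)) = ((p:ℝ) - 1) / p := by field_simp
      by_cases hdv : p ∣ d
      · simp only [hg, hh, hp, h3, h2, hdv, and_self, if_true, if_false]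
        rw [a3]
        push_cast
        rw [a3]
        field_simp
        ring
      · simp only [hg, hh, hp, h3, h2, hdv, and_false, and_self, if_true, if_false]
        rw [a3]
        push_cast
        field_simp
        ring
  have hg1 : ∀ p : ℕ, ¬ (p.Prime ∧ 2 < p) → g p = 1 := by
    intro p hp
    simp only [hg, hp, if_false]
  have hC2 : C2 = ∏' p : ℕ, g p := by
    have h1 : ∏' p : Pr2, g p = ∏' p : ℕ, g p := by
      apply tprod_subtype_eq_of_mulSupport_subset
      intro p hp
      by_contra hcon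
      exact hp (hg1 p hcon)
    rw [← h1]
    unfold C2
    apply tprod_congr
    intro p
    have hp : (p : ℕ).Prime ∧ 2 < (p : ℕ) := p.2
    simp only [hg, hp, and_self, if_true]
  have hF : HasProd (Pr.mulIndicator (fun p : ℕ => Uni.locT {0, d} p)) (Uni.CT {0, d}) := by
    rw [← hasProd_subtype_iff_mulIndicator]
    exact Uni.CT_hasProd {0, d}
  set s : Finset ℕ := insert 2 (d.primeFactors.filter (fun p : ℕ => 2 < p)) with hs
  have hnz : ∀ p : ℕ, h p ≠ 0 := by
    intro p
    simp only [hh]
    split_ifs with h1 h2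
    · norm_num
    · have hp3 : (3:ℝ) ≤ p := by exact_mod_cast h2.2.1
      apply div_ne_zero <;> linarith
    · norm_num
  have hI : HasProd (fun p : ℕ => (h p)⁻¹) (∏ p ∈ s, (h p)⁻¹) := by
    apply hasProd_prod_of_ne_finset_one
    intro p hp
    rw [hs, mem_insert, mem_filter, Nat.mem_primeFactors, not_or] at hp
    simp only [hh]
    rw [if_neg hp.1, if_neg, inv_one]
    rintro ⟨h1, h2, h3⟩
    exact hp.2 ⟨⟨h1, h3, by omega⟩, h2⟩
  have hprod := hF.mul hI
  have hfun : (fun p : ℕ => (Pr.mulIndicator (fun p : ℕ => Uni.locT {0, d} p)) p * (h p)⁻¹) = g := by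
    funext p
    by_cases hp : p.Prime
    · have : p ∈ Pr := hp
      rw [Set.mulIndicator_of_mem this, hloc p hp, mul_assoc, mul_inv_cancel₀ (hnz p), mul_one]
    · have : p ∉ Pr := hp
      rw [Set.mulIndicator_of_notMem this, hg1 p (fun h => hp h.1), one_mul]
      simp only [hh]
      rw [if_neg, if_neg, inv_one]
      · exact fun h => hp h.1
      · rintro rfl
        exact hp Nat.prime_two
  rw [hfun] at hprod
  have hval : ∏ p ∈ s, h p = 2 * ∏ p ∈ d.primeFactors.filter (fun p : ℕ => 2 < p), (((p : ℝ) - 1) / ((p : ℝ) - 2)) := by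
    rw [hs, prod_insert (by simp)]
    congr 1
    apply prod_congr rfl
    intro p hp
    rw [mem_filter, Nat.mem_primeFactors] at hp
    simp only [hh]
    rw [if_neg (by omega), if_pos ⟨hp.1.1, hp.2, hp.1.2.1⟩]
  have h4 := hprod.tprod_eq
  rw [← hC2, prod_inv_distrib] at h4
  unfold SP
  rw [h4]
  have h5 : ∏ p ∈ s, h p ≠ 0 := prod_ne_zero_iff.2 fun p _ => hnz p
  have e : 2 * (Uni.CT {0, d} * (∏ p ∈ s, h p)⁻¹) * ∏ p ∈ d.primeFactors.filter (fun p : ℕ => 2 < p), (((p : ℝ) - 1) / ((p : ℝ) - 2))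
     = Uni.CT {0, d} * ((∏ p ∈ s, h p)⁻¹ * (2 * ∏ p ∈ d.primeFactors.filter (fun p : ℕ => 2 < p), (((p : ℝ) - 1) / ((p : ℝ) - 2)))) := by ring
  rw [e, ← hval, inv_mul_cancel₀ h5, mul_one]


lemma adm_pair {d : ℕ} (he : Even d) : Uni.Adm {0, d} := by
  intro p hp
  rw [nuT_pair hp]
  split_ifs with h
  · exact hp.one_lt
  · have : p ≠ 2 := by
      rintro rfl
      exact h he.two_dvd
    exact lt_of_le_of_ne hp.two_le (Ne.symm this)

lemma pi2_le_piT {X d : ℕ} (he : Even d) (_hd : 1 ≤ d) : pi2 X d ≤ Uni.piT {0, d} X := by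
  classical
  unfold Uni.piT pi2
  rw [if_pos (adm_pair he)]
  have hs : sInf (({0, d} : Finset ℕ) : Set ℕ) = 0 := by
    rw [Nat.sInf_eq_zero]
    left
    simp
  rw [hs]
  refine card_le_card_of_injOn (fun p => p - d) ?_ ?_
  · intro p hp
    rw [mem_coe, mem_filter, mem_Icc] at hp
    rw [mem_coe, mem_filter, mem_Icc]
    have h2 := hp.2.2.two_le
    beta_reduce
    refine ⟨⟨by omega, by omega⟩, ?_⟩
    intro t ht
    rw [mem_insert, mem_singleton] at ht
    rcases ht with rfl | rfl
    · simpa using hp.2.2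
    · have : p - t + (t - 0) = p := by omega
      rw [this]
      exact hp.2.1
  · intro a ha b hb h
    rw [mem_coe, mem_filter] at ha hb
    have h1 := ha.2.2.two_le
    have h2 := hb.2.2.two_le
    beta_reduce at h
    omega

/-- Ramsey's theorem, with the bound of Erdős and Szekeres -/
theorem ramsey (G : ℕ → ℕ → Prop) : ∀ (n r s : ℕ), r + s = n → ∀ A : Finset ℕ, (r + s).choose r ≤ A.card →
    (∃ M ⊆ A, M.card = r + 1 ∧ ∀ a ∈ M, ∀ b ∈ M, a < b → G a b) ∨
      (∃ M ⊆ A, M.card = s + 1 ∧ ∀ a ∈ M, ∀ b ∈ M, a < b → ¬ G a b) := by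
  classical
  intro n
  induction n with
  | zero =>
    intro r s hrs A hA
    obtain ⟨rfl, rfl⟩ : r = 0 ∧ s = 0 := by omega
    rw [Nat.choose_self] at hA
    obtain ⟨a, ha⟩ := card_pos.1 (show 0 < A.card by omega)
    left
    refine ⟨{a}, singleton_subset_iff.2 ha, by simp, ?_⟩
    intro x hx y hy hxy
    rw [mem_singleton] at hx hy
    omega
  | succ n ih =>
    intro r s hrs A hA
    rcases Nat.eq_zero_or_pos r with rfl | hr
    · rw [Nat.choose_zero_right] at hA
      obtain ⟨a, ha⟩ := card_pos.1 (show 0 < A.card by omega)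
      left
      refine ⟨{a}, singleton_subset_iff.2 ha, by simp, ?_⟩
      intro x hx y hy hxy
      rw [mem_singleton] at hx hy
      omega
    rcases Nat.eq_zero_or_pos s with rfl | hs
    · rw [add_zero, Nat.choose_self] at hA
      obtain ⟨a, ha⟩ := card_pos.1 (show 0 < A.card by omega)
      right
      refine ⟨{a}, singleton_subset_iff.2 ha, by simp, ?_⟩
      intro x hx y hy hxy
      rw [mem_singleton] at hx hy
      omega
    obtain ⟨r', rfl⟩ : ∃ r', r = r' + 1 := ⟨r - 1, by omega⟩
    obtain ⟨s', rfl⟩ : ∃ s', s = s' + 1 := ⟨s - 1, by omega⟩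
    have hne : A.Nonempty := card_pos.1 (lt_of_lt_of_le (Nat.choose_pos (by omega)) hA)
    obtain ⟨a, haA, hmin⟩ : ∃ a ∈ A, ∀ b ∈ A, a ≤ b := ⟨A.min' hne, A.min'_mem hne, fun b hb => A.min'_le b hb⟩
    set A1 := (A.erase a).filter (fun b => G a b) with hA1
    set A2 := (A.erase a).filter (fun b => ¬ G a b) with hA2
    have hc : A1.card + A2.card + 1 = A.card := by
      rw [hA1, hA2, card_filter_add_card_filter_not, card_erase_of_mem haA]
      have := card_pos.2 hne
      omega
    have hch : (r' + 1 + (s' + 1)).choose (r' + 1) = (r' + (s' + 1)).choose r' + (r' + 1 + s').choose (r' + 1) := by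
      have e : r' + 1 + (s' + 1) = (r' + s' + 1) + 1 := by ring
      rw [e, Nat.choose_succ_succ]
      congr 2
      · ring
    have hadd : ∀ M : Finset ℕ, M ⊆ A.erase a → ∀ x ∈ M, a < x := by
      intro M hM x hx
      have h1 := mem_erase.1 (hM hx)
      exact lt_of_le_of_ne (hmin x h1.2) (Ne.symm h1.1)
    rcases le_or_gt ((r' + (s' + 1)).choose r') A1.card with h | h
    · rcases ih r' (s' + 1) (by omega) A1 h with ⟨M, hM, hMc, hMG⟩ | ⟨M, hM, hMc, hMG⟩
      · have hM' : M ⊆ A.erase a := hM.trans (filter_subset _ _)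
        have haM : a ∉ M := fun h => (notMem_erase a A) (hM' h)
        left
        refine ⟨insert a M, insert_subset haA (hM'.trans (erase_subset _ _)), by rw [card_insert_of_notMem haM, hMc], ?_⟩
        intro x hx y hy hxy
        rw [mem_insert] at hx hy
        rcases hx with rfl | hx
        · rcases hy with rfl | hy
          · exact absurd hxy (lt_irrefl _)
          · exact (mem_filter.1 (hM hy)).2
        · rcases hy with rfl | hy
          · exact absurd (hadd M hM' x hx) (by omega)
          · exact hMG x hx y hy hxy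
      · right
        exact ⟨M, hM.trans ((filter_subset _ _).trans (erase_subset _ _)), hMc, hMG⟩
    · have h2 : (r' + 1 + s').choose (r' + 1) ≤ A2.card := by omega
      rcases ih (r' + 1) s' (by omega) A2 h2 with ⟨M, hM, hMc, hMG⟩ | ⟨M, hM, hMc, hMG⟩
      · left
        exact ⟨M, hM.trans ((filter_subset _ _).trans (erase_subset _ _)), hMc, hMG⟩
      · have hM' : M ⊆ A.erase a := hM.trans (filter_subset _ _)
        have haM : a ∉ M := fun h => (notMem_erase a A) (hM' h)
        right
        refine ⟨insert a M, insert_subset haA (hM'.trans (erase_subset _ _)), by rw [card_insert_of_notMem haM, hMc], ?_⟩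
        intro x hx y hy hxy
        rw [mem_insert] at hx hy
        rcases hx with rfl | hx
        · rcases hy with rfl | hy
          · exact absurd hxy (lt_irrefl _)
          · exact (mem_filter.1 (hM hy)).2
        · rcases hy with rfl | hy
          · exact absurd (hadd M hM' x hx) (by omega)
          · exact hMG x hx y hy hxy

end Pool.Agent.K7.H69.GD
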