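import Pool.Agent.K7.H69.GD.F3
import Pool.Agent.W218.TX.Up

/-! Real variables. -/

set_option autoImplicit false

namespace Pool.Agent.K7.H69.GD

open Finset Pool.Agent.H387R2 Filter Topology

theorem ub : ∃ B0 : ℝ, 0 < B0 ∧ UB B0 := by
  obtain ⟨B0, hB0, h⟩ := Pool.Agent.W218.TX.pi_upper 1
  refine ⟨B0, hB0, fun C => ?_⟩
  filter_upwards [h (C : ℝ), ev2 1] with X hX hl d he hd1 hd
  have hd2 : 2 ≤ d := by
    rcases he with ⟨k, hk⟩
    omega
  have h1 := hX {0, d} (Finset.card_pair (by omega)) (by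
    intro t ht
    rw [mem_insert, mem_singleton] at ht
    rw [Real.rpow_natCast]
    rcases ht with rfl | rfl
    · push_cast
      have : 0 < Real.log X := by linarith
      positivity
    · exact hd)
  have h2 : (pi2 X d : ℝ) ≤ Uni.piT {0, d} X := by exact_mod_cast pi2_le_piT he hd1
  exact h2.trans h1

/-- the comparison of `x` with `⌊x⌋` -/
lemma real_cmp (B : ℕ) (η : ℝ) (hη : 0 < η) (hη1 : η ≤ 1 / 4) : ∀ᶠ X : ℕ in atTop, ∀ x : ℝ, (X : ℝ) ≤ x → x < X + 1 →
    1 ≤ Real.log X ∧ Real.log X ≤ Real.log x ∧ Real.log x ^ B ≤ Real.log X ^ (B + 1) ∧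
      x / Real.log x ^ 2 * (1 + (2 - η) / Real.log x) ≤ X / Real.log X ^ 2 * (1 + (2 - η / 2) / Real.log X) := by
  filter_upwards [eventually_ge_atTop 3, ev2 1, ev2 (2 ^ B), ev1 1 1 (6 / η) (by norm_num)] with X h1 h2 h3 h4 x hx hx1
  rw [Real.rpow_one, pow_one] at h4
  obtain ⟨l, hl⟩ : ∃ l, l = Real.log X := ⟨_, rfl⟩
  rw [← hl] at h2 h3 h4 ⊢
  have hX3 : (3 : ℝ) ≤ X := by exact_mod_cast h1
  have hX0 : (0 : ℝ) < X := by linarith
  have hl0 : 0 < l := by linarith
  have hlx : l ≤ Real.log x := by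
    rw [hl]
    exact Real.log_le_log hX0 hx
  have hlx2 : Real.log x ≤ 2 * l := by
    have e1 : Real.log x ≤ Real.log (X * X) := by
      refine Real.log_le_log (by linarith) ?_
      nlinarith
    rw [Real.log_mul hX0.ne' hX0.ne', ← hl] at e1
    linarith
  have hlx0 : 0 < Real.log x := by linarith
  refine ⟨h2, hlx, ?_, ?_⟩
  · calc Real.log x ^ B ≤ (2 * l) ^ B := pow_le_pow_left₀ hlx0.le hlx2 B
      _ = 2 ^ B * l ^ B := mul_pow _ _ _
      _ ≤ l * l ^ B := mul_le_mul_of_nonneg_right h3 (by positivity)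
      _ = _ := by ring
  · have h2η : 0 < 2 - η := by linarith
    have e1 : x / Real.log x ^ 2 ≤ (X + 1) / l ^ 2 := by
      refine div_le_div₀ (by linarith) hx1.le (by positivity) ?_
      exact pow_le_pow_left₀ hl0.le hlx 2
    have e2 : (2 - η) / Real.log x ≤ (2 - η) / l := div_le_div_of_nonneg_left h2η.le hl0 hlx
    have e3 : x / Real.log x ^ 2 * (1 + (2 - η) / Real.log x) ≤ (X + 1) / l ^ 2 * (1 + (2 - η) / l) := by
      refine mul_le_mul e1 (by linarith) (by positivity) (by positivity)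
    refine e3.trans ?_
    rw [div_mul_eq_mul_div, div_mul_eq_mul_div, div_le_div_iff_of_pos_right (by positivity)]
    have e4 : 1 + (2 - η) / l ≤ X * ((η / 2) / l) := by
      have f1 : (l + (2 - η)) / l ≤ (X * (η / 2)) / l := by
        refine div_le_div_of_nonneg_right ?_ hl0.le
        rw [div_mul_eq_mul_div, div_le_iff₀ hη] at h4
        linarith
      calc 1 + (2 - η) / l = (l + (2 - η)) / l := by
            field_simp
        _ ≤ _ := f1
        _ = _ := by ring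
    have e5 : X * (1 + (2 - η / 2) / l) = X * (1 + (2 - η) / l) + X * ((η / 2) / l) := by ring
    rw [e5]
    linarith

theorem real_main (η : ℝ) (hη : 0 < η) (hη1 : η ≤ 1 / 4) : ∃ c : ℝ, 0 < c ∧ ∀ B C : ℕ, ∀ᶠ X : ℕ in atTop,
    ∀ x : ℝ, (X : ℝ) ≤ x → x < X + 1 → ∀ A : Finset ℕ, (∀ a ∈ A, (a : ℝ) ≤ Real.log x ^ C) →
      (x / Real.log x ^ 2 * (1 + (2 - η) / Real.log x) *
        (∑ z ∈ A.offDiag, Uni.CT {0, dist z.1 z.2} - (1 / 2 + η) * A.card * Real.log x -
          (A.card : ℝ) ^ 2 / Real.log x ^ B) ≤ ∑ z ∈ A.offDiag, (pi2 X (dist z.1 z.2) : ℝ)) ∧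
      (∀ ε : ℝ, 1 / Real.log x ^ B ≤ ε → ε ≤ 1 → (1 / 2 + η) * Real.log x ≤ ε * A.card →
        ∀ S : Finset (ℕ × ℕ), S ⊆ A.offDiag → (∀ z ∈ A.offDiag, Even (dist z.1 z.2) →
          (1 - ε) * (1 + (2 - η) / Real.log x) * (Uni.CT {0, dist z.1 z.2} * x / Real.log x ^ 2) ≤
            pi2 X (dist z.1 z.2) → z ∈ S) →
          c * ε * (A.card : ℝ) ^ 2 ≤ ∑ z ∈ S, Uni.CT {0, dist z.1 z.2}) := by
  obtain ⟨B0, hB0, hUB⟩ := ub
  refine ⟨η / 2 / (3 * B0), by positivity, fun B C => ?_⟩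
  filter_upwards [main_ineq bv (B + 1) (C + 1) (η / 2) (by positivity) (by linarith),
    weight_nat B0 (η / 2) hB0 hUB (by positivity) (by linarith) (B + 1) (C + 1),
    real_cmp B η hη hη1, real_cmp C η hη hη1, eventually_ge_atTop 3] with X h1 h2 h3 h4 h5 x hx hx1 A hA
  obtain ⟨a1, a2, a3, a4⟩ := h3 x hx hx1
  obtain ⟨-, -, b3, -⟩ := h4 x hx hx1
  have hX0 : (0 : ℝ) < X := by exact_mod_cast (by omega : 0 < X)
  have hx0 : 0 < x := by linarith
  have hl0 : 0 < Real.log X := by linarith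
  have hlx0 : 0 < Real.log x := by linarith
  have hA' : ∀ a ∈ A, (a : ℝ) ≤ Real.log X ^ (C + 1) := fun a ha => (hA a ha).trans b3
  have h2η : 0 < 2 - η := by linarith
  have hF : 0 < x / Real.log x ^ 2 * (1 + (2 - η) / Real.log x) := by positivity
  refine ⟨?_, ?_⟩
  · have hm := h1 A hA'
    have hPP := PP_nonneg X A
    unfold TT PP at hm
    unfold PP at hPP
    rcases le_or_gt (∑ z ∈ A.offDiag, Uni.CT {0, dist z.1 z.2} - (1 / 2 + η) * A.card * Real.log x -
          (A.card : ℝ) ^ 2 / Real.log x ^ B) 0 with h | h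
    · exact (mul_nonpos_of_nonneg_of_nonpos hF.le h).trans hPP
    · refine le_trans ?_ hm
      refine mul_le_mul a4 ?_ h.le (hF.le.trans a4)
      have e1 : (1 / 2 + η / 2) * A.card * Real.log X ≤ (1 / 2 + η) * A.card * Real.log x := by
        refine mul_le_mul ?_ a2 hl0.le (by positivity)
        exact mul_le_mul_of_nonneg_right (by linarith) (Nat.cast_nonneg _)
      have e2 : (A.card : ℝ) ^ 2 / Real.log X ^ (B + 1) ≤ (A.card : ℝ) ^ 2 / Real.log x ^ B :=
        div_le_div_of_nonneg_left (by positivity) (by positivity) a3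
      linarith
  · intro ε hε hε1 hN S hS hSg
    have hε0 : 0 < ε := lt_of_lt_of_le (by positivity) hε
    classical
    refine h2 A hA' ε ?_ hε1 ?_ (fun d => Even d ∧ (1 - ε) * (1 + (2 - η) / Real.log x) *
      (Uni.CT {0, d} * x / Real.log x ^ 2) ≤ pi2 X d) ?_ S ?_ hS
    · refine le_trans ?_ hε
      exact one_div_le_one_div_of_le (by positivity) a3
    · refine le_trans ?_ hN
      refine mul_le_mul (by linarith) a2 hl0.le (by positivity)
    · rintro d ⟨hd, hd2⟩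
      refine ⟨hd, le_trans ?_ hd2⟩
      have hCT := Uni.CT_nonneg {0, d}
      have hε2 : 0 ≤ 1 - ε := by linarith
      have e1 : (1 - ε) * (1 + (2 - η) / Real.log x) * (Uni.CT {0, d} * x / Real.log x ^ 2) =
          (1 - ε) * (x / Real.log x ^ 2 * (1 + (2 - η) / Real.log x)) * Uni.CT {0, d} := by ring
      have e2 : (1 - ε) * (1 + (2 - η / 2) / Real.log X) * (X / Real.log X ^ 2) * Uni.CT {0, d} =
          (1 - ε) * (X / Real.log X ^ 2 * (1 + (2 - η / 2) / Real.log X)) * Uni.CT {0, d} := by ring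
      rw [e1, e2]
      refine mul_le_mul_of_nonneg_right ?_ hCT
      exact mul_le_mul_of_nonneg_left a4 hε2
    · intro z hz hg
      exact hSg z hz hg.1 hg.2

end Pool.Agent.K7.H69.GD
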